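import Pool.Agent.S5.Z.C322
import Pool.Agent.S5.E.T.Via
import Pool.Agent.S5.E.T.TabF

/-!
# The chain `(3, 2, 2)` and the regions by both neighbours
-/

set_option autoImplicit false

namespace Pool.Agent.S5.C322

open Complex
open scoped ComplexConjugate
open Pool.Agent.S5.E.B2 (InR)
open Pool.Agent.S5.G (CrtM)

/-- The critical point of the chain `(3, 2, 2)`, from the table of the special vertices. -/
theorem Pos.tv {a : ℕ → ℕ} {S : ℕ → Bool} {z ql qr : ℕ → ℂ} {zF : Fin (2 + 1) → ℂ}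
    (h : CrtM 2 a S z ql qr) (ez : ∀ i : Fin (2 + 1), z i = zF i)
    (hV : E.TabV ⟨2, false, some true⟩ E.V9S (E.nF 2 a) (E.nlF 2 S) (E.nrF 2 S) zF)
    (a0 : a 0 = 3) (a1 : a 1 = 2) (a2 : a 2 = 2) (s0 : S 0 = true) (s1 : S 1 = false) :
    Pos (cos (z 0)) (conj (cos (z 2))) (cos (z 1)) := by
  have hv : E.vR a S 1 = ⟨2, false, some true⟩ := by
    unfold E.vR
    rw [if_neg (by norm_num), a1, s1]
    simp [s0]
  have h1 := hV.chainR (i := 1) (by norm_num) (by norm_num) hv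
  have e2 : E.vL 2 a S (1 + 1) = ⟨2, false, none⟩ := by
    unfold E.vL
    simp [a2, s1]
  have e0 : E.vR a S (1 - 1) = ⟨3, true, none⟩ := by
    unfold E.vR
    simp [a0, s0]
  have k0 : (E.V9S ⟨2, false, none⟩ ⟨3, true, none⟩).k0 = 711 := by decide +kernel
  have k1 : (E.V9S ⟨2, false, none⟩ ⟨3, true, none⟩).k1 = 768 := by decide +kernel
  have k2 : (E.V9S ⟨2, false, none⟩ ⟨3, true, none⟩).t0 = 629 := by decide +kernel
  have k3 : (E.V9S ⟨2, false, none⟩ ⟨3, true, none⟩).t1 = 734 := by decide +kernel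
  rw [e2, e0] at h1
  have h2 : InR ⟨711, 768, 629, 734, (E.V9S ⟨2, false, none⟩ ⟨3, true, none⟩).m⟩
      (cos (zF ⟨1, by omega⟩)).re (-(cos (zF ⟨1, by omega⟩)).im) :=
    ⟨h1.x0, h1.y0, by rw [← k0]; exact h1.lo, by rw [← k1]; exact h1.hi,
      by rw [← k2]; exact h1.a0, by rw [← k3]; exact h1.a1, h1.m0⟩
  have e : z 1 = zF ⟨1, by omega⟩ := ez ⟨1, by omega⟩
  rw [← e] at h2
  exact c322M h a0 a1 a2 s0 s1 h2

end Pool.Agent.S5.C322
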