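import Pool.Agent.S5.Z.Prg

/-!
# Ends with three half twists: classes 2AA|3A0, 2AS|3A0, 2A0|3A0
-/

set_option autoImplicit false

namespace Pool.Agent.S5.Z3

theorem k2AA : chk false ⟨2, false⟩ 707 924 336 630 650 746 187 307 = true := by
  decide +kernel

theorem k2AS : chk false ⟨2, false⟩ 811 917 561 716 691 737 191 248 = true := by
  decide +kernel

theorem k2A0 : chk false ⟨2, true⟩ 552 598 823 875 636 688 138 191 = true := by
  decide +kernel

end Pool.Agent.S5.Z3
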