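import Pool.Agent.S5.Z.Prg

/-!
# Ends with three half twists: classes 6SA|3S0, 6SS|3S0, 6S0|3S0, 7SA|3S0, 7SS|3S0, 7S0|3S0
-/

set_option autoImplicit false

namespace Pool.Agent.S5.Z3

theorem k6SA : chk true ⟨6, false⟩ 847 930 16 110 647 713 345 424 = true := by
  decide +kernel

theorem k6SS : chk true ⟨6, false⟩ 829 920 36 132 647 713 345 424 = true := by
  decide +kernel

theorem k6S0 : chk true ⟨6, true⟩ 830 900 4 78 651 714 339 408 = true := by
  decide +kernel

theorem k7SA : chk true ⟨6, false⟩ 877 953 1 86 656 718 346 417 = true := by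
  decide +kernel

theorem k7SS : chk true ⟨6, false⟩ 864 947 9 100 656 718 346 417 = true := by
  decide +kernel

theorem k7S0 : chk true ⟨6, true⟩ 865 928 0 58 651 714 339 408 = true := by
  decide +kernel

end Pool.Agent.S5.Z3
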