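import Pool.Agent.S5.Z.Prg

/-!
# Ends with three half twists: classes 8SA|3S0, 8SS|3S0, 8S0|3S0
-/

set_option autoImplicit false

namespace Pool.Agent.S5.Z3

theorem k8SA : chk true ⟨6, false⟩ 893 1000 0 70 660 732 342 420 = true := by
  decide +kernel

theorem k8SS : chk true ⟨6, false⟩ 881 1000 0 81 660 732 342 420 = true := by
  decide +kernel

theorem k8S0 : chk true ⟨6, true⟩ 886 1000 0 48 660 732 342 420 = true := by
  decide +kernel

end Pool.Agent.S5.Z3
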