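import Pool.Agent.S5.Z.Prg

/-!
# Ends with three half twists: classes 3AA|3A0, 3AS|3A0
-/

set_option autoImplicit false

namespace Pool.Agent.S5.Z3

theorem k3AA : chk false ⟨3, false⟩ 750 871 184 346 650 726 242 335 = true := by
  decide +kernel

theorem k3AS : chk false ⟨3, false⟩ 740 874 283 477 651 733 212 313 = true := by
  decide +kernel

end Pool.Agent.S5.Z3
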