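import Pool.Agent.S5.Z.Prg

/-!
# Ends with three half twists: classes 3A0|3A0, 4AA|3A0, 4AS|3A0, 4A0|3A0, 5AA|3A0, 5AS|3A0
-/

set_option autoImplicit false

namespace Pool.Agent.S5.Z3

theorem k3A0 : chk false ⟨3, true⟩ 627 691 233 305 627 691 233 305 = true := by
  decide +kernel

theorem k4AA : chk false ⟨4, false⟩ 804 885 84 202 653 723 279 362 = true := by
  decide +kernel

theorem k4AS : chk false ⟨4, false⟩ 778 879 145 261 651 723 262 346 = true := by
  decide +kernel

theorem k4A0 : chk false ⟨4, true⟩ 737 793 79 136 641 699 287 351 = true := by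
  decide +kernel

theorem k5AA : chk false ⟨5, false⟩ 840 921 37 138 654 724 293 377 = true := by
  decide +kernel

theorem k5AS : chk false ⟨5, false⟩ 818 913 71 167 654 724 292 377 = true := by
  decide +kernel

end Pool.Agent.S5.Z3
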