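import Pool.Agent.S5.Z.Prg

/-!
# Ends with three half twists: classes 5A0|3A0, 6AA|3A0, 6AS|3A0, 6A0|3A0, 7AA|3A0, 7AS|3A0
-/

set_option autoImplicit false

namespace Pool.Agent.S5.Z3

theorem k5A0 : chk false ⟨5, true⟩ 810 863 27 80 653 708 314 373 = true := by
  decide +kernel

theorem k6AA : chk false ⟨6, false⟩ 863 947 7 100 660 725 312 387 = true := by
  decide +kernel

theorem k6AS : chk false ⟨6, false⟩ 848 936 26 116 660 725 312 387 = true := by
  decide +kernel

theorem k6A0 : chk false ⟨6, true⟩ 850 919 0 69 660 721 325 391 = true := by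
  decide +kernel

theorem k7AA : chk false ⟨6, false⟩ 887 962 0 77 665 726 324 391 = true := by
  decide +kernel

theorem k7AS : chk false ⟨6, false⟩ 877 955 3 86 665 726 324 391 = true := by
  decide +kernel

end Pool.Agent.S5.Z3
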