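import Pool.Agent.S5.Z.Prg

/-!
# Ends with three half twists: classes 7A0|3A0, 8AA|3A0, 8AS|3A0, 8A0|3A0
-/

set_option autoImplicit false

namespace Pool.Agent.S5.Z3

theorem k7A0 : chk false ⟨6, true⟩ 882 943 0 52 662 721 325 391 = true := by
  decide +kernel

theorem k8AA : chk false ⟨6, false⟩ 904 1000 0 62 667 735 330 402 = true := by
  decide +kernel

theorem k8AS : chk false ⟨6, false⟩ 893 1000 0 70 667 735 330 402 = true := by
  decide +kernel

theorem k8A0 : chk false ⟨6, true⟩ 901 1000 0 46 667 735 330 402 = true := by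
  decide +kernel

end Pool.Agent.S5.Z3
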