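import Pool.Agent.S5.Z.Prg

/-!
# Ends with three half twists: the neighbour `2SA`, the chain
-/

set_option autoImplicit false

namespace Pool.Agent.S5.Z3

/-- The chain `(3, 2, 2)`. -/
theorem k2SAe : chk true ⟨2, false⟩ 718 752 670 725 588 663 448 580 = true := by
  decide +kernel

end Pool.Agent.S5.Z3
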