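import Pool.Agent.S5.Z.K6a
import Pool.Agent.S5.Z.K6b

/-!
# Ends with three half twists: the neighbour `2SA`, by its other neighbour
-/
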