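import Pool.Agent.S5.Z.Prg

/-!
# Ends with three half twists: classes 3SA|3S0
-/

set_option autoImplicit false

namespace Pool.Agent.S5.Z3

theorem k3SA : chk true ⟨3, false⟩ 721 868 247 453 602 681 385 505 = true := by
  decide +kernel

end Pool.Agent.S5.Z3
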