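import Pool.Agent.S5.Z.Prg

/-!
# Ends with three half twists: classes 3SS|3S0, 3S0|3S0
-/

set_option autoImplicit false

namespace Pool.Agent.S5.Z3

theorem k3SS : chk true ⟨3, false⟩ 743 856 411 618 601 659 436 540 = true := by
  decide +kernel

theorem k3S0 : chk true ⟨3, true⟩ 561 628 373 466 561 628 373 466 = true := by
  decide +kernel

end Pool.Agent.S5.Z3
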