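import Pool.Agent.S5.Z.Prg

/-!
# Ends with three half twists: classes 4SA|3S0, 4SS|3S0, 4S0|3S0, 5SA|3S0, 5SS|3S0, 5S0|3S0
-/

set_option autoImplicit false

namespace Pool.Agent.S5.Z3

theorem k4SA : chk true ⟨4, false⟩ 775 873 120 260 622 697 358 456 = true := by
  decide +kernel

theorem k4SS : chk true ⟨4, false⟩ 750 868 196 345 608 691 372 481 = true := by
  decide +kernel

theorem k4S0 : chk true ⟨4, true⟩ 687 747 123 187 609 673 342 417 = true := by
  decide +kernel

theorem k5SA : chk true ⟨5, false⟩ 824 900 55 159 640 706 350 430 = true := by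
  decide +kernel

theorem k5SS : chk true ⟨5, false⟩ 796 891 97 198 631 701 356 441 = true := by
  decide +kernel

theorem k5S0 : chk true ⟨5, true⟩ 780 832 45 98 637 694 340 403 = true := by
  decide +kernel

end Pool.Agent.S5.Z3
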