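import Pool.Agent.S5.Z.Fin
import Pool.Agent.S5.Z.K1
import Pool.Agent.S5.Z.K2
import Pool.Agent.S5.Z.K3
import Pool.Agent.S5.Z.K4
import Pool.Agent.S5.Z.K5
import Pool.Agent.S5.Z.K6
import Pool.Agent.S5.Z.K7
import Pool.Agent.S5.Z.K8
import Pool.Agent.S5.Z.K9
import Pool.Agent.S5.Z.K10
import Pool.Agent.S5.Z.K11

/-!
# Ends with three half twists: all classes
-/

set_option autoImplicit false

namespace Pool.Agent.S5.Z3

open Pool.Agent.S5.E (Vt types mem_types)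

/-- The constants of the classes `A`. -/
def cnA : ℕ → Option Bool → Cn8
  | 2, some false => ⟨707, 924, 336, 630, 650, 746, 187, 307⟩
  | 2, some true => ⟨811, 917, 561, 716, 691, 737, 191, 248⟩
  | 2, none => ⟨552, 598, 823, 875, 636, 688, 138, 191⟩
  | 3, some false => ⟨750, 871, 184, 346, 650, 726, 242, 335⟩
  | 3, some true => ⟨740, 874, 283, 477, 651, 733, 212, 313⟩
  | 3, none => ⟨627, 691, 233, 305, 627, 691, 233, 305⟩
  | 4, some false => ⟨804, 885, 84, 202, 653, 723, 279, 362⟩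
  | 4, some true => ⟨778, 879, 145, 261, 651, 723, 262, 346⟩
  | 4, none => ⟨737, 793, 79, 136, 641, 699, 287, 351⟩
  | 5, some false => ⟨840, 921, 37, 138, 654, 724, 293, 377⟩
  | 5, some true => ⟨818, 913, 71, 167, 654, 724, 292, 377⟩
  | 5, none => ⟨810, 863, 27, 80, 653, 708, 314, 373⟩
  | 6, some false => ⟨863, 947, 7, 100, 660, 725, 312, 387⟩
  | 6, some true => ⟨848, 936, 26, 116, 660, 725, 312, 387⟩
  | 6, none => ⟨850, 919, 0, 69, 660, 721, 325, 391⟩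
  | 7, some false => ⟨887, 962, 0, 77, 665, 726, 324, 391⟩
  | 7, some true => ⟨877, 955, 3, 86, 665, 726, 324, 391⟩
  | 7, none => ⟨882, 943, 0, 52, 662, 721, 325, 391⟩
  | 8, some false => ⟨904, 1000, 0, 62, 667, 735, 330, 402⟩
  | 8, some true => ⟨893, 1000, 0, 70, 667, 735, 330, 402⟩
  | 8, none => ⟨901, 1000, 0, 46, 667, 735, 330, 402⟩
  | _, _ => ⟨0, 0, 0, 0, 0, 0, 0, 0⟩

/-- The constants of the classes `S`. -/
def cnS : ℕ → Option Bool → Cn8
  | 3, some false => ⟨721, 868, 247, 453, 602, 681, 385, 505⟩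
  | 3, some true => ⟨743, 856, 411, 618, 601, 659, 436, 540⟩
  | 3, none => ⟨561, 628, 373, 466, 561, 628, 373, 466⟩
  | 4, some false => ⟨775, 873, 120, 260, 622, 697, 358, 456⟩
  | 4, some true => ⟨750, 868, 196, 345, 608, 691, 372, 481⟩
  | 4, none => ⟨687, 747, 123, 187, 609, 673, 342, 417⟩
  | 5, some false => ⟨824, 900, 55, 159, 640, 706, 350, 430⟩
  | 5, some true => ⟨796, 891, 97, 198, 631, 701, 356, 441⟩
  | 5, none => ⟨780, 832, 45, 98, 637, 694, 340, 403⟩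
  | 6, some false => ⟨847, 930, 16, 110, 647, 713, 345, 424⟩
  | 6, some true => ⟨829, 920, 36, 132, 647, 713, 345, 424⟩
  | 6, none => ⟨830, 900, 4, 78, 651, 714, 339, 408⟩
  | 7, some false => ⟨877, 953, 1, 86, 656, 718, 346, 417⟩
  | 7, some true => ⟨864, 947, 9, 100, 656, 718, 346, 417⟩
  | 7, none => ⟨865, 928, 0, 58, 651, 714, 339, 408⟩
  | 8, some false => ⟨893, 1000, 0, 70, 660, 732, 342, 420⟩
  | 8, some true => ⟨881, 1000, 0, 81, 660, 732, 342, 420⟩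
  | 8, none => ⟨886, 1000, 0, 48, 660, 732, 342, 420⟩
  | _, _ => ⟨0, 0, 0, 0, 0, 0, 0, 0⟩

/-- The constants of the classes. -/
def cn8 (J : Vt) : Cn8 := if J.s then cnS J.a J.o else cnA J.a J.o

/-- The neighbour `2SA`. -/
def spV : Vt := ⟨2, true, some false⟩

theorem chk_all (J : Vt) (h : J.ok = true) (hs : J ≠ spV) : chkC J (cn8 J) = true := by
  have hm := mem_types h
  obtain ⟨a, s, o⟩ := J
  cases s
  · have hm' : (⟨a, false, o⟩ : Vt) ∈ types false := hm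
    simp only [types, List.flatMap_cons, List.flatMap_nil, List.cons_append, List.nil_append,
      List.append_nil, List.mem_cons, List.not_mem_nil, or_false, Vt.mk.injEq, true_and] at hm'
    rcases hm' with ⟨rfl, rfl⟩ | ⟨rfl, rfl⟩ | ⟨rfl, rfl⟩ | ⟨rfl, rfl⟩ | ⟨rfl, rfl⟩ | ⟨rfl, rfl⟩ | ⟨rfl, rfl⟩ | ⟨rfl, rfl⟩ | ⟨rfl, rfl⟩ | ⟨rfl, rfl⟩ | ⟨rfl, rfl⟩ | ⟨rfl, rfl⟩ | ⟨rfl, rfl⟩ | ⟨rfl, rfl⟩ | ⟨rfl, rfl⟩ | ⟨rfl, rfl⟩ | ⟨rfl, rfl⟩ | ⟨rfl, rfl⟩ | ⟨rfl, rfl⟩ | ⟨rfl, rfl⟩ | ⟨rfl, rfl⟩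
    · exact k2AA
    · exact k2AS
    · exact k2A0
    · exact k3AA
    · exact k3AS
    · exact k3A0
    · exact k4AA
    · exact k4AS
    · exact k4A0
    · exact k5AA
    · exact k5AS
    · exact k5A0
    · exact k6AA
    · exact k6AS
    · exact k6A0
    · exact k7AA
    · exact k7AS
    · exact k7A0
    · exact k8AA
    · exact k8AS
    · exact k8A0
  · have hm' : (⟨a, true, o⟩ : Vt) ∈ types true := hm
    simp only [types, List.flatMap_cons, List.flatMap_nil, List.cons_append, List.nil_append,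
      List.append_nil, List.mem_cons, List.not_mem_nil, or_false, Vt.mk.injEq, true_and] at hm'
    rcases hm' with ⟨rfl, rfl⟩ | ⟨rfl, rfl⟩ | ⟨rfl, rfl⟩ | ⟨rfl, rfl⟩ | ⟨rfl, rfl⟩ | ⟨rfl, rfl⟩ | ⟨rfl, rfl⟩ | ⟨rfl, rfl⟩ | ⟨rfl, rfl⟩ | ⟨rfl, rfl⟩ | ⟨rfl, rfl⟩ | ⟨rfl, rfl⟩ | ⟨rfl, rfl⟩ | ⟨rfl, rfl⟩ | ⟨rfl, rfl⟩ | ⟨rfl, rfl⟩ | ⟨rfl, rfl⟩ | ⟨rfl, rfl⟩ | ⟨rfl, rfl⟩ | ⟨rfl, rfl⟩ | ⟨rfl, rfl⟩
    · exact absurd rfl hs
    · exact absurd h (by decide)
    · exact absurd h (by decide)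
    · exact k3SA
    · exact k3SS
    · exact k3S0
    · exact k4SA
    · exact k4SS
    · exact k4S0
    · exact k5SA
    · exact k5SS
    · exact k5S0
    · exact k6SA
    · exact k6SS
    · exact k6S0
    · exact k7SA
    · exact k7SS
    · exact k7S0
    · exact k8SA
    · exact k8SS
    · exact k8S0

/-- The regions of the table are contained in the constants of the classes (except the neighbour
`2SA`). -/
def okT (T : Vt → Vt → E.B2.Rg) : Bool :=
  ((types false ++ types true).all fun J => !J.ok || (decide (J = spV) || sbT T J (cn8 J))) &&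
    sbR (T (meV true) spV) 591 660 451 577

theorem cls_of {T : Vt → Vt → E.B2.Rg} (hT : okT T = true) {J : Vt} (hJ : J.ok = true)
    (hs : J ≠ spV) : ∃ c : Cn8, chkC J c = true ∧ sbT T J c = true := by
  refine ⟨cn8 J, chk_all J hJ hs, ?_⟩
  unfold okT at hT
  rw [Bool.and_eq_true, List.all_eq_true] at hT
  have hm : J ∈ types false ++ types true := by
    have := mem_types hJ
    cases h : J.s
    · rw [h] at this
      exact List.mem_append_left _ this
    · rw [h] at this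
      exact List.mem_append_right _ this
  have := hT.1 J hm
  rw [hJ, decide_eq_false hs] at this
  simpa using this

end Pool.Agent.S5.Z3
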