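import Pool.Agent.S5.Z.Zlp

/-!
# Ends with three half twists: the pieces of the edge
-/

set_option autoImplicit false

namespace Pool.Agent.S5.Z3

open Pool.Agent.H63.VC3 Pool.Agent.S3 Complex Set Pool.Agent.S5.Num

/-- The edge variable is on the piece, with the sign of its imaginary part. -/
def BIn (h : ℝ) (pc : Pc) (up : Bool) (b : ℂ) (w : ℝ) : Prop :=
  match pc with
  | .F => w = 0 ∧ b.im = h ∧ 3 / 20 ≤ b.re ∧ b.re ≤ 1 / 2
  | .H => w = 0 ∧ b.im = h ∧ 0 ≤ b.re ∧ b.re ≤ 3 / 20
  | .G => w = 0 ∧ b.im = h ∧ -(1 / 4) ≤ b.re ∧ b.re ≤ 0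
  | .L => w = 0 ∧ b.re = -(1 / 4) ∧ if up then 0 ≤ b.im ∧ b.im ≤ h else h ≤ b.im ∧ b.im ≤ 0
  | .R => w = 0 ∧ b.re = 1 / 2 ∧ if up then 0 ≤ b.im ∧ b.im ≤ h else h ≤ b.im ∧ b.im ≤ 0
  | .T => w = 2 * Real.pi * (3 / 20) ∧ 0 ≤ b.re ∧ b.re ≤ 1 / 2 ∧
      if up then b.im = 3 / 20 ∧ 0 ≤ h else b.im = -(3 / 20) ∧ h ≤ 0
  | .t => w = 2 * Real.pi * (3 / 20) ∧ 0 ≤ b.re ∧ b.re ≤ 1 / 2 ∧
      if up then b.im = 3 / 20 ∧ h ≤ 0 else b.im = -(3 / 20) ∧ 0 ≤ h
  | .U => w = 2 * Real.pi * (3 / 20) ∧ -(1 / 4) ≤ b.re ∧ b.re ≤ 0 ∧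
      if up then b.im = 3 / 20 ∧ 0 ≤ h else b.im = -(3 / 20) ∧ h ≤ 0
  | .u => w = 2 * Real.pi * (3 / 20) ∧ -(1 / 4) ≤ b.re ∧ b.re ≤ 0 ∧
      if up then b.im = 3 / 20 ∧ h ≤ 0 else b.im = -(3 / 20) ∧ 0 ≤ h
  | .P => b.re = -(1 / 4) ∧ if up then w = 2 * Real.pi * b.im ∧ 0 ≤ b.im ∧ b.im ≤ 3 / 20 ∧ 0 ≤ h
      else w = -(2 * Real.pi * b.im) ∧ -(3 / 20) ≤ b.im ∧ b.im ≤ 0 ∧ h ≤ 0
  | .p => b.re = -(1 / 4) ∧ if up then w = 2 * Real.pi * b.im ∧ 0 ≤ b.im ∧ b.im ≤ 3 / 20 ∧ h ≤ 0
      else w = -(2 * Real.pi * b.im) ∧ -(3 / 20) ≤ b.im ∧ b.im ≤ 0 ∧ 0 ≤ h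
  | .Q => b.re = 1 / 2 ∧ if up then w = 2 * Real.pi * b.im ∧ 0 ≤ b.im ∧ b.im ≤ 3 / 20 ∧ 0 ≤ h
      else w = -(2 * Real.pi * b.im) ∧ -(3 / 20) ≤ b.im ∧ b.im ≤ 0 ∧ h ≤ 0
  | .q => b.re = 1 / 2 ∧ if up then w = 2 * Real.pi * b.im ∧ 0 ≤ b.im ∧ b.im ≤ 3 / 20 ∧ h ≤ 0
      else w = -(2 * Real.pi * b.im) ∧ -(3 / 20) ≤ b.im ∧ b.im ≤ 0 ∧ 0 ≤ h
  | .lo => True
  | .re _ => w = 0 ∧ b.im = 0 ∧ 1 / 4 ≤ b.re ∧ b.re ≤ 1 / 2
  | .rz _ => w = 0 ∧ b.im = 0 ∧ 7 / 20 ≤ b.re ∧ b.re ≤ 1 / 2

/-- The facts about a point of the edge. -/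
structure BFt (bs : ℂ) (pc : Pc) (fl F : Bool) (f ws wc : ℤ) (a1 b1 a2 b2 : ℕ) (b : ℂ) (w : ℝ) :
    Prop where
  c : BC F bs a1 b1 a2 b2 b
  fl : fl = true → b.im = bs.im
  w1 : |-(w / 2) * 1048576 - (ws * (25600 * b.im) + wc) / 655360000| ≤ 1 / 2
  ef : b - pc.eff b = (f : ℂ) * (b.im * I)

theorem psm {a b : ℕ} {x : ℝ} (h1 : (a : ℝ) ≤ x * 25600 + 102400) (h2 : x * 25600 + 102400 ≤ b) :
    Tb.Ps a b x := ⟨h1, h2⟩

theorem eff_n {pc : Pc} (h : pc.box = false) (h' : pc ≠ .lo) (b : ℂ) :
    b - pc.eff b = ((0 : ℤ) : ℂ) * (b.im * I) := by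
  unfold Pc.eff
  rw [h]
  simp [h']

theorem eff_b {pc : Pc} (h : pc.box = true) (b : ℂ) :
    b - pc.eff b = ((1 : ℤ) : ℂ) * (b.im * I) := by
  unfold Pc.eff
  rw [h]
  simp only [if_true, Int.cast_one, one_mul]
  apply Complex.ext <;> simp

theorem w_zero {w y : ℝ} (h : w = 0) :
    |-(w / 2) * 1048576 - (((0 : ℤ) : ℝ) * (25600 * y) + ((0 : ℤ) : ℝ)) / 655360000| ≤ 1 / 2 := by
  rw [h]
  norm_num

theorem w_top {w y : ℝ} (h : w = 2 * Real.pi * (3 / 20)) :
    |-(w / 2) * 1048576 - (((0 : ℤ) : ℝ) * (25600 * y) + ((-323832938496000 : ℤ) : ℝ)) / 655360000| ≤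
      1 / 2 := by
  have hp := abs_le.1 pi20
  rw [h, abs_le]
  push_cast
  constructor <;> linarith

theorem w_up {w y : ℝ} (h : w = 2 * Real.pi * y) (h0 : 0 ≤ y) (h1 : y ≤ 3 / 20) :
    |-(w / 2) * 1048576 - (((-84331494400 : ℤ) : ℝ) * (25600 * y) + ((0 : ℤ) : ℝ)) / 655360000| ≤
      1 / 2 := by
  have h2 := abs_le.1 (abs_mul_le2 pi20 (show |y| ≤ 3 / 20 from abs_le.2 ⟨by linarith, h1⟩))
  rw [h, abs_le]
  push_cast
  constructor <;> linarith [h2.1, h2.2]

theorem w_dn {w y : ℝ} (h : w = -(2 * Real.pi * y)) (h0 : -(3 / 20) ≤ y) (h1 : y ≤ 0) :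
    |-(w / 2) * 1048576 - (((84331494400 : ℤ) : ℝ) * (25600 * y) + ((0 : ℤ) : ℝ)) / 655360000| ≤
      1 / 2 := by
  have h2 := abs_le.1 (abs_mul_le2 pi20 (show |y| ≤ 3 / 20 from abs_le.2 ⟨h0, by linarith⟩))
  rw [h, abs_le]
  push_cast
  constructor <;> linarith [h2.1, h2.2]

theorem hcn_sound {d : Dt} {zs bs : ℂ} (hd : DOK d zs bs) {b x y : Bool} (h : hcn d b x y = true) :
    x = true ∨ (y = true ∧ if b then bs.im < 0 else 0 < bs.im) := by
  have e0 := hd.E0
  have e1 := hd.E1
  unfold hcn at h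
  cases b
  · rcases cond_cases h with ⟨-, h⟩ | ⟨h0, h⟩
    · exact Or.inl h
    · right
      have h0 : (102400 : ℝ) < d.E0 := by exact_mod_cast ble_ff h0
      refine ⟨h, ?_⟩
      simp only [Bool.false_eq_true, if_false]
      linarith
  · rcases cond_cases h with ⟨-, h⟩ | ⟨h0, h⟩
    · exact Or.inl h
    · right
      have h0 : (d.E1 : ℝ) < 102400 := by exact_mod_cast ble_ff h0
      refine ⟨h, ?_⟩
      simp only [if_true]
      linarith

/-- The result of the case distinction. -/
def Bps (bs : ℂ) (pc : Pc) (up : Bool)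
    (k : Bool → Bool → ℤ → ℤ → ℤ → ℕ → ℕ → ℕ → ℕ → Bool) (sk : Bool) : Prop :=
  (sk = true ∧ ∀ b w, ¬ BIn bs.im pc up b w) ∨ ∃ fl F f ws wc a1 b1 a2 b2,
    k fl F f ws wc a1 b1 a2 b2 = true ∧ (f = 0 ∨ f = 1) ∧ (fl = true → f = 0 ∧ ws = 0 ∧ wc = 0) ∧
    (F = true → pc = .F) ∧ ∀ b w, BIn bs.im pc up b w → BFt bs pc fl F f ws wc a1 b1 a2 b2 b w

theorem bps_sound {d : Dt} {zs bs : ℂ} (hd : DOK d zs bs) {pc : Pc} {up : Bool}
    {k : Bool → Bool → ℤ → ℤ → ℤ → ℕ → ℕ → ℕ → ℕ → Bool} {sk : Bool}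
    (h : bps d pc up k sk = true) : Bps bs pc up k sk := by
  have e0 := hd.E0
  have e1 := hd.E1
  have cE := abs_le.1 hd.cE
  have hv : ∀ {y : ℝ}, |y| ≤ 3 / 10 ↔ -(3 / 10) ≤ y ∧ y ≤ 3 / 10 := abs_le
  cases pc
  · -- F
    right
    refine ⟨_, _, _, _, _, _, _, _, _, h, Or.inl rfl, fun _ => ⟨rfl, rfl, rfl⟩, fun _ => rfl, ?_⟩
    rintro b w ⟨h0, h1, h2, h3⟩
    refine ⟨⟨psm (by push_cast; linarith) (by push_cast; linarith),
      psm (by rw [h1]; linarith) (by rw [h1]; linarith),
      abs_le.2 ⟨by linarith, by linarith⟩, by rw [h1]; exact hd.cE, fun _ => ⟨h2, h1⟩⟩, fun _ => h1,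
      w_zero h0, eff_n rfl (by simp) b⟩
  · -- H
    right
    refine ⟨_, _, _, _, _, _, _, _, _, h, Or.inl rfl, fun _ => ⟨rfl, rfl, rfl⟩, by simp, ?_⟩
    rintro b w ⟨h0, h1, h2, h3⟩
    refine ⟨⟨psm (by push_cast; linarith) (by push_cast; linarith),
      psm (by rw [h1]; linarith) (by rw [h1]; linarith),
      abs_le.2 ⟨by linarith, by linarith⟩, by rw [h1]; exact hd.cE, by simp⟩, fun _ => h1,
      w_zero h0, eff_n rfl (by simp) b⟩
  · -- G
    right
    refine ⟨_, _, _, _, _, _, _, _, _, h, Or.inl rfl, fun _ => ⟨rfl, rfl, rfl⟩, by simp, ?_⟩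
    rintro b w ⟨h0, h1, h2, h3⟩
    refine ⟨⟨psm (by push_cast; linarith) (by push_cast; linarith),
      psm (by rw [h1]; linarith) (by rw [h1]; linarith),
      abs_le.2 ⟨by linarith, by linarith⟩, by rw [h1]; exact hd.cE, by simp⟩, fun _ => h1,
      w_zero h0, eff_n rfl (by simp) b⟩
  · -- L
    rcases hcn_sound hd h with h | ⟨hs, h⟩
    · right
      refine ⟨_, _, _, _, _, _, _, _, _, h, Or.inl rfl, by simp, by simp, ?_⟩
      rintro b w ⟨h0, h1, h2⟩
      cases up
      · simp only [Bool.false_eq_true, if_false] at h2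
        exact ⟨⟨psm (by rw [h1]; norm_num) (by rw [h1]; norm_num),
          psm (by simp only [cond_false]; linarith [h2.1]) (by simp only [cond_false]; push_cast; linarith [h2.2]),
          by rw [h1]; norm_num [abs_le], abs_le.2 ⟨by linarith [h2.1], by linarith [h2.2]⟩, by simp⟩,
          by simp, w_zero h0, eff_n rfl (by simp) b⟩
      · simp only [if_true] at h2
        exact ⟨⟨psm (by rw [h1]; norm_num) (by rw [h1]; norm_num),
          psm (by simp only [cond_true]; push_cast; linarith [h2.1]) (by simp only [cond_true]; linarith [h2.2]),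
          by rw [h1]; norm_num [abs_le], abs_le.2 ⟨by linarith [h2.1], by linarith [h2.2]⟩, by simp⟩,
          by simp, w_zero h0, eff_n rfl (by simp) b⟩
    · left
      refine ⟨hs, ?_⟩
      rintro b w ⟨h0, h1, h2⟩
      cases up <;> simp only [Bool.false_eq_true, if_false, if_true] at h2 h <;> linarith [h2.1, h2.2]
  · -- R
    rcases hcn_sound hd h with h | ⟨hs, h⟩
    · right
      refine ⟨_, _, _, _, _, _, _, _, _, h, Or.inl rfl, by simp, by simp, ?_⟩
      rintro b w ⟨h0, h1, h2⟩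
      cases up
      · simp only [Bool.false_eq_true, if_false] at h2
        exact ⟨⟨psm (by rw [h1]; norm_num) (by rw [h1]; norm_num),
          psm (by simp only [cond_false]; linarith [h2.1]) (by simp only [cond_false]; push_cast; linarith [h2.2]),
          by rw [h1]; norm_num [abs_le], abs_le.2 ⟨by linarith [h2.1], by linarith [h2.2]⟩, by simp⟩,
          by simp, w_zero h0, eff_n rfl (by simp) b⟩
      · simp only [if_true] at h2
        exact ⟨⟨psm (by rw [h1]; norm_num) (by rw [h1]; norm_num),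
          psm (by simp only [cond_true]; push_cast; linarith [h2.1]) (by simp only [cond_true]; linarith [h2.2]),
          by rw [h1]; norm_num [abs_le], abs_le.2 ⟨by linarith [h2.1], by linarith [h2.2]⟩, by simp⟩,
          by simp, w_zero h0, eff_n rfl (by simp) b⟩
    · left
      refine ⟨hs, ?_⟩
      rintro b w ⟨h0, h1, h2⟩
      cases up <;> simp only [Bool.false_eq_true, if_false, if_true] at h2 h <;> linarith [h2.1, h2.2]
  · -- T
    rcases hcn_sound hd h with h | ⟨hs, h⟩
    · right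
      refine ⟨_, _, _, _, _, _, _, _, _, h, Or.inr rfl, by simp, by simp, ?_⟩
      rintro b w ⟨h0, h1, h1', h2⟩
      cases up
      · simp only [Bool.false_eq_true, if_false] at h2
        exact ⟨⟨psm (by push_cast; linarith) (by push_cast; linarith),
          psm (by simp only [cond_false]; rw [h2.1]; norm_num) (by simp only [cond_false]; rw [h2.1]; norm_num),
          abs_le.2 ⟨by linarith, by linarith⟩, by rw [h2.1]; norm_num [abs_le], by simp⟩,
          by simp, w_top h0, eff_b rfl b⟩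
      · simp only [if_true] at h2
        exact ⟨⟨psm (by push_cast; linarith) (by push_cast; linarith),
          psm (by simp only [cond_true]; rw [h2.1]; norm_num) (by simp only [cond_true]; rw [h2.1]; norm_num),
          abs_le.2 ⟨by linarith, by linarith⟩, by rw [h2.1]; norm_num [abs_le], by simp⟩,
          by simp, w_top h0, eff_b rfl b⟩
    · left
      refine ⟨hs, ?_⟩
      rintro b w ⟨h0, h1, h1', h2⟩
      cases up <;> simp only [Bool.false_eq_true, if_false, if_true, Bool.not_true, Bool.not_false] at h2 h <;>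
        linarith [h2.2]
  · -- t
    rcases hcn_sound hd h with h | ⟨hs, h⟩
    · right
      refine ⟨_, _, _, _, _, _, _, _, _, h, Or.inr rfl, by simp, by simp, ?_⟩
      rintro b w ⟨h0, h1, h1', h2⟩
      cases up
      · simp only [Bool.false_eq_true, if_false] at h2
        exact ⟨⟨psm (by push_cast; linarith) (by push_cast; linarith),
          psm (by simp only [cond_false]; rw [h2.1]; norm_num) (by simp only [cond_false]; rw [h2.1]; norm_num),
          abs_le.2 ⟨by linarith, by linarith⟩, by rw [h2.1]; norm_num [abs_le], by simp⟩,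
          by simp, w_top h0, eff_b rfl b⟩
      · simp only [if_true] at h2
        exact ⟨⟨psm (by push_cast; linarith) (by push_cast; linarith),
          psm (by simp only [cond_true]; rw [h2.1]; norm_num) (by simp only [cond_true]; rw [h2.1]; norm_num),
          abs_le.2 ⟨by linarith, by linarith⟩, by rw [h2.1]; norm_num [abs_le], by simp⟩,
          by simp, w_top h0, eff_b rfl b⟩
    · left
      refine ⟨hs, ?_⟩
      rintro b w ⟨h0, h1, h1', h2⟩
      cases up <;> simp only [Bool.false_eq_true, if_false, if_true, Bool.not_true, Bool.not_false] at h2 h <;>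
        linarith [h2.2]
  · -- U
    rcases hcn_sound hd h with h | ⟨hs, h⟩
    · right
      refine ⟨_, _, _, _, _, _, _, _, _, h, Or.inr rfl, by simp, by simp, ?_⟩
      rintro b w ⟨h0, h1, h1', h2⟩
      cases up
      · simp only [Bool.false_eq_true, if_false] at h2
        exact ⟨⟨psm (by push_cast; linarith) (by push_cast; linarith),
          psm (by simp only [cond_false]; rw [h2.1]; norm_num) (by simp only [cond_false]; rw [h2.1]; norm_num),
          abs_le.2 ⟨by linarith, by linarith⟩, by rw [h2.1]; norm_num [abs_le], by simp⟩,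
          by simp, w_top h0, eff_b rfl b⟩
      · simp only [if_true] at h2
        exact ⟨⟨psm (by push_cast; linarith) (by push_cast; linarith),
          psm (by simp only [cond_true]; rw [h2.1]; norm_num) (by simp only [cond_true]; rw [h2.1]; norm_num),
          abs_le.2 ⟨by linarith, by linarith⟩, by rw [h2.1]; norm_num [abs_le], by simp⟩,
          by simp, w_top h0, eff_b rfl b⟩
    · left
      refine ⟨hs, ?_⟩
      rintro b w ⟨h0, h1, h1', h2⟩
      cases up <;> simp only [Bool.false_eq_true, if_false, if_true, Bool.not_true, Bool.not_false] at h2 h <;>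
        linarith [h2.2]
  · -- u
    rcases hcn_sound hd h with h | ⟨hs, h⟩
    · right
      refine ⟨_, _, _, _, _, _, _, _, _, h, Or.inr rfl, by simp, by simp, ?_⟩
      rintro b w ⟨h0, h1, h1', h2⟩
      cases up
      · simp only [Bool.false_eq_true, if_false] at h2
        exact ⟨⟨psm (by push_cast; linarith) (by push_cast; linarith),
          psm (by simp only [cond_false]; rw [h2.1]; norm_num) (by simp only [cond_false]; rw [h2.1]; norm_num),
          abs_le.2 ⟨by linarith, by linarith⟩, by rw [h2.1]; norm_num [abs_le], by simp⟩,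
          by simp, w_top h0, eff_b rfl b⟩
      · simp only [if_true] at h2
        exact ⟨⟨psm (by push_cast; linarith) (by push_cast; linarith),
          psm (by simp only [cond_true]; rw [h2.1]; norm_num) (by simp only [cond_true]; rw [h2.1]; norm_num),
          abs_le.2 ⟨by linarith, by linarith⟩, by rw [h2.1]; norm_num [abs_le], by simp⟩,
          by simp, w_top h0, eff_b rfl b⟩
    · left
      refine ⟨hs, ?_⟩
      rintro b w ⟨h0, h1, h1', h2⟩
      cases up <;> simp only [Bool.false_eq_true, if_false, if_true, Bool.not_true, Bool.not_false] at h2 h <;>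
        linarith [h2.2]
  · -- P
    rcases hcn_sound hd h with h | ⟨hs, h⟩
    · right
      refine ⟨_, _, _, _, _, _, _, _, _, h, Or.inr rfl, by simp, by simp, ?_⟩
      rintro b w ⟨h1, h2⟩
      cases up
      · simp only [Bool.false_eq_true, if_false] at h2
        obtain ⟨h0, h2, h3, h4⟩ := h2
        exact ⟨⟨psm (by rw [h1]; norm_num) (by rw [h1]; norm_num),
          psm (by simp only [cond_false]; push_cast; linarith) (by simp only [cond_false]; push_cast; linarith),
          by rw [h1]; norm_num [abs_le], abs_le.2 ⟨by linarith, by linarith⟩, by simp⟩,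
          by simp, w_dn h0 h2 h3, eff_b rfl b⟩
      · simp only [if_true] at h2
        obtain ⟨h0, h2, h3, h4⟩ := h2
        exact ⟨⟨psm (by rw [h1]; norm_num) (by rw [h1]; norm_num),
          psm (by simp only [cond_true]; push_cast; linarith) (by simp only [cond_true]; push_cast; linarith),
          by rw [h1]; norm_num [abs_le], abs_le.2 ⟨by linarith, by linarith⟩, by simp⟩,
          by simp, w_up h0 h2 h3, eff_b rfl b⟩
    · left
      refine ⟨hs, ?_⟩
      rintro b w ⟨h1, h2⟩
      cases up <;> simp only [Bool.false_eq_true, if_false, if_true, Bool.not_true, Bool.not_false] at h2 h <;>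
        linarith [h2.2.2.2]
  · -- p
    rcases hcn_sound hd h with h | ⟨hs, h⟩
    · right
      refine ⟨_, _, _, _, _, _, _, _, _, h, Or.inr rfl, by simp, by simp, ?_⟩
      rintro b w ⟨h1, h2⟩
      cases up
      · simp only [Bool.false_eq_true, if_false] at h2
        obtain ⟨h0, h2, h3, h4⟩ := h2
        exact ⟨⟨psm (by rw [h1]; norm_num) (by rw [h1]; norm_num),
          psm (by simp only [cond_false]; push_cast; linarith) (by simp only [cond_false]; push_cast; linarith),
          by rw [h1]; norm_num [abs_le], abs_le.2 ⟨by linarith, by linarith⟩, by simp⟩,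
          by simp, w_dn h0 h2 h3, eff_b rfl b⟩
      · simp only [if_true] at h2
        obtain ⟨h0, h2, h3, h4⟩ := h2
        exact ⟨⟨psm (by rw [h1]; norm_num) (by rw [h1]; norm_num),
          psm (by simp only [cond_true]; push_cast; linarith) (by simp only [cond_true]; push_cast; linarith),
          by rw [h1]; norm_num [abs_le], abs_le.2 ⟨by linarith, by linarith⟩, by simp⟩,
          by simp, w_up h0 h2 h3, eff_b rfl b⟩
    · left
      refine ⟨hs, ?_⟩
      rintro b w ⟨h1, h2⟩
      cases up <;> simp only [Bool.false_eq_true, if_false, if_true, Bool.not_true, Bool.not_false] at h2 h <;>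
        linarith [h2.2.2.2]
  · -- Q
    rcases hcn_sound hd h with h | ⟨hs, h⟩
    · right
      refine ⟨_, _, _, _, _, _, _, _, _, h, Or.inr rfl, by simp, by simp, ?_⟩
      rintro b w ⟨h1, h2⟩
      cases up
      · simp only [Bool.false_eq_true, if_false] at h2
        obtain ⟨h0, h2, h3, h4⟩ := h2
        exact ⟨⟨psm (by rw [h1]; norm_num) (by rw [h1]; norm_num),
          psm (by simp only [cond_false]; push_cast; linarith) (by simp only [cond_false]; push_cast; linarith),
          by rw [h1]; norm_num [abs_le], abs_le.2 ⟨by linarith, by linarith⟩, by simp⟩,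
          by simp, w_dn h0 h2 h3, eff_b rfl b⟩
      · simp only [if_true] at h2
        obtain ⟨h0, h2, h3, h4⟩ := h2
        exact ⟨⟨psm (by rw [h1]; norm_num) (by rw [h1]; norm_num),
          psm (by simp only [cond_true]; push_cast; linarith) (by simp only [cond_true]; push_cast; linarith),
          by rw [h1]; norm_num [abs_le], abs_le.2 ⟨by linarith, by linarith⟩, by simp⟩,
          by simp, w_up h0 h2 h3, eff_b rfl b⟩
    · left
      refine ⟨hs, ?_⟩
      rintro b w ⟨h1, h2⟩
      cases up <;> simp only [Bool.false_eq_true, if_false, if_true, Bool.not_true, Bool.not_false] at h2 h <;>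
        linarith [h2.2.2.2]
  · -- q
    rcases hcn_sound hd h with h | ⟨hs, h⟩
    · right
      refine ⟨_, _, _, _, _, _, _, _, _, h, Or.inr rfl, by simp, by simp, ?_⟩
      rintro b w ⟨h1, h2⟩
      cases up
      · simp only [Bool.false_eq_true, if_false] at h2
        obtain ⟨h0, h2, h3, h4⟩ := h2
        exact ⟨⟨psm (by rw [h1]; norm_num) (by rw [h1]; norm_num),
          psm (by simp only [cond_false]; push_cast; linarith) (by simp only [cond_false]; push_cast; linarith),
          by rw [h1]; norm_num [abs_le], abs_le.2 ⟨by linarith, by linarith⟩, by simp⟩,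
          by simp, w_dn h0 h2 h3, eff_b rfl b⟩
      · simp only [if_true] at h2
        obtain ⟨h0, h2, h3, h4⟩ := h2
        exact ⟨⟨psm (by rw [h1]; norm_num) (by rw [h1]; norm_num),
          psm (by simp only [cond_true]; push_cast; linarith) (by simp only [cond_true]; push_cast; linarith),
          by rw [h1]; norm_num [abs_le], abs_le.2 ⟨by linarith, by linarith⟩, by simp⟩,
          by simp, w_up h0 h2 h3, eff_b rfl b⟩
    · left
      refine ⟨hs, ?_⟩
      rintro b w ⟨h1, h2⟩
      cases up <;> simp only [Bool.false_eq_true, if_false, if_true, Bool.not_true, Bool.not_false] at h2 h <;>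
        linarith [h2.2.2.2]
  · -- lo
    exact absurd h (by simp [bps])
  · -- re
    right
    refine ⟨_, _, _, _, _, _, _, _, _, h, Or.inl rfl, by simp, by simp, ?_⟩
    rintro b w ⟨h0, h1, h2, h3⟩
    exact ⟨⟨psm (by push_cast; linarith) (by push_cast; linarith),
      psm (by rw [h1]; norm_num) (by rw [h1]; norm_num),
      abs_le.2 ⟨by linarith, by linarith⟩, by rw [h1]; norm_num, by simp⟩, by simp,
      w_zero h0, eff_n rfl (by simp) b⟩
  · -- rz
    right
    refine ⟨_, _, _, _, _, _, _, _, _, h, Or.inl rfl, by simp, by simp, ?_⟩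
    rintro b w ⟨h0, h1, h2, h3⟩
    exact ⟨⟨psm (by push_cast; linarith) (by push_cast; linarith),
      psm (by rw [h1]; norm_num) (by rw [h1]; norm_num),
      abs_le.2 ⟨by linarith, by linarith⟩, by rw [h1]; norm_num, by simp⟩, by simp,
      w_zero h0, eff_n rfl (by simp) b⟩

end Pool.Agent.S5.Z3
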