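import Pool.Agent.S5.G.Shapes
import Pool.Agent.S5.E.B2.Base

/-!
# The chain `(3, 2, 2)`

The critical point of this chain is known: `x = 2 conj (cos z₂)` is a root of
`x⁶ - x⁵ - x⁴ + 2 x³ - x + 1`.
-/

set_option autoImplicit false

namespace Pool.Agent.S5.C322

open Complex Pool.Agent.S5.G Pool.Agent.S3.G
open Pool.Agent.S5.E.B2 (InR)
open scoped ComplexConjugate

/-- The approximate root. -/
noncomputable def x0 : ℂ := ((537 / 500 : ℝ) : ℂ) + ((1397 / 2500 : ℝ) : ℂ) * I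

theorem nrm_sq (a b : ℝ) : ‖(a : ℂ) + (b : ℂ) * I‖ ^ 2 = a ^ 2 + b ^ 2 := by
  rw [← normSq_eq_norm_sq, normSq_apply]
  simp
  ring

theorem nrm_le {a b C : ℝ} (hC : 0 ≤ C) (h : a ^ 2 + b ^ 2 ≤ C ^ 2) :
    ‖(a : ℂ) + (b : ℂ) * I‖ ≤ C := by
  rw [← nrm_sq] at h
  exact (abs_le_of_sq_le_sq' h hC).2

theorem x0_le : ‖x0‖ ≤ 12107 / 10000 := nrm_le (by norm_num) (by norm_num)

theorem x_le {x : ℂ} (hx : ‖x - x0‖ ≤ 3 / 50) : ‖x‖ ≤ 12707 / 10000 := by
  have h := norm_add_le (x - x0) x0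
  rw [sub_add_cancel] at h
  linarith only [h, hx, x0_le]

/-- One step of the scheme of Horner. -/
theorem hor {X x : ℂ} {a b r : ℝ} (e a' b' r' C δ : ℝ)
    (h : ‖X - ((a : ℂ) + (b : ℂ) * I)‖ ≤ r) (hx : ‖x - x0‖ ≤ 3 / 50) (C0 : 0 ≤ C)
    (hC : a ^ 2 + b ^ 2 ≤ C ^ 2) (d0 : 0 ≤ δ)
    (hd : (a * (537 / 500) - b * (1397 / 2500) + e - a') ^ 2 +
      (a * (1397 / 2500) + b * (537 / 500) - b') ^ 2 ≤ δ ^ 2)
    (hr : r * (12707 / 10000) + C * (3 / 50) + δ ≤ r') :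
    ‖X * x + e - ((a' : ℂ) + (b' : ℂ) * I)‖ ≤ r' := by
  have e1 : X * x + e - ((a' : ℂ) + (b' : ℂ) * I) = (X - ((a : ℂ) + (b : ℂ) * I)) * x +
      ((a : ℂ) + (b : ℂ) * I) * (x - x0) +
      (((a * (537 / 500) - b * (1397 / 2500) + e - a' : ℝ) : ℂ) +
        ((a * (1397 / 2500) + b * (537 / 500) - b' : ℝ) : ℂ) * I) := by
    unfold x0
    push_cast
    linear_combination ((b : ℂ) * (1397 / 2500)) * I_mul_I
  have h1 : ‖(X - ((a : ℂ) + (b : ℂ) * I)) * x‖ ≤ r * (12707 / 10000) := by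
    rw [norm_mul]
    exact mul_le_mul h (x_le hx) (norm_nonneg _) ((norm_nonneg _).trans h)
  have h2 : ‖((a : ℂ) + (b : ℂ) * I) * (x - x0)‖ ≤ C * (3 / 50) := by
    rw [norm_mul]
    exact mul_le_mul (nrm_le C0 hC) hx (norm_nonneg _) C0
  have h3 := nrm_le d0 hd
  rw [e1]
  refine (norm_add₃_le).trans ?_
  linarith

/-- Expansion of first order. -/
def Mo (x X : ℂ) (a b ε c d s : ℝ) : Prop :=
  ∃ D E : ℂ, X = ((a : ℂ) + (b : ℂ) * I) + (x - x0) * D + E ∧ ‖E‖ ≤ ε ∧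
    ‖D - ((c : ℂ) + (d : ℂ) * I)‖ ≤ s

/-- One step of the scheme of Horner with the derivative. -/
theorem mor {X x : ℂ} {a b ε c d s : ℝ} (e a' b' ε' c' d' s' δ C η : ℝ)
    (h : Mo x X a b ε c d s) (hx : ‖x - x0‖ ≤ 3 / 50) (C0 : 0 ≤ C)
    (hC : c ^ 2 + d ^ 2 ≤ C ^ 2) (d0 : 0 ≤ δ) (n0 : 0 ≤ η)
    (hd : (a * (537 / 500) - b * (1397 / 2500) + e - a') ^ 2 +
      (a * (1397 / 2500) + b * (537 / 500) - b') ^ 2 ≤ δ ^ 2)
    (hn : (c * (537 / 500) - d * (1397 / 2500) + a - c') ^ 2 +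
      (c * (1397 / 2500) + d * (537 / 500) + b - d') ^ 2 ≤ η ^ 2)
    (he : ε * (12707 / 10000) + δ ≤ ε')
    (hr : s * (12707 / 10000) + C * (3 / 50) + η ≤ s') :
    Mo x (X * x + e) a' b' ε' c' d' s' := by
  obtain ⟨D, E, h0, hE, hD⟩ := h
  refine ⟨((a : ℂ) + (b : ℂ) * I) + D * x, E * x +
      (((a * (537 / 500) - b * (1397 / 2500) + e - a' : ℝ) : ℂ) +
        ((a * (1397 / 2500) + b * (537 / 500) - b' : ℝ) : ℂ) * I), ?_, ?_, ?_⟩
  · rw [h0]
    unfold x0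
    push_cast
    linear_combination ((b : ℂ) * (1397 / 2500)) * I_mul_I
  · refine (norm_add_le _ _).trans ?_
    have h1 : ‖E * x‖ ≤ ε * (12707 / 10000) := by
      rw [norm_mul]
      exact mul_le_mul hE (x_le hx) (norm_nonneg _) ((norm_nonneg _).trans hE)
    linarith [nrm_le d0 hd]
  · have e1 : ((a : ℂ) + (b : ℂ) * I) + D * x - ((c' : ℂ) + (d' : ℂ) * I) =
        (D - ((c : ℂ) + (d : ℂ) * I)) * x + ((c : ℂ) + (d : ℂ) * I) * (x - x0) +
        (((c * (537 / 500) - d * (1397 / 2500) + a - c' : ℝ) : ℂ) +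
          ((c * (1397 / 2500) + d * (537 / 500) + b - d' : ℝ) : ℂ) * I) := by
      unfold x0
      push_cast
      linear_combination ((d : ℂ) * (1397 / 2500)) * I_mul_I
    have h1 : ‖(D - ((c : ℂ) + (d : ℂ) * I)) * x‖ ≤ s * (12707 / 10000) := by
      rw [norm_mul]
      exact mul_le_mul hD (x_le hx) (norm_nonneg _) ((norm_nonneg _).trans hD)
    have h2 : ‖((c : ℂ) + (d : ℂ) * I) * (x - x0)‖ ≤ C * (3 / 50) := by
      rw [norm_mul]
      exact mul_le_mul (nrm_le C0 hC) hx (norm_nonneg _) C0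
    have h3 := nrm_le n0 hn
    rw [e1]
    refine (norm_add₃_le).trans ?_
    linarith

/-- A complex number with the components `a`, `b` in units of `10 ^ (-6)`. -/
noncomputable def V (a b : ℤ) : ℂ := (((a : ℝ) / 1000000 : ℝ) : ℂ) + (((b : ℝ) / 1000000 : ℝ) : ℂ) * I

/-- The check of a step of the scheme of Horner. -/
def horC (a b r e a' b' r' C δ : ℤ) : Bool :=
  decide (0 ≤ C) && decide (a ^ 2 + b ^ 2 ≤ C ^ 2) && decide (0 ≤ δ) &&
    decide ((a * 1074000 - b * 558800 + (e * 1000000 - a') * 1000000) ^ 2 +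
      (a * 558800 + b * 1074000 - b' * 1000000) ^ 2 ≤ (δ * 1000000) ^ 2) &&
    decide (r * 12707 + C * 600 + δ * 10000 ≤ r' * 10000)

theorem horI {X x : ℂ} {a b r : ℤ} (e a' b' r' C δ : ℤ)
    (h : ‖X - V a b‖ ≤ (r : ℝ) / 1000000) (hx : ‖x - x0‖ ≤ 3 / 50)
    (hc : horC a b r e a' b' r' C δ = true) :
    ‖X * x + (e : ℂ) - V a' b'‖ ≤ (r' : ℝ) / 1000000 := by
  unfold horC at hc
  simp only [Bool.and_eq_true, decide_eq_true_eq] at hc
  obtain ⟨⟨⟨⟨h1, h2⟩, h3⟩, h4⟩, h5⟩ := hc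
  have g1 : (0 : ℝ) ≤ C := by exact_mod_cast h1
  have g2 : (a : ℝ) ^ 2 + (b : ℝ) ^ 2 ≤ (C : ℝ) ^ 2 := by exact_mod_cast h2
  have g3 : (0 : ℝ) ≤ δ := by exact_mod_cast h3
  have g4 : ((a : ℝ) * 1074000 - b * 558800 + (e * 1000000 - a') * 1000000) ^ 2 +
      ((a : ℝ) * 558800 + b * 1074000 - b' * 1000000) ^ 2 ≤ ((δ : ℝ) * 1000000) ^ 2 := by
    exact_mod_cast h4
  have g5 : (r : ℝ) * 12707 + C * 600 + δ * 10000 ≤ r' * 10000 := by exact_mod_cast h5
  clear h1 h2 h3 h4 h5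
  have h6 := hor (e := (e : ℝ)) (a' := (a' : ℝ) / 1000000) (b' := (b' : ℝ) / 1000000)
    (r' := (r' : ℝ) / 1000000) (C := (C : ℝ) / 1000000) (δ := (δ : ℝ) / 1000000) h hx
    (by linarith only [g1]) (by linarith only [g2]) (by linarith only [g3])
    (by linarith only [g4]) (by linarith only [g5])
  rw [ofReal_intCast] at h6
  exact h6

/-- Expansion of first order, with integers. -/
def MI (x X : ℂ) (a b ε c d s : ℤ) : Prop :=
  Mo x X ((a : ℝ) / 1000000) ((b : ℝ) / 1000000) ((ε : ℝ) / 1000000) ((c : ℝ) / 1000000)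
    ((d : ℝ) / 1000000) ((s : ℝ) / 1000000)

/-- The check of a step with the derivative. -/
def morC (a b ε c d s e a' b' ε' c' d' s' δ C η : ℤ) : Bool :=
  decide (0 ≤ C) && decide (c ^ 2 + d ^ 2 ≤ C ^ 2) && decide (0 ≤ δ) && decide (0 ≤ η) &&
    decide ((a * 1074000 - b * 558800 + (e * 1000000 - a') * 1000000) ^ 2 +
      (a * 558800 + b * 1074000 - b' * 1000000) ^ 2 ≤ (δ * 1000000) ^ 2) &&
    decide ((c * 1074000 - d * 558800 + (a - c') * 1000000) ^ 2 +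
      (c * 558800 + d * 1074000 + (b - d') * 1000000) ^ 2 ≤ (η * 1000000) ^ 2) &&
    decide (ε * 12707 + δ * 10000 ≤ ε' * 10000) &&
    decide (s * 12707 + C * 600 + η * 10000 ≤ s' * 10000)

theorem morI {X x : ℂ} {a b ε c d s : ℤ} (e a' b' ε' c' d' s' δ C η : ℤ)
    (h : MI x X a b ε c d s) (hx : ‖x - x0‖ ≤ 3 / 50)
    (hc : morC a b ε c d s e a' b' ε' c' d' s' δ C η = true) :
    MI x (X * x + (e : ℂ)) a' b' ε' c' d' s' := by
  unfold morC at hc
  simp only [Bool.and_eq_true, decide_eq_true_eq] at hc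
  obtain ⟨⟨⟨⟨⟨⟨⟨h1, h2⟩, h3⟩, h4⟩, h5⟩, h6⟩, h7⟩, h8⟩ := hc
  have g1 : (0 : ℝ) ≤ C := by exact_mod_cast h1
  have g2 : (c : ℝ) ^ 2 + (d : ℝ) ^ 2 ≤ (C : ℝ) ^ 2 := by exact_mod_cast h2
  have g3 : (0 : ℝ) ≤ δ := by exact_mod_cast h3
  have g4 : (0 : ℝ) ≤ η := by exact_mod_cast h4
  have g5 : ((a : ℝ) * 1074000 - b * 558800 + (e * 1000000 - a') * 1000000) ^ 2 +
      ((a : ℝ) * 558800 + b * 1074000 - b' * 1000000) ^ 2 ≤ ((δ : ℝ) * 1000000) ^ 2 := by
    exact_mod_cast h5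
  have g6 : ((c : ℝ) * 1074000 - d * 558800 + (a - c') * 1000000) ^ 2 +
      ((c : ℝ) * 558800 + d * 1074000 + (b - d') * 1000000) ^ 2 ≤ ((η : ℝ) * 1000000) ^ 2 := by
    exact_mod_cast h6
  have g7 : (ε : ℝ) * 12707 + δ * 10000 ≤ ε' * 10000 := by exact_mod_cast h7
  have g8 : (s : ℝ) * 12707 + C * 600 + η * 10000 ≤ s' * 10000 := by exact_mod_cast h8
  clear h1 h2 h3 h4 h5 h6 h7 h8
  have h9 := mor (e := (e : ℝ)) (a' := (a' : ℝ) / 1000000) (b' := (b' : ℝ) / 1000000)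
    (ε' := (ε' : ℝ) / 1000000) (c' := (c' : ℝ) / 1000000) (d' := (d' : ℝ) / 1000000)
    (s' := (s' : ℝ) / 1000000) (δ := (δ : ℝ) / 1000000) (C := (C : ℝ) / 1000000)
    (η := (η : ℝ) / 1000000) h hx
    (by linarith only [g1]) (by linarith only [g2]) (by linarith only [g3])
    (by linarith only [g4]) (by linarith only [g5]) (by linarith only [g6])
    (by linarith only [g7]) (by linarith only [g8])
  rw [ofReal_intCast] at h9
  exact h9

theorem MI_one (x : ℂ) : MI x 1 1000000 0 0 0 0 0 := ⟨0, 0, by norm_num, by norm_num, by norm_num⟩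

theorem V_le {a b C : ℤ} (hC : 0 ≤ C) (h : a ^ 2 + b ^ 2 ≤ C ^ 2) : ‖V a b‖ ≤ (C : ℝ) / 1000000 := by
  have hC' : (0 : ℝ) ≤ C := by exact_mod_cast hC
  have h' : (a : ℝ) ^ 2 + (b : ℝ) ^ 2 ≤ (C : ℝ) ^ 2 := by exact_mod_cast h
  exact nrm_le (by linarith only [hC']) (by linarith only [h'])

theorem V_ge {a b C : ℤ} (hC : 0 ≤ C) (h : C ^ 2 ≤ a ^ 2 + b ^ 2) : (C : ℝ) / 1000000 ≤ ‖V a b‖ := by
  have hC' : (0 : ℝ) ≤ C := by exact_mod_cast hC
  have h' : (C : ℝ) ^ 2 ≤ (a : ℝ) ^ 2 + (b : ℝ) ^ 2 := by exact_mod_cast h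
  refine abs_le_of_sq_le_sq' (a := (C : ℝ) / 1000000) ?_ (norm_nonneg _) |>.2
  unfold V
  rw [nrm_sq]
  linarith only [h']

/-- The second factor has no zero near `x0`. -/
theorem N_ne {x : ℂ} (hx : ‖x - x0‖ ≤ 3 / 50) :
    x ^ 8 + x ^ 7 - x ^ 6 - 2 * x ^ 5 + x ^ 4 + 2 * x ^ 3 - 2 * x - 1 ≠ 0 := by
  have hN0 : ‖(1 : ℂ) - V 1000000 0‖ ≤ ((0 : ℤ) : ℝ) / 1000000 := by
    unfold V
    norm_num
  have hN1 := horI 1 2074000 558800 60100 1000100 10 hN0 hx (by decide +kernel)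
  have hN2 := horI (-1) 915200 1759100 205300 2148000 20 hN1 hx (by decide +kernel)
  have hN3 := horI (-2) (-2000100) 2400700 380000 1983000 50 hN2 hx (by decide +kernel)
  have hN4 := horI 1 (-2489600) 1460700 670400 3124800 20 hN3 hx (by decide +kernel)
  have hN5 := horI 2 (-1490100) 177600 1025200 2886500 40 hN4 hx (by decide +kernel)
  have hN6 := horI 0 (-1699600) (-641900) 1392800 1500700 30 hN5 hx (by decide +kernel)
  have hN7 := horI (-2) (-3466700) (-1639100) 1878900 1816800 50 hN6 hx (by decide +kernel)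
  have hN8 := horI (-1) (-3807300) (-3697600) 2617700 3834700 20 hN7 hx (by decide +kernel)
  intro h0
  have e : ((((((((1 * x + ((1 : ℤ) : ℂ)) * x + ((-1 : ℤ) : ℂ)) * x + ((-2 : ℤ) : ℂ)) * x +
      ((1 : ℤ) : ℂ)) * x + ((2 : ℤ) : ℂ)) * x + ((0 : ℤ) : ℂ)) * x + ((-2 : ℤ) : ℂ)) * x +
      ((-1 : ℤ) : ℂ)) = 0 := by
    rw [← h0]
    push_cast
    ring
  rw [e, zero_sub, norm_neg] at hN8
  have h1 := (V_ge (a := -3807300) (b := -3697600) (C := 3000000) (by decide) (by decide)).trans hN8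
  norm_num at h1

/-- The first factor has one zero near `x0`. -/
theorem M_root {x : ℂ} (hx : ‖x - x0‖ ≤ 3 / 50)
    (h0 : x ^ 6 - x ^ 5 - x ^ 4 + 2 * x ^ 3 - x + 1 = 0) : ‖x - x0‖ ≤ 1 / 10000 := by
  have hM0 := MI_one x
  have hM1 := morI (-1) 74000 558800 1 1000000 0 100 1 100 10 hM0 hx (by decide +kernel)
  have hM2 := morI (-1) (-1232780) 641500 5 1148000 1117600 60200 3 1000100 10 hM1 hx (by decide +kernel)
  have hM3 := morI 2 317520 90 13 (-624300) 2483300 172700 6 1602200 50 hM2 hx (by decide +kernel)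
  have hM4 := morI 0 340970 177530 22 (-1740600) 2318300 373200 5 2560600 50 hM3 hx (by decide +kernel)
  have hM5 := morI (-1) (-733000) 381200 31 (-2823900) 1694700 648300 3 2899100 40 hM4 hx (by decide +kernel)
  have hM6 := morI 1 (-260) (-190) 44 (-4712900) 623300 1021500 4 3293400 40 hM5 hx (by decide +kernel)
  obtain ⟨D, E, h1, hE, hD⟩ := hM6
  have e : ((((((1 * x + ((-1 : ℤ) : ℂ)) * x + ((-1 : ℤ) : ℂ)) * x + ((2 : ℤ) : ℂ)) * x +
      ((0 : ℤ) : ℂ)) * x + ((-1 : ℤ) : ℂ)) * x + ((1 : ℤ) : ℂ)) = 0 := by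
    rw [← h0]
    push_cast
    ring
  change _ = V (-260) (-190) + (x - x0) * D + E at h1
  change ‖D - V (-4712900) 623300‖ ≤ _ at hD
  rw [e] at h1
  have h3 := V_ge (a := -4712900) (b := 623300) (C := 4753900) (by decide) (by decide)
  have h4 : (37323 / 10000 : ℝ) ≤ ‖D‖ := by
    have := norm_sub_norm_le (V (-4712900) 623300) D
    rw [norm_sub_rev] at hD
    push_cast at h3 hD
    linarith only [this, h3, hD]
  have h5 : (x - x0) * D = -V (-260) (-190) - E := by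
    linear_combination (-1 : ℂ) * h1
  have h6 : ‖x - x0‖ * ‖D‖ ≤ 323 / 1000000 + 11 / 250000 := by
    rw [← norm_mul, h5]
    refine (norm_sub_le _ _).trans ?_
    rw [norm_neg]
    have h7 := V_le (a := -260) (b := -190) (C := 323) (by decide) (by decide)
    push_cast at h7 hE
    linarith only [h7, hE]
  have h7 := mul_le_mul_of_nonneg_left h4 (norm_nonneg (x - x0))
  linarith only [h7, h6]

/-- The three equations give an equation in one unknown. -/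
theorem alg {A B κ : ℂ} (e3 : κ = I * A * (4 * A ^ 2 - 1)) (e2 : κ = -2 * I * B ^ 2)
    (e1 : 4 * κ ^ 4 - 4 * (A * B) * κ ^ 2 + (A + B) ^ 2 = 0) (hA : 0 < A.re) (hB : 0 < B.re)
    (hs : 3 * B.im ^ 2 ≤ B.re ^ 2) :
    A = -B + 4 * B ^ 3 - 16 * B ^ 5 ∧
      (((2 * B) ^ 6 - (2 * B) ^ 5 - (2 * B) ^ 4 + 2 * (2 * B) ^ 3 - 2 * B + 1) *
      ((2 * B) ^ 8 + (2 * B) ^ 7 - (2 * B) ^ 6 - 2 * (2 * B) ^ 5 + (2 * B) ^ 4 +
        2 * (2 * B) ^ 3 - 2 * (2 * B) - 1) = 0) := by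
  have hI := I_sq
  have k2 : κ ^ 2 = -4 * B ^ 4 := by
    rw [e2]
    linear_combination (4 * B ^ 4) * hI
  have k4 : κ ^ 4 = 16 * B ^ 8 := by
    have : κ ^ 4 = (κ ^ 2) ^ 2 := by ring
    rw [this, k2]
    ring
  rw [k2, k4] at e1
  have h1 : (A + B + 4 * B ^ 3) * (A + B + 16 * B ^ 5 - 4 * B ^ 3) = 0 := by
    linear_combination e1
  have hB0 : B ≠ 0 := by
    intro h
    rw [h] at hB
    simp at hB
  rcases mul_eq_zero.1 h1 with h | h
  · exfalso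
    have h2 := congrArg Complex.re h
    have h3 : (B ^ 3).re = B.re * (B.re ^ 2 - 3 * B.im ^ 2) := by
      rw [pow_succ, pow_two, mul_re, mul_re, mul_im]
      ring
    have h4 : (4 * B ^ 3 : ℂ).re = 4 * (B ^ 3).re := by
      rw [show (4 : ℂ) = ((4 : ℝ) : ℂ) by norm_num, re_ofReal_mul]
    rw [add_re, add_re, h4, h3, zero_re] at h2
    have h5 : 0 ≤ B.re * (B.re ^ 2 - 3 * B.im ^ 2) := mul_nonneg hB.le (by linarith)
    linarith
  · have hAB : A = -B + 4 * B ^ 3 - 16 * B ^ 5 := by linear_combination h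
    refine ⟨hAB, ?_⟩
    have h2 : A * (4 * A ^ 2 - 1) + 2 * B ^ 2 = 0 := by
      have h3 : I * (A * (4 * A ^ 2 - 1) + 2 * B ^ 2) = 0 := by
        linear_combination e2 - e3
      exact (mul_eq_zero.1 h3).resolve_left I_ne_zero
    rw [hAB] at h2
    apply (mul_eq_zero.1 (?_ : B * _ = 0)).resolve_left hB0
    linear_combination (-1 : ℂ) * h2

/-- The larger component is bounded. -/
theorem up {X Y a r c : ℝ} (hX : 0 ≤ X) (ha : 0 ≤ a) (h : a * X ≤ Y) (hi : X ^ 2 + Y ^ 2 ≤ r ^ 2)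
    (hc : 0 ≤ c) (hr : r ^ 2 ≤ (1 + a ^ 2) * c ^ 2) : X ≤ c := by
  have h1 : (a * X) ^ 2 ≤ Y ^ 2 := pow_le_pow_left₀ (mul_nonneg ha hX) h 2
  have h2 : (1 + a ^ 2) * X ^ 2 ≤ (1 + a ^ 2) * c ^ 2 := by linarith only [h1, hi, hr]
  exact (abs_le_of_sq_le_sq' (le_of_mul_le_mul_left h2 (by positivity)) hc).2

theorem dn {X Y a r c : ℝ} (hX : 0 ≤ X) (hY : 0 ≤ Y) (h : Y ≤ a * X) (hi : r ^ 2 ≤ X ^ 2 + Y ^ 2)
    (hr : (1 + a ^ 2) * c ^ 2 ≤ r ^ 2) : c ≤ X := by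
  have h1 : Y ^ 2 ≤ (a * X) ^ 2 := pow_le_pow_left₀ hY h 2
  have h2 : (1 + a ^ 2) * c ^ 2 ≤ (1 + a ^ 2) * X ^ 2 := by linarith only [h1, hi, hr]
  exact (abs_le_of_sq_le_sq' (le_of_mul_le_mul_left h2 (by positivity)) hX).2

/-- The position of the critical point. -/
theorem near {A B κ : ℂ} (e3 : κ = I * A * (4 * A ^ 2 - 1)) (e2 : κ = -2 * I * B ^ 2)
    (e1 : 4 * κ ^ 4 - 4 * (A * B) * κ ^ 2 + (A + B) ^ 2 = 0) (hA : 0 < A.re) (hB : 0 < B.re)
    (hκ : κ.im < 0) (x0' : 0 ≤ κ.re)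
    (lo : (711 / 1000) ^ 2 ≤ κ.re ^ 2 + κ.im ^ 2) (hi : κ.re ^ 2 + κ.im ^ 2 ≤ (768 / 1000) ^ 2)
    (a0 : 629 / 1000 * κ.re ≤ -κ.im) (a1 : -κ.im ≤ 734 / 1000 * κ.re) :
    ‖2 * B - x0‖ ≤ 1 / 10000 ∧ A = -B + 4 * B ^ 3 - 16 * B ^ 5 := by
  obtain ⟨X, hX⟩ : ∃ X, X = κ.re := ⟨_, rfl⟩
  obtain ⟨Y, hY⟩ : ∃ Y, Y = -κ.im := ⟨_, rfl⟩
  have hY' : κ.im = -Y := by linarith only [hY]
  rw [← hX, hY', neg_sq] at lo hi
  rw [← hX, ← hY] at a0 a1
  rw [← hX] at x0'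
  have hY0 : 0 < Y := by linarith only [hY, hκ]
  have hX0 : 0 < X := by
    rcases x0'.eq_or_lt with h | h
    · rw [← h] at a1
      linarith only [a1, hY0]
    · exact h
  -- the rectangle
  have c1 : X ≤ 6503 / 10000 := up hX0.le (by norm_num) a0 hi (by norm_num) (by norm_num)
  have c2 : 573 / 1000 ≤ X := dn hX0.le hY0.le a1 lo (by norm_num)
  have c3 : Y ≤ 4545 / 10000 := up (Y := X) (a := 1000 / 734) (r := 768 / 1000)
    hY0.le (by norm_num) (by linarith only [a1])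
    (by linarith only [hi]) (by norm_num) (by norm_num)
  have c4 : 3785 / 10000 ≤ Y := dn (a := 1000 / 629) (r := 711 / 1000) hY0.le
    hX0.le (by linarith only [a0])
    (by linarith only [lo]) (by norm_num)
  -- `B`
  have b1 : B.re ^ 2 - B.im ^ 2 = Y / 2 := by
    have := congrArg Complex.im e2
    rw [hY'] at this
    have e : (-2 * I * B ^ 2 : ℂ).im = -2 * (B.re ^ 2 - B.im ^ 2) := by
      rw [show (-2 * I * B ^ 2 : ℂ) = I * (((-2 : ℝ) : ℂ) * B ^ 2) by push_cast; ring, I_mul_im,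
        re_ofReal_mul, pow_two, mul_re]
      ring
    rw [e] at this
    linarith only [this]
  have b2 : 2 * B.re * B.im = X / 2 := by
    have := congrArg Complex.re e2
    rw [← hX] at this
    have e : (-2 * I * B ^ 2 : ℂ).re = 2 * (2 * B.re * B.im) := by
      rw [show (-2 * I * B ^ 2 : ℂ) = I * (((-2 : ℝ) : ℂ) * B ^ 2) by push_cast; ring, I_mul_re,
        im_ofReal_mul, pow_two, mul_im]
      ring
    rw [e] at this
    linarith only [this]
  have hBi : 0 < B.im := by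
    by_contra h
    have h := not_lt.1 h
    linarith only [mul_nonneg hB.le (neg_nonneg.2 h), b2, hX0]
  have hs : 3 * B.im ^ 2 ≤ B.re ^ 2 := by
    by_contra h
    have h := not_le.1 h
    have h1 : B.re < 17321 / 10000 * B.im := by
      by_contra h2
      have h2 := not_lt.1 h2
      have h3 := pow_le_pow_left₀ (mul_nonneg (by norm_num) hBi.le) h2 2
      have h4 := pow_pos hBi 2
      linarith only [h3, h, h4]
    have h2 : 629 / 1000 * (2 * B.re * B.im) ≤ B.re ^ 2 - B.im ^ 2 := by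
      rw [b1, b2]
      linarith only [a0]
    have h3 := mul_lt_mul_of_pos_right h1 hB
    have h4 := mul_lt_mul_of_pos_right h1 hBi
    have h5 := mul_pos hBi hBi
    linarith only [h2, h3, h4, h5]
  obtain ⟨hAB, h2⟩ := alg e3 e2 e1 hA hB hs
  -- localisation
  have n1 : ‖(2 * B - x0) * (2 * B + x0)‖ ≤ 1311 / 10000 := by
    have e : (2 * B - x0) * (2 * B + x0) = ((2 * Y - 84121856 / 100000000 : ℝ) : ℂ) +
        ((2 * X - 12003024 / 10000000 : ℝ) : ℂ) * I := by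
      have e4 : 4 * B ^ 2 = ((2 * Y : ℝ) : ℂ) + ((2 * X : ℝ) : ℂ) * I := by
        apply Complex.ext
        · rw [show (4 * B ^ 2 : ℂ) = ((4 : ℝ) : ℂ) * B ^ 2 by norm_num, re_ofReal_mul, pow_two,
            mul_re]
          simp
          linarith only [b1]
        · rw [show (4 * B ^ 2 : ℂ) = ((4 : ℝ) : ℂ) * B ^ 2 by norm_num, im_ofReal_mul, pow_two,
            mul_im]
          simp
          linarith only [b2]
      unfold x0
      push_cast at e4 ⊢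
      linear_combination e4 - (1397 / 2500) ^ 2 * I_sq
    rw [e]
    apply nrm_le (by norm_num)
    have q1 : (2 * Y - 84121856 / 100000000) ^ 2 ≤ (843 / 10000) ^ 2 := by
      apply sq_le_sq' <;> linarith only [c1, c2, c3, c4]
    have q2 : (2 * X - 12003024 / 10000000) ^ 2 ≤ (1004 / 10000) ^ 2 := by
      apply sq_le_sq' <;> linarith only [c1, c2, c3, c4]
    linarith only [q1, q2]
  rw [norm_mul] at n1
  have x0r : x0.re = 537 / 500 := by
    unfold x0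
    simp
  have x0i : x0.im = 1397 / 2500 := by
    unfold x0
    simp
  have n2 : 121 / 100 ≤ ‖2 * B + x0‖ := by
    refine abs_le_of_sq_le_sq' (a := (121 / 100 : ℝ)) ?_ (norm_nonneg _) |>.2
    rw [← normSq_eq_norm_sq, normSq_apply, add_re, add_im, x0r, x0i,
      show (2 * B : ℂ) = ((2 : ℝ) : ℂ) * B by norm_num, re_ofReal_mul, im_ofReal_mul]
    linarith only [b1, c4, hB, hBi, sq_nonneg B.im]
  have n3 : ‖2 * B - x0‖ ≤ 1084 / 10000 := by
    have := mul_le_mul_of_nonneg_left n2 (norm_nonneg (2 * B - x0))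
    linarith only [this, n1]
  have n4 : 23115 / 10000 ≤ ‖2 * B + x0‖ := by
    have h5 : 242 / 100 ≤ ‖2 * x0‖ := by
      refine abs_le_of_sq_le_sq' (a := (242 / 100 : ℝ)) ?_ (norm_nonneg _) |>.2
      rw [← normSq_eq_norm_sq, normSq_apply, show (2 * x0 : ℂ) = ((2 : ℝ) : ℂ) * x0 by norm_num,
        re_ofReal_mul, im_ofReal_mul, x0r, x0i]
      norm_num
    have h6 : (2 * x0 : ℂ) = (2 * B + x0) - (2 * B - x0) := by ring
    have h7 := norm_sub_le (2 * B + x0) (2 * B - x0)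
    rw [← h6] at h7
    linarith only [h5, h7, n3]
  have n5 : ‖2 * B - x0‖ ≤ 3 / 50 := by
    have := mul_le_mul_of_nonneg_left n4 (norm_nonneg (2 * B - x0))
    linarith only [this, n1]
  exact ⟨M_root n5 ((mul_eq_zero.1 h2).resolve_right (N_ne n5)), hAB⟩

/-- The other end of the chain. -/
theorem pA {A B : ℂ} (h : A = -B + 4 * B ^ 3 - 16 * B ^ 5) (hB : ‖2 * B - x0‖ ≤ 1 / 10000) :
    ‖2 * A + (((-(107453 / 100000)) : ℝ) : ℂ) + (((55883 / 100000) : ℝ) : ℂ) * I‖ ≤ (97 / 100000) := by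
  obtain ⟨x, hxx⟩ : ∃ x, x = 2 * B := ⟨_, rfl⟩
  rw [← hxx] at hB
  have hx : ‖x - x0‖ ≤ 3 / 50 := hB.trans (by norm_num)
  have hM0 := MI_one x
  have hM1 := morI 0 1074000 558800 1 1000000 0 100 1 100 10 hM0 hx (by decide +kernel)
  have hM2 := morI (-1) (-158780) 1200300 5 2148000 1117600 60200 3 1000100 10 hM1 hx (by decide +kernel)
  have hM3 := morI 0 (-841260) 1200400 12 1523700 3600900 221900 5 2421400 50 hM2 hx (by decide +kernel)
  have hM4 := morI 1 (-574300) 819130 21 (-1217000) 5919200 516600 5 3910100 20 hM3 hx (by decide +kernel)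
  have hM5 := morI 0 (-1074530) 558830 31 (-5189000) 6496300 1019100 4 6043100 20 hM4 hx (by decide +kernel)
  obtain ⟨D, E, h1, hE, hD⟩ := hM5
  have e : (((((1 * x + ((0 : ℤ) : ℂ)) * x + ((-1 : ℤ) : ℂ)) * x + ((0 : ℤ) : ℂ)) * x +
      ((1 : ℤ) : ℂ)) * x + ((0 : ℤ) : ℂ)) = -2 * A := by
    rw [h, hxx]
    push_cast
    ring
  change _ = V (-1074530) 558830 + (x - x0) * D + E at h1
  change ‖D - V (-5189000) 6496300‖ ≤ _ at hD
  rw [e] at h1
  have e2 : 2 * A + (((-(107453 / 100000)) : ℝ) : ℂ) + (((55883 / 100000) : ℝ) : ℂ) * I =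
      -((x - x0) * D) - E := by
    have e3 : V (-1074530) 558830 = (((-(107453 / 100000)) : ℝ) : ℂ) +
        (((55883 / 100000) : ℝ) : ℂ) * I := by
      unfold V
      norm_num
    rw [e3] at h1
    linear_combination (-1 : ℂ) * h1
  have h4 : ‖D‖ ≤ (18667 / 2000) := by
    have h5 := norm_add_le (D - V (-5189000) 6496300) (V (-5189000) 6496300)
    rw [sub_add_cancel] at h5
    have h6 := V_le (a := -5189000) (b := 6496300) (C := 8314400) (by decide) (by decide)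
    push_cast at h6 hD
    linarith only [h5, h6, hD]
  rw [e2]
  refine (norm_sub_le _ _).trans ?_
  rw [norm_neg, norm_mul]
  have h6 : ‖x - x0‖ * ‖D‖ ≤ 1 / 10000 * (18667 / 2000) :=
    mul_le_mul hB h4 (norm_nonneg _) (by norm_num)
  push_cast at hE
  linarith only [h6, hE]

/-- All three cosines. -/
structure Pos (A B κ : ℂ) : Prop where
  k0 : 5999 / 10000 ≤ κ.re
  k1 : κ.re ≤ 6004 / 10000
  k2 : 4204 / 10000 ≤ -κ.im
  k3 : -κ.im ≤ 4208 / 10000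
  b0 : 5369 / 10000 ≤ B.re
  b1 : B.re ≤ 5371 / 10000
  b2 : 2793 / 10000 ≤ B.im
  b3 : B.im ≤ 2795 / 10000
  a0 : 536 / 1000 ≤ A.re
  a1 : A.re ≤ 538 / 1000
  a2 : 2785 / 10000 ≤ -A.im
  a3 : -A.im ≤ 2803 / 10000

theorem pos {A B κ : ℂ} (e3 : κ = I * A * (4 * A ^ 2 - 1)) (e2 : κ = -2 * I * B ^ 2)
    (e1 : 4 * κ ^ 4 - 4 * (A * B) * κ ^ 2 + (A + B) ^ 2 = 0) (hA : 0 < A.re) (hB : 0 < B.re)
    (hκ : κ.im < 0) (x0' : 0 ≤ κ.re)
    (lo : (711 / 1000) ^ 2 ≤ κ.re ^ 2 + κ.im ^ 2) (hi : κ.re ^ 2 + κ.im ^ 2 ≤ (768 / 1000) ^ 2)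
    (a0 : 629 / 1000 * κ.re ≤ -κ.im) (a1 : -κ.im ≤ 734 / 1000 * κ.re) : Pos A B κ := by
  obtain ⟨h, hAB⟩ := near e3 e2 e1 hA hB hκ x0' lo hi a0 a1
  have hP := pA hAB h
  have x0r : x0.re = 537 / 500 := by
    unfold x0
    simp
  have x0i : x0.im = 1397 / 2500 := by
    unfold x0
    simp
  have r1 := abs_le.1 ((abs_re_le_norm _).trans h)
  have r2 := abs_le.1 ((abs_im_le_norm _).trans h)
  rw [sub_re, x0r, show (2 * B : ℂ) = ((2 : ℝ) : ℂ) * B by norm_num, re_ofReal_mul] at r1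
  rw [sub_im, x0i, show (2 * B : ℂ) = ((2 : ℝ) : ℂ) * B by norm_num, im_ofReal_mul] at r2
  have r3 := abs_le.1 ((abs_re_le_norm _).trans hP)
  have r4 := abs_le.1 ((abs_im_le_norm _).trans hP)
  have e5 : ∀ u v : ℝ, (2 * A + (u : ℂ) + (v : ℂ) * I).re = 2 * A.re + u := by
    intro u v
    simp
  have e6 : ∀ u v : ℝ, (2 * A + (u : ℂ) + (v : ℂ) * I).im = 2 * A.im + v := by
    intro u v
    simp
  rw [e5] at r3
  rw [e6] at r4
  have b1 : B.re ^ 2 - B.im ^ 2 = -κ.im / 2 := by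
    have := congrArg Complex.im e2
    have e : (-2 * I * B ^ 2 : ℂ).im = -2 * (B.re ^ 2 - B.im ^ 2) := by
      rw [show (-2 * I * B ^ 2 : ℂ) = I * (((-2 : ℝ) : ℂ) * B ^ 2) by push_cast; ring, I_mul_im,
        re_ofReal_mul, pow_two, mul_re]
      ring
    rw [e] at this
    linarith only [this]
  have b2 : 2 * B.re * B.im = κ.re / 2 := by
    have := congrArg Complex.re e2
    have e : (-2 * I * B ^ 2 : ℂ).re = 2 * (2 * B.re * B.im) := by
      rw [show (-2 * I * B ^ 2 : ℂ) = I * (((-2 : ℝ) : ℂ) * B ^ 2) by push_cast; ring, I_mul_re,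
        im_ofReal_mul, pow_two, mul_im]
      ring
    rw [e] at this
    linarith only [this]
  have p0 : 53695 / 100000 ≤ B.re := by linarith only [r1.1]
  have p1 : B.re ≤ 53705 / 100000 := by linarith only [r1.2]
  have p2 : 27935 / 100000 ≤ B.im := by linarith only [r2.1]
  have p3 : B.im ≤ 27945 / 100000 := by linarith only [r2.2]
  have w1 : (53695 / 100000 : ℝ) * (27935 / 100000) ≤ B.re * B.im :=
    mul_le_mul p0 p2 (by norm_num) (by linarith only [p0])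
  have w2 : B.re * B.im ≤ (53705 / 100000 : ℝ) * (27945 / 100000) :=
    mul_le_mul p1 p3 (by linarith only [p2]) (by norm_num)
  have w3 : (53695 / 100000 : ℝ) ^ 2 ≤ B.re ^ 2 := pow_le_pow_left₀ (by norm_num) p0 2
  have w4 : B.re ^ 2 ≤ (53705 / 100000 : ℝ) ^ 2 := pow_le_pow_left₀ (by linarith only [p0]) p1 2
  have w5 : (27935 / 100000 : ℝ) ^ 2 ≤ B.im ^ 2 := pow_le_pow_left₀ (by norm_num) p2 2
  have w6 : B.im ^ 2 ≤ (27945 / 100000 : ℝ) ^ 2 := pow_le_pow_left₀ (by linarith only [p2]) p3 2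
  exact ⟨by linarith only [b2, w1], by linarith only [b2, w2], by linarith only [b1, w3, w6],
    by linarith only [b1, w4, w5], by linarith only [p0], by linarith only [p1],
    by linarith only [p2], by linarith only [p3], by linarith only [r3.1], by linarith only [r3.2],
    by linarith only [r4.2], by linarith only [r4.1]⟩

section crt

variable {a : ℕ → ℕ} {S : ℕ → Bool} {z ql qr : ℕ → ℂ}

theorem cne {w : ℂ} (h : 0 < w.re ∧ w.re < Real.pi / 2) : sin w ≠ 0 ∧ cos w ≠ 0 :=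
  ⟨sin_ne h, cos_ne h⟩

/-- The end with three half twists. -/
theorem r3 (h : CrtM 2 a S z ql qr) (a0 : a 0 = 3) (s0 : S 0 = true) :
    cos (z 1) = I * cos (z 0) * (4 * cos (z 0) ^ 2 - 1) := by
  have heq := h.eq 0 (by norm_num)
  rw [a0, h.l0, zero_add] at heq
  have hz : 3 * z 0 = Real.pi + I * qr 0 := by
    push_cast at heq
    exact heq
  have hs := h.sr 0 (by norm_num)
  rw [s0, kp_true, zero_add] at hs
  obtain ⟨n1, n2⟩ := cne (h.zre 0 (by norm_num))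
  have e1 : sinh (qr 0) = I * sin (3 * z 0) := by
    rw [hz]
    have e2 : sin (Real.pi + I * qr 0) = -sin (I * qr 0) := by
      rw [add_comm, sin_add_pi]
    rw [e2, mul_comm I (qr 0), sin_mul_I]
    linear_combination (sinh (qr 0)) * I_mul_I
  rw [e1, tan_eq_sin_div_cos, sin_three_mul] at hs
  have e5 := sin_sq_add_cos_sq (z 0)
  field_simp at hs
  linear_combination (-1) * hs - 4 * I * cos (z 0) * e5

/-- The end with two half twists. -/
theorem r2 (h : CrtM 2 a S z ql qr) (a2 : a 2 = 2) (s1 : S 1 = false) :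
    cos (z 1) = -2 * I * (conj (cos (z 2))) ^ 2 := by
  have heq := h.eq 2 (by norm_num)
  rw [a2, h.rR, add_zero] at heq
  have hz : 2 * z 2 = Real.pi + I * ql 2 := by
    push_cast at heq
    exact heq
  have hs := h.sl 1 (by norm_num)
  rw [s1, kp_false] at hs
  norm_num at hs
  obtain ⟨n1, n2⟩ := cne (h.zre 2 (by norm_num))
  have e1 : sinh (ql 2) = I * sin (2 * z 2) := by
    rw [hz]
    have e2 : sin (Real.pi + I * ql 2) = -sin (I * ql 2) := by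
      rw [add_comm, sin_add_pi]
    rw [e2, mul_comm I (ql 2), sin_mul_I]
    linear_combination (sinh (ql 2)) * I_mul_I
  rw [e1, tan_eq_sin_div_cos, sin_two_mul] at hs
  field_simp at hs
  have e6 : conj (cos (z 1)) = 2 * I * cos (z 2) ^ 2 := by
    linear_combination (-1) * hs
  have e7 := congrArg (starRingEnd ℂ) e6
  have c2 : (starRingEnd ℂ) (2 : ℂ) = 2 := map_ofNat _ 2
  rw [conj_conj, map_mul, map_mul, map_pow, conj_I, c2] at e7
  linear_combination e7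

/-- The middle. -/
theorem r1 (h : CrtM 2 a S z ql qr) (a1 : a 1 = 2) (s0 : S 0 = true) (s1 : S 1 = false) :
    4 * cos (z 1) ^ 4 - 4 * (cos (z 0) * conj (cos (z 2))) * cos (z 1) ^ 2 +
      (cos (z 0) + conj (cos (z 2))) ^ 2 = 0 := by
  have heq := h.eq 1 (by norm_num)
  rw [a1] at heq
  have hz : 2 * z 1 = Real.pi + I * (ql 1 + qr 1) := by
    push_cast at heq
    exact heq
  have hl := h.sl 0 (by norm_num)
  have hr := h.sr 1 (by norm_num)
  rw [s0, kp_true, zero_add] at hl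
  rw [s1, kp_false] at hr
  norm_num at hr
  obtain ⟨n1, n2⟩ := cne (h.zre 1 (by norm_num))
  generalize cos (z 0) = A at hl ⊢
  generalize conj (cos (z 2)) = B at hr ⊢
  have c1 : cosh (ql 1 + qr 1) = -cos (2 * z 1) := by
    rw [hz, add_comm (Real.pi : ℂ), cos_add_pi, neg_neg, mul_comm, cos_mul_I]
  rw [cosh_add, cos_two_mul] at c1
  have s1' := cosh_sq_sub_sinh_sq (ql 1)
  have s2' := cosh_sq_sub_sinh_sq (qr 1)
  rw [hl] at s1' c1
  rw [hr] at s2' c1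
  have e5 := sin_sq_add_cos_sq (z 1)
  rw [tan_eq_sin_div_cos] at s1' s2' c1
  generalize cosh (ql 1) = C1 at s1' c1
  generalize cosh (qr 1) = C2 at s2' c1
  obtain ⟨T, hT⟩ : ∃ T, T = sin (z 1) / cos (z 1) := ⟨_, rfl⟩
  have hT' : T * cos (z 1) = sin (z 1) := by
    rw [hT, div_mul_cancel₀ _ n2]
  rw [← hT] at s1' s2' c1
  generalize cos (z 1) = k at *
  generalize sin (z 1) = s at *
  have q1 : C1 ^ 2 = 1 + (A * T) ^ 2 := by linear_combination s1'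
  have q2 : C2 ^ 2 = 1 + (B * T) ^ 2 := by linear_combination s2'
  have q3 : C1 * C2 = -(2 * k ^ 2 - 1) - A * B * T ^ 2 := by linear_combination c1
  have q4 : (1 + (A * T) ^ 2) * (1 + (B * T) ^ 2) =
      (-(2 * k ^ 2 - 1) - A * B * T ^ 2) ^ 2 := by
    rw [← q1, ← q2, ← q3]
    ring
  have q7 : s ^ 2 = k ^ 2 * T ^ 2 := by
    rw [← hT']
    ring
  have q5 : s ^ 2 * (4 * k ^ 4 - 4 * (A * B) * k ^ 2 + (A + B) ^ 2) = 0 := by
    linear_combination k ^ 2 * q4 + 4 * k ^ 4 * e5 + ((A + B) ^ 2 - 4 * A * B * k ^ 2) * q7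
  exact (mul_eq_zero.1 q5).resolve_left (pow_ne_zero _ n1)

end crt

/-- **The critical point of the chain `(3, 2, 2)`.** -/
theorem c322M {a : ℕ → ℕ} {S : ℕ → Bool} {z ql qr : ℕ → ℂ} (h : CrtM 2 a S z ql qr)
    (a0 : a 0 = 3) (a1 : a 1 = 2) (a2 : a 2 = 2) (s0 : S 0 = true) (s1 : S 1 = false) {m : ℕ}
    (h1 : InR ⟨711, 768, 629, 734, m⟩ (cos (z 1)).re (-(cos (z 1)).im)) :
    Pos (cos (z 0)) (conj (cos (z 2))) (cos (z 1)) := by
  obtain ⟨x0', y0, lo, hi, b0, b1, -⟩ := h1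
  obtain ⟨c1, c2, -⟩ := h.cosz 1 (by norm_num)
  obtain ⟨c3, -, -⟩ := h.cosz 0 (by norm_num)
  obtain ⟨c5, -, -⟩ := h.cosz 2 (by norm_num)
  have n1 : (((711 : ℕ) : ℝ) / 1000) = 711 / 1000 := by norm_num
  have n2 : (((768 : ℕ) : ℝ) / 1000) = 768 / 1000 := by norm_num
  have n3 : (((629 : ℕ) : ℝ) / 1000) = 629 / 1000 := by norm_num
  have n4 : (((734 : ℕ) : ℝ) / 1000) = 734 / 1000 := by norm_num
  rw [n1] at lo
  rw [n2] at hi
  rw [n3] at b0
  rw [n4] at b1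
  exact pos (r3 h a0 s0) (r2 h a2 s1) (r1 h a1 s0 s1) c3 (by rw [conj_re]; exact c5) c2 x0'
    (by linarith) (by linarith) b0 b1

/-- A region around a small rectangle. -/
theorem inr_of {k0 k1 t0 t1 : ℕ} {x y : ℝ} (a b c d : ℝ) (ha : 0 ≤ a) (hc : 0 ≤ c)
    (h1 : a ≤ x) (h2 : x ≤ b) (h3 : c ≤ y) (h4 : y ≤ d)
    (q1 : ((k0 : ℝ) / 1000) ^ 2 ≤ a ^ 2 + c ^ 2) (q2 : b ^ 2 + d ^ 2 ≤ ((k1 : ℝ) / 1000) ^ 2)
    (q3 : (t0 : ℝ) / 1000 * b ≤ c) (q4 : d ≤ (t1 : ℝ) / 1000 * a) :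
    InR ⟨k0, k1, t0, t1, 0⟩ x y := by
  have hx := ha.trans h1
  have hy := hc.trans h3
  have w1 : a ^ 2 ≤ x ^ 2 := pow_le_pow_left₀ ha h1 2
  have w2 : x ^ 2 ≤ b ^ 2 := pow_le_pow_left₀ hx h2 2
  have w3 : c ^ 2 ≤ y ^ 2 := pow_le_pow_left₀ hc h3 2
  have w4 : y ^ 2 ≤ d ^ 2 := pow_le_pow_left₀ hy h4 2
  refine ⟨hx, hy, ?_, ?_, ?_, ?_, ?_⟩
  · linarith only [q1, w1, w3]
  · linarith only [q2, w2, w4]
  · have : (t0 : ℝ) / 1000 * x ≤ (t0 : ℝ) / 1000 * b := mul_le_mul_of_nonneg_left h2 (by positivity)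
    linarith only [this, q3, h3]
  · have : (t1 : ℝ) / 1000 * a ≤ (t1 : ℝ) / 1000 * x := mul_le_mul_of_nonneg_left h1 (by positivity)
    linarith only [this, q4, h4]
  · rw [Nat.cast_zero, zero_div]
    exact mul_nonneg hx hy

/-- The regions of the three vertices. -/
theorem Pos.inr {A B κ : ℂ} (h : Pos A B κ) : InR ⟨732, 734, 700, 702, 0⟩ κ.re (-κ.im) ∧
    InR ⟨604, 607, 517, 523, 0⟩ A.re (-A.im) ∧ InR ⟨605, 606, 520, 521, 0⟩ B.re B.im := by
  obtain ⟨k0, k1, k2, k3, b0, b1, b2, b3, a0, a1, a2, a3⟩ := h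
  exact ⟨inr_of _ _ _ _ (by norm_num) (by norm_num) k0 k1 k2 k3 (by norm_num) (by norm_num)
    (by norm_num) (by norm_num), inr_of _ _ _ _ (by norm_num) (by norm_num) a0 a1 a2 a3
    (by norm_num) (by norm_num) (by norm_num) (by norm_num), inr_of _ _ _ _ (by norm_num)
    (by norm_num) b0 b1 b2 b3 (by norm_num) (by norm_num) (by norm_num) (by norm_num)⟩

/-- The region which is used for the end with three half twists. -/
theorem Pos.inr' {A B κ : ℂ} (h : Pos A B κ) : InR ⟨718, 752, 670, 725, 0⟩ κ.re (-κ.im) := by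
  obtain ⟨k0, k1, k2, k3, b0, b1, b2, b3, a0, a1, a2, a3⟩ := h
  exact inr_of _ _ _ _ (by norm_num) (by norm_num) k0 k1 k2 k3 (by norm_num) (by norm_num)
    (by norm_num) (by norm_num)

end Pool.Agent.S5.C322
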