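import Pool.Agent.S5.I.Sad

/-!
# Ends with three half twists: the certificate

The node function minus its tangent plane, bounded with a base point `(x0 + i v0, u0 + i h0)`.
-/

set_option autoImplicit false

namespace Pool.Agent.S5.Z3

open Pool.Agent.H63.VC3 Pool.Agent.S3 Complex Set

/-- The facts at the critical point of an end with three half twists. -/
structure F3 (zs bs lam : ℂ) : Prop where
  hA : hh (1 / 2 - bs) = Real.pi * I * (2 * zs + bs)
  hB : hh (zs + bs) = Real.pi * I * (bs - zs - 1 / 2)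
  lam : lam = Real.pi * I * (4 * zs + 1)
  z0 : -(1 / 2) < zs.re
  z1 : zs.re < 1 / 2
  b0 : 0 < bs.re
  b1 : bs.re < 1 / 2
  s0 : 0 < (zs + bs).re
  s1 : (zs + bs).re < 1 / 2

/-- One angle: the tangent defect, with the plane at the base point. -/
theorem Td_le {w0 ws w : ℂ} (h0 : 0 < w0.re) (h1 : w0.re ≤ 1 / 2) (h2 : 0 < ws.re)
    (h3 : ws.re ≤ 1 / 2) : Td ws w ≤ Rf w0 - Rf w - (hh w0).im * (ws.im - w0.im) +
      (hh ws * (w - cr w0 ws)).re := by
  have h4 := An_zero (w := ws) h0 h1 h2 h3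
  unfold An Td at h4
  have h5 := re_mul_cr (hh w0) w0 ws
  have h6 := re_mul_sub3 (hh ws) w ws (cr w0 ws)
  unfold Td
  rw [h6]
  linarith

/-- The node function of the end, minus its tangent plane. -/
theorem Ez3_end {zs bs z b : ℂ} : Ez3 (1 / 2) zs bs (1 / 2) z b =
    Td (1 / 2 - bs) (1 / 2 - b) + Td (zs + bs) (z + b) + Real.pi / 2 * ((z - zs) ^ 2).im -
      Real.pi * ((z - zs) * (b - bs)).im := by
  have e1 : Td ((1 : ℂ) / 2 - 1 / 2) (1 / 2 - 1 / 2) = 0 := Td_self _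
  have e2 : Td (1 / 2 - zs) (1 / 2 - z) + Td (zs + 1 / 2) (z + 1 / 2) = 0 := by
    unfold Td
    rw [Rf_half_add, Rf_half_add]
    have e3 : hh (zs + 1 / 2) = hh (1 / 2 - zs) := by
      rw [← hh_one_sub]
      congr 1
      ring
    rw [e3]
    have e4 : (hh (1 / 2 - zs) * (1 / 2 - z - (1 / 2 - zs))).re +
        (hh (1 / 2 - zs) * (z + 1 / 2 - (zs + 1 / 2))).re = 0 := by
      rw [← add_re, ← mul_add]
      have : (1 / 2 - z - (1 / 2 - zs)) + (z + 1 / 2 - (zs + 1 / 2)) = 0 := by ring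
      rw [this, mul_zero, zero_re]
    linarith
  unfold Ez3
  rw [e1]
  have e5 : (1 / 2 - 1 / 2 + (z - zs) : ℂ) = z - zs := by ring
  rw [e5]
  linarith

/-- The polynomial part of the bound; `e = 0` or `1` is the additional share. -/
noncomputable def Pp (e x0 u0 X T ζ η zx zy bx yb : ℝ) : ℝ :=
  zx * zy - zx * yb - zy * bx + zy / 2 + yb / 2 + 4 * ζ * (bx - u0) + 4 * X * (yb - η) +
    ζ * (u0 - x0 - 1 / 2) + η * (x0 - 1 / 2) +
    e * ((2 * X + T) * (yb - η) + (2 * ζ + η) * (bx - u0))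

/-- **The certificate.** -/
theorem cert {zs bs lam : ℂ} (h : F3 zs bs lam) {z0 b0 : ℂ} (g1 : 0 ≤ b0.re) (g2 : b0.re < 1 / 2)
    (g3 : 0 < (z0 + b0).re) (g4 : (z0 + b0).re ≤ 1 / 2) {e : ℝ} (he : 0 ≤ e) (z b : ℂ) :
    Ez3 (1 / 2) zs bs (1 / 2) z b + e * Td (1 / 2 - bs) (1 / 2 - b) ≤
      (1 + e) * (Rf (1 / 2 - b0) - Rf (1 / 2 - b)) + (Rf (z0 + b0) - Rf (z + b)) +
      (1 + e) * (hh (1 / 2 - b0)).im * (bs.im - b0.im) -
      (hh (z0 + b0)).im * (zs.im + bs.im - z0.im - b0.im) +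
      Real.pi * Pp e z0.re b0.re zs.re bs.re zs.im bs.im z.re z.im b.re b.im := by
  have k1 := Td_le (w0 := 1 / 2 - b0) (ws := 1 / 2 - bs) (w := 1 / 2 - b)
    (by simp only [sub_re, div_ofNat_re, one_re]; linarith)
    (by simp only [sub_re, div_ofNat_re, one_re]; linarith)
    (by simp only [sub_re, div_ofNat_re, one_re]; linarith [h.b1])
    (by simp only [sub_re, div_ofNat_re, one_re]; linarith [h.b0])
  have k2 := Td_le (w0 := z0 + b0) (ws := zs + bs) (w := z + b) g3 g4 h.s0 h.s1.le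
  rw [Ez3_end]
  have k3 := mul_le_mul_of_nonneg_left k1 (by linarith : 0 ≤ 1 + e)
  refine le_trans (b := (1 + e) * Td (1 / 2 - bs) (1 / 2 - b) + Td (zs + bs) (z + b) +
    Real.pi / 2 * ((z - zs) ^ 2).im - Real.pi * ((z - zs) * (b - bs)).im) (by linarith) ?_
  refine le_trans (add_le_add (add_le_add (add_le_add k3 k2) (le_refl _)) (le_refl
    (-(Real.pi * ((z - zs) * (b - bs)).im)))) (le_of_eq ?_)
  rw [h.hA, h.hB]
  have c1 : cr (1 / 2 - b0) (1 / 2 - bs) = ((1 / 2 - b0.re : ℝ) : ℂ) + ((-bs.im : ℝ) : ℂ) * I := by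
    unfold cr
    simp
  have c2 : cr (z0 + b0) (zs + bs) = ((z0.re + b0.re : ℝ) : ℂ) + ((zs.im + bs.im : ℝ) : ℂ) * I := by
    unfold cr
    simp
  rw [c1, c2]
  unfold Pp
  simp only [sub_re, sub_im, add_re, add_im, mul_re, mul_im, ofReal_re, ofReal_im, I_re, I_im,
    div_ofNat_re, div_ofNat_im, one_re, one_im, re_ofNat, im_ofNat, pow_two]
  ring

end Pool.Agent.S5.Z3
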