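import Pool.Agent.S5.Z.Reg

/-!
# Ends with three half twists: the check of a class
-/

set_option autoImplicit false

namespace Pool.Agent.S5.Z3

open Pool.Agent.H63.VC3 Pool.Agent.S3 Complex Set Pool.Agent.S5.Num
open scoped ComplexConjugate

/-- The equations. -/
theorem eq3_of {zs bs κ c : ℂ} (B : B3 zs bs) (K : B3.K3 zs κ c) (hx : zs.re < 0) :
    Eq3 (-zs.re) zs.im bs.re bs.im (2 * Real.log ‖c‖) (2 * Real.log ‖κ‖) (2 * c.arg)
      (2 * κ.arg) := by
  have h1 := B.own_re K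
  have h2 := B.own_im K
  have h3 := B3.nb_re K
  have h4 := B3.nb_im K
  have h5 := B.bs_im hx
  have h6 := B.bs_re hx
  have hz0 := B.z0
  have hL : Lg zs.im (1 / 2 - zs.re) = Lg zs.im (1 / 2 - -zs.re) := by
    have e1 : hh (zs + 1 / 2) = hh (1 / 2 - zs) := hh_half_sub zs
    have e2 := congrArg re e1
    rw [hh_re, hh_re] at e2
    have a1 : (zs + 1 / 2).im = zs.im := by simp
    have a2 : (zs + 1 / 2).re = 1 / 2 - -zs.re := by simp; ring
    have a3 : ((1 : ℂ) / 2 - zs).im = -zs.im := by simp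
    have a4 : ((1 : ℂ) / 2 - zs).re = 1 / 2 - zs.re := by simp
    rw [a1, a2, a3, a4, Lg_neg_im] at e2
    exact e2.symm
  have hT : (hh (1 / 2 - zs)).im = Th (1 / 2 - -zs.re) zs.im := by
    rw [← hh_half_sub zs]
    unfold Th
    congr 2
    apply Complex.ext
    · simp
      ring
    · simp
  have hT2 : (hh (-zs)).im = -Th (-zs.re) zs.im := by
    rw [← Th_neg (by linarith) (by linarith)]
    unfold Th
    congr 2
    apply Complex.ext <;> simp
  rw [hL] at h1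
  rw [hT] at h2
  rw [hT2] at h6
  refine ⟨?_, ?_, ?_, ?_, ?_, ?_⟩ <;> linarith

theorem adr_facts {a b q a' b' q' : ℕ} (hd : adr a b q a' b' q' = true) :
    11 * b ≤ 20 * a' ∧ 4 * b' ≤ 5 * a ∧ q ≤ 1000 ∧ q' ≤ 999 ∧ 1 ≤ a ∧ 1 ≤ a' := by
  unfold adr at hd
  rcases cond_cases hd with ⟨d1, hd⟩ | ⟨-, hd⟩
  swap
  · exact absurd hd (by simp)
  rcases cond_cases hd with ⟨d2, hd⟩ | ⟨-, hd⟩
  swap
  · exact absurd hd (by simp)
  rcases cond_cases hd with ⟨d3, hd⟩ | ⟨-, hd⟩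
  swap
  · exact absurd hd (by simp)
  rcases cond_cases hd with ⟨d4, hd⟩ | ⟨-, hd⟩
  swap
  · exact absurd hd (by simp)
  rcases cond_cases hd with ⟨c1, hd⟩ | ⟨-, hd⟩
  swap
  · exact absurd hd (by simp)
  rcases cond_cases hd with ⟨c2, hd⟩ | ⟨-, hd⟩
  swap
  · exact absurd hd (by simp)
  rcases cond_cases hd with ⟨c3, hd⟩ | ⟨-, hd⟩
  swap
  · exact absurd hd (by simp)
  rcases cond_cases hd with ⟨c4, hd⟩ | ⟨-, hd⟩
  swap
  · exact absurd hd (by simp)
  exact ⟨Nat.le_of_ble_eq_true d1, Nat.le_of_ble_eq_true d2, Nat.le_of_ble_eq_true d3,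
    Nat.le_of_ble_eq_true d4, Nat.le_of_ble_eq_true c3, Nat.le_of_ble_eq_true c4⟩

/-- The start. -/
theorem start {S : Bool} {a b p q a' b' p' q' : ℕ} (hd : adr a b q a' b' q' = true)
    {zs κ c : ℂ} {φ ψ : ℝ} (K : B3.K3 zs κ c) (h1 : Rgn a b p q c φ) (h2 : Rgn a' b' p' q' κ ψ)
    (ha : c.arg = if S then -φ else φ) (hk : κ.arg = -ψ) :
    zs.re < 0 ∧ InRc 0 9600 99584 103424 (-zs.re) zs.im := by
  obtain ⟨d1, d2, d3, d4, d5, d6⟩ := adr_facts hd
  have hpi := Real.pi_gt_d2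
  have hpi2 := Real.pi_lt_d2
  have h3 := B3.nb_re K
  have h4 := B3.nb_im K
  have p0 : 0 ≤ φ := (Real.arctan_nonneg.2 (by positivity)).trans h1.p0
  have p1 : φ ≤ Real.pi / 4 := by
    rw [← Real.arctan_one]
    refine h1.p1.trans (Real.arctan_mono ?_)
    have : (q : ℝ) ≤ 1000 := by exact_mod_cast d3
    linarith
  have r0 : 0 ≤ ψ := (Real.arctan_nonneg.2 (by positivity)).trans h2.p0
  have r1 : ψ < Real.pi / 4 := by
    rw [← Real.arctan_one]
    refine lt_of_le_of_lt h2.p1 (Real.arctan_strictMono ?_)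
    have : (q' : ℝ) ≤ 999 := by exact_mod_cast d4
    linarith
  have x0 : 2 * Real.pi * zs.re < 0 := by
    rw [hk] at h4
    cases S
    · simp only [Bool.false_eq_true, if_false] at ha
      linarith
    · simp only [if_true] at ha
      linarith
  have x1 : -(3 / 4 * Real.pi) ≤ 2 * Real.pi * zs.re := by
    rw [hk] at h4
    cases S
    · simp only [Bool.false_eq_true, if_false] at ha
      linarith
    · simp only [if_true] at ha
      linarith
  have x0' : zs.re < 0 := by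
    by_contra hc
    push Not at hc
    have : 0 ≤ 2 * Real.pi * zs.re := by positivity
    linarith
  have x1' : -(3 / 8) ≤ zs.re := by
    by_contra hc
    push Not at hc
    have : Real.pi * zs.re < Real.pi * (-(3 / 8)) := mul_lt_mul_of_pos_left hc (by linarith)
    linarith
  have da : (1 : ℝ) ≤ a := by exact_mod_cast d5
  have da' : (1 : ℝ) ≤ a' := by exact_mod_cast d6
  have hc0 : 0 < ‖c‖ := lt_of_lt_of_le (by positivity) h1.n0
  have hk0 : 0 < ‖κ‖ := lt_of_lt_of_le (by positivity) h2.n0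
  have d1' : 11 * (b : ℝ) ≤ 20 * a' := by exact_mod_cast d1
  have d2' : 4 * (b' : ℝ) ≤ 5 * a := by exact_mod_cast d2
  have n1 : ‖κ‖ ≤ 5 / 4 * ‖c‖ := by
    have := h2.n1
    have := h1.n0
    linarith
  have n2 : 11 / 20 * ‖c‖ ≤ ‖κ‖ := by
    have := h2.n0
    have := h1.n1
    linarith
  have l1 : Real.log ‖κ‖ ≤ 1 / 4 + Real.log ‖c‖ := by
    have e1 := Real.log_le_log hk0 n1
    rw [Real.log_mul (by norm_num) hc0.ne'] at e1
    have e2 := Real.log_le_sub_one_of_pos (show (0 : ℝ) < 5 / 4 by norm_num)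
    linarith
  have l2 : -(603 / 1000) + Real.log ‖c‖ ≤ Real.log ‖κ‖ := by
    have e1 := Real.log_le_log (by positivity) n2
    rw [Real.log_mul (by norm_num) hc0.ne'] at e1
    have e2 : Real.log (11 / 20) = Real.log (11 / 10) - Real.log 2 := by
      rw [← Real.log_div (by norm_num) (by norm_num)]
      norm_num
    have e3 := Real.one_sub_inv_le_log_of_pos (show (0 : ℝ) < 11 / 10 by norm_num)
    have e4 := Real.log_two_lt_d9
    norm_num at e3
    linarith
  have z1 : 2 * Real.pi * zs.im ≤ 1 / 4 := by linarith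
  have z0 : -(603 / 1000) ≤ 2 * Real.pi * zs.im := by linarith
  have z1' : zs.im ≤ 1 / 25 := by
    by_contra hc
    push Not at hc
    have : Real.pi * (1 / 25) < Real.pi * zs.im := mul_lt_mul_of_pos_left hc (by linarith)
    linarith
  have z0' : -(11 / 100) ≤ zs.im := by
    by_contra hc
    push Not at hc
    have : Real.pi * zs.im < Real.pi * (-(11 / 100)) := mul_lt_mul_of_pos_left hc (by linarith)
    linarith
  refine ⟨x0', ⟨by push_cast; linarith, by push_cast; linarith, ?_, ?_⟩⟩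
  · unfold ps
    push_cast
    linarith
  · unfold ps
    push_cast
    linarith

/-- The facts of a class. -/
structure Cl (S : Bool) (x : Nt) (zs bs : ℂ) : Prop where
  rows : ∀ q ∈ rws x, ∀ zp ∈ q.zl, RowP S x zs bs q.pc q.up zp
  zn : zs.re < 0
  b0 : 26 / 100 ≤ bs.re
  b1 : bs.re ≤ 385 / 1000
  bi : |bs.im| ≤ 1 / 10
  zi : |zs.im| ≤ 59 / 1000

theorem chk_sound (hT : Tb.TabOK6) {S : Bool} {x : Nt} {a b p q a' b' p' q' : ℕ}
    (h : chk S x a b p q a' b' p' q' = true) {zs bs κ c : ℂ} (B : B3 zs bs)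
    (K : B3.K3 zs κ c) {φ ψ : ℝ} (h1 : Rgn a b p q c φ) (h2 : Rgn a' b' p' q' κ ψ)
    (ha : c.arg = if S then -φ else φ) (hk : κ.arg = -ψ) : Cl S x zs bs := by
  unfold chk at h
  rcases cond_cases h with ⟨hd, h⟩ | ⟨-, h⟩
  swap
  · exact absurd h (by simp)
  obtain ⟨r, hr, h⟩ := mkC_sound h hd h1 h2 ha hk
  obtain ⟨x0, hI⟩ := start hd K h1 h2 ha hk
  have hE := eq3_of B K x0
  obtain ⟨Y0, Y1, Z0, Z1, hI, hR, h⟩ := rfi_sound hE hr 5 h hI ⟨le_rfl, le_rfl, le_rfl⟩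
  rcases cond_cases h with ⟨hl, h⟩ | ⟨-, h⟩
  swap
  · exact absurd h (by simp)
  unfold lot at hl
  obtain ⟨⟨e0, e1, t0, t1, g1, g2, g3, g4, hl⟩⟩ := etR_sound hl hE hI hR B.b0.le
    (by linarith [B.b1])
  rcases cond_cases hl with ⟨c1, hl⟩ | ⟨-, hl⟩
  swap
  · exact absurd hl (by simp)
  rcases cond_cases hl with ⟨c2, hl⟩ | ⟨-, hl⟩
  swap
  · exact absurd hl (by simp)
  rcases cond_cases hl with ⟨c3, hl⟩ | ⟨-, hl⟩
  swap
  · exact absurd hl (by simp)
  rcases cond_cases hl with ⟨c4, hl⟩ | ⟨-, hl⟩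
  swap
  · exact absurd hl (by simp)
  rcases cond_cases hl with ⟨c5, c6⟩ | ⟨-, hl⟩
  swap
  · exact absurd hl (by simp)
  have c1 : (6656 : ℝ) ≤ t0 := by exact_mod_cast Nat.le_of_ble_eq_true c1
  have c2 : (t1 : ℝ) ≤ 9856 := by exact_mod_cast Nat.le_of_ble_eq_true c2
  have c3 : (99840 : ℝ) ≤ e0 := by exact_mod_cast Nat.le_of_ble_eq_true c3
  have c4 : (e1 : ℝ) ≤ 104960 := by exact_mod_cast Nat.le_of_ble_eq_true c4
  have c5 : (100900 : ℝ) ≤ Z0 := by exact_mod_cast Nat.le_of_ble_eq_true c5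
  have c6 : (Z1 : ℝ) ≤ 103900 := by exact_mod_cast Nat.le_of_ble_eq_true c6
  have i2 := hI.z0
  have i3 := hI.z1
  unfold ps at g1 g2 i2 i3
  refine ⟨out_sound hT (lam := l3b zs bs) ⟨B.F x0.le, hE⟩ hr 12 h hI hR, x0, by linarith,
    by linarith, ?_, ?_⟩
  · rw [abs_le]
    constructor <;> linarith
  · rw [abs_le]
    constructor <;> linarith

end Pool.Agent.S5.Z3
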