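import Pool.Agent.S5.Z.Mdl

/-!
# Ends with three half twists: elimination of the parameters
-/

set_option autoImplicit false

namespace Pool.Agent.S5.Z3

open Pool.Agent.H63.VC3 Pool.Agent.S3 Complex Set Pool.Agent.S5.Num

/-- The part of the edge. -/
noncomputable def BP (e f y u h ta sg Y T H bx yb : ℝ) : ℝ :=
  25600 * (((1 + e) * ta - sg) * (H - h)) +
    3294199 * (12800 * yb - 4 * Y * (yb - H) - H * (y + 12800) +
      e * ((T - 2 * Y) * (yb - H) + H * (bx - u)) - f * ((25600 - 4 * Y) * yb))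

theorem GH_eq (e f y u v h ra rb ta sg Y T Z H zy bx yb : ℝ) :
    GH e f y u v h ra rb ta sg Y T Z H zy bx yb =
      Z * (3294199 * (4 + 2 * e) * (bx - u) - (25600 * sg + 3294199 * (12800 - y - u))) +
        (655360000 * ((1 + e) * ra + rb) + 25600 * (sg * v)) + 42165747200 * zy +
        BP e f y u h ta sg Y T H bx yb := by
  unfold GH BP
  ring

theorem BP_flat (e y u h ta sg Y T H bx : ℝ) :
    BP e 0 y u h ta sg Y T H bx H =
      (25600 * ((1 + e) * ta - sg) - 3294199 * (y + e * u)) * H + 3294199 * e * (bx * H) -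
        25600 * ((1 + e) * ta - sg) * h := by
  unfold BP
  ring

theorem BP_nf (e f y u h ta sg Y T H bx yb : ℝ) :
    BP e f y u h ta sg Y T H bx yb =
      (25600 * ((1 + e) * ta - sg) - 3294199 * (y + 12800) +
          3294199 * ((4 + 2 * e) * Y - e * T)) * (H - h) +
        3294199 * (e * (H * (bx - u)) + (e * T - (4 * (1 - f) + 2 * e) * Y) * (yb - h) -
          (y + 12800) * h + 4 * f * (Y * h)) + 3294199 * (12800 - 25600 * f) * yb := by
  unfold BP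
  ring

theorem tn_le (n : ℤ) : (n : ℝ) = ((Int.ofNat (Int.toNat n) : ℤ) : ℝ) -
    ((Int.ofNat (Int.toNat (-n)) : ℤ) : ℝ) := by
  have : n = Int.ofNat (Int.toNat n) - Int.ofNat (Int.toNat (-n)) := by
    simp only [Int.ofNat_eq_natCast]
    omega
  exact_mod_cast this

theorem tn_nn (n : ℤ) : (0 : ℝ) ≤ ((Int.ofNat (Int.toNat n) : ℤ) : ℝ) := by
  rw [Int.ofNat_eq_natCast, Int.cast_natCast]
  exact Nat.cast_nonneg _

/-- The edge is not flat. -/
theorem bnf_sound {d : Dt} {e f ws wc : ℤ} {a1 b1 a2 b2 : ℕ} {k : ℤ → ℤ → ℤ → Bool}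
    (hk : bnf d e (e + 1) f ws wc a1 b1 a2 b2 k = true) (he : e = 0 ∨ e = 1) (hf : f = 0 ∨ f = 1) :
    ∃ N0 N1 N2 : ℤ, (∀ Y T H bx yb : ℝ, (d.Y0 : ℝ) ≤ Y → Y ≤ d.Y1 → (d.T0 : ℝ) ≤ T → T ≤ d.T1 →
      (d.E0 : ℝ) - 102400 ≤ H → H ≤ (d.E1 : ℝ) - 102400 → (a1 : ℝ) - 102400 ≤ bx →
      bx ≤ (b1 : ℝ) - 102400 → (a2 : ℝ) - 102400 ≤ yb → yb ≤ (b2 : ℝ) - 102400 →
      BP e f d.y d.u d.h d.ta d.sg Y T H bx yb + ws * yb + wc ≤ N1 * bx + N2 * yb + N0) ∧
      k N0 N1 N2 = true := by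
  unfold bnf at hk
  simp only [fI_eq] at hk
  obtain ⟨Lc, o1, h1, hk⟩ := elm_sound hk
  obtain ⟨Hc, o2, h2, hk⟩ := elm_sound hk
  refine ⟨_, _, _, ?_, hk⟩
  intro Y T H bx yb i1 i2 i3 i4 i5 i6 i7 i8 i9 i10
  have he0 : (0 : ℝ) ≤ e ∧ (e : ℝ) ≤ 1 := by rcases he with rfl | rfl <;> norm_num
  have hf0 : (0 : ℝ) ≤ f ∧ (f : ℝ) ≤ 1 := by rcases hf with rfl | rfl <;> norm_num
  have k4 : (0 : ℝ) ≤ 4 * (1 - (f : ℝ)) + 2 * e := by linarith [hf0.2]
  have g1 := h1 (e * T - (4 * (1 - f) + 2 * e) * Y) (yb - d.h)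
    (by
      push_cast
      have a1 := mul_le_mul_of_nonneg_left i3 he0.1
      have a2 := mul_le_mul_of_nonneg_left i2 k4
      linarith)
    (by
      push_cast
      have a1 := mul_le_mul_of_nonneg_left i4 he0.1
      have a2 := mul_le_mul_of_nonneg_left i1 k4
      linarith)
    (by push_cast; rw [sg_eq]; linarith) (by push_cast; rw [sg_eq]; linarith)
  have g2 := h2 H (bx - d.u) (by rw [sg_eq]; linarith) (by rw [sg_eq]; linarith)
    (by push_cast; rw [sg_eq]; linarith) (by push_cast; rw [sg_eq]; linarith)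
  have g3 := cel_sound (P0 := 25600 * ((e + 1) * d.ta - d.sg) - 3294199 * (d.y + 12800) +
      3294199 * ((4 + 2 * e) * d.Y0 - e * d.T1))
    (P1 := 25600 * ((e + 1) * d.ta - d.sg) - 3294199 * (d.y + 12800) +
      3294199 * ((4 + 2 * e) * d.Y1 - e * d.T0)) (d0 := d.h - sg d.E0) (d1 := sg d.E1 - d.h)
    (P := 25600 * ((1 + e) * d.ta - d.sg) - 3294199 * (d.y + 12800) +
          3294199 * ((4 + 2 * e) * Y - e * T)) (D := H - d.h)
    (by
      push_cast
      have a1 := mul_le_mul_of_nonneg_left i4 he0.1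
      have a2 := mul_le_mul_of_nonneg_left i1 (by linarith [he0.1] : (0 : ℝ) ≤ 4 + 2 * e)
      linarith)
    (by
      push_cast
      have a1 := mul_le_mul_of_nonneg_left i3 he0.1
      have a2 := mul_le_mul_of_nonneg_left i2 (by linarith [he0.1] : (0 : ℝ) ≤ 4 + 2 * e)
      linarith)
    (by push_cast; rw [sg_eq]; linarith) (by push_cast; rw [sg_eq]; linarith)
  have g4 : Y * d.h ≤ d.Y1 * ((Int.ofNat (Int.toNat d.h) : ℤ) : ℝ) -
      d.Y0 * ((Int.ofNat (Int.toNat (-d.h)) : ℤ) : ℝ) := by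
    have e1 := tn_le d.h
    have a1 := mul_le_mul_of_nonneg_right i2 (tn_nn d.h)
    have a2 := mul_le_mul_of_nonneg_right i1 (tn_nn (-d.h))
    rw [e1]
    linarith
  rw [BP_nf]
  have g5 := mul_le_mul_of_nonneg_left g2 he0.1
  have g6 := mul_le_mul_of_nonneg_left g4 (by linarith [hf0.1] : (0 : ℝ) ≤ 4 * f)
  push_cast at g1 g3 g5 g6 ⊢
  linarith

end Pool.Agent.S5.Z3
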