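import Pool.Agent.S5.Z.Prg
import Pool.Agent.S5.I.Te3

/-!
# Ends with three half twists: the calls of the branch and bound
-/

set_option autoImplicit false

namespace Pool.Agent.S5.Z3

open Pool.Agent.H63.VC3 Pool.Agent.S3 Complex Set Pool.Agent.S5.Num

theorem fI_eq {α : Type} (f : ℤ → α) (n : ℤ) : fI f n = f n := by
  cases n with
  | ofNat m =>
    show fN (fun m => f (Int.ofNat m)) m = _
    rw [fN_eq]
  | negSucc m =>
    show fN (fun m => f (Int.negSucc m)) m = _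
    rw [fN_eq]

theorem pn_sound {n : ℤ} {k : ℕ → ℕ → Bool} (h : pn n k = true) :
    ∃ p q : ℕ, ((p : ℝ) - q = n) ∧ k p q = true := by
  cases n with
  | ofNat m =>
    refine ⟨m, 0, by simp, ?_⟩
    have h' : fN (fun m => k m 0) m = true := h
    rw [fN_eq] at h'
    exact h'
  | negSucc m =>
    refine ⟨0, m + 1, by push_cast [Int.negSucc_eq]; ring, ?_⟩
    have h' : fN (fun m => k 0 m) (Nat.succ m) = true := h
    rw [fN_eq] at h'
    exact h'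

theorem leI_sound {a b : ℤ} (h : leI a b = true) : (a : ℝ) ≤ b := by
  unfold leI at h
  have h1 : Int.toNat (a - b) = 0 := Nat.eq_of_beq_eq_true h
  have h2 : a - b ≤ 0 := Int.toNat_eq_zero.1 h1
  have h3 : a ≤ b := by omega
  exact_mod_cast h3

theorem sg_eq (a : ℕ) : ((sg a : ℤ) : ℝ) = (a : ℝ) - 102400 := by
  unfold sg
  rw [Int.subNatNat_eq_coe]
  push_cast
  ring

theorem div_err (N : ℤ) {x : ℝ} (h : |x| ≤ 1) :
    (N : ℝ) / 25600 * x ≤ ((N / 25600 : ℤ) : ℝ) * x + 1 := by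
  have h1 : ((N / 25600 : ℤ) : ℝ) ≤ (N : ℝ) / 25600 := by
    rw [le_div_iff₀ (by norm_num)]
    have := Int.ediv_mul_le N (by norm_num : (25600 : ℤ) ≠ 0)
    exact_mod_cast this
  have h2 : (N : ℝ) / 25600 ≤ ((N / 25600 : ℤ) : ℝ) + 1 := by
    rw [div_le_iff₀ (by norm_num)]
    have := Int.lt_ediv_add_one_mul_self N (by norm_num : (0 : ℤ) < 25600)
    have h3 : N ≤ (N / 25600 + 1) * 25600 := this.le
    exact_mod_cast h3
  have h3 := abs_le.1 h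
  have h4 : |((N : ℝ) / 25600 - ((N / 25600 : ℤ) : ℝ)) * x| ≤ 1 * 1 := by
    rw [abs_mul]
    apply mul_le_mul _ h (abs_nonneg _) (by norm_num)
    rw [abs_le]
    constructor <;> linarith
  have h5 := abs_le.1 h4
  nlinarith [h5.2]

theorem div_err0 (N : ℤ) : (N : ℝ) / 655360000 ≤ ((N / 655360000 + 1 : ℤ) : ℝ) := by
  rw [div_le_iff₀ (by norm_num)]
  have := Int.lt_ediv_add_one_mul_self N (by norm_num : (0 : ℤ) < 655360000)
  exact_mod_cast this.le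

/-- The function of the calls. -/
noncomputable def FF (w kp1 kn1 kp3 : ℕ) (u v : ℂ) : ℝ :=
  ((w : ℝ) * -Rf (1 / 2 - u) + -Rf (u + v)) * 1048576 +
    Real.pi * 1048576 * (((kp1 : ℝ) - kn1) * (u.re * v.im) - v.re * u.im +
      (kp3 : ℝ) * (u.re * u.im) + v.re * v.im)

theorem eng_sound (hE : Tb.TabOK6) {sd w kp1 kn1 kp3 : ℕ} {N0 N1 N2 N4 : ℤ}
    {a1 b1 a2 b2 a3 b3 a4 b4 : ℕ}
    (h : eng sd w kp1 kn1 kp3 N0 N1 N2 N4 a1 b1 a2 b2 a3 b3 a4 b4 = true) {u v : ℂ}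
    (g1 : Tb.Ps a1 b1 u.re) (g2 : Tb.Ps a2 b2 u.im) (g3 : Tb.Ps a3 b3 v.re) (g4 : Tb.Ps a4 b4 v.im)
    (hsd : sd = 0 ∨ 0 ≤ u.re + v.re)
    (i1 : |u.re| ≤ 1) (i2 : |u.im| ≤ 1) (i3 : |v.re| ≤ 1) (i4 : |v.im| ≤ 1) :
    FF w kp1 kn1 kp3 u v + (N1 * (25600 * u.re) + N2 * (25600 * u.im) + N4 * (25600 * v.im) + N0) /
      655360000 < 3 := by
  unfold eng at h
  obtain ⟨c0p, c0n, e0, h⟩ := pn_sound h
  obtain ⟨c1p, c1n, e1, h⟩ := pn_sound h
  obtain ⟨c2p, c2n, e2, h⟩ := pn_sound h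
  obtain ⟨c4p, c4n, e4, h⟩ := pn_sound h
  have h1 := Tb.bb6_sound hE h g1 g2 g3 g4 hsd i1 i2 i3 i4
  unfold Tb.F6 at h1
  rw [e0, e1, e2, e4] at h1
  have f0 := div_err0 N0
  have f1 := div_err N1 i1
  have f2 := div_err N2 i2
  have f4 := div_err N4 i4
  unfold FF
  push_cast at h1 ⊢
  have e : ((N1 : ℝ) * (25600 * u.re) + N2 * (25600 * u.im) + N4 * (25600 * v.im) + N0) / 655360000 =
      (N1 : ℝ) / 25600 * u.re + (N2 : ℝ) / 25600 * u.im + (N4 : ℝ) / 25600 * v.im +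
        (N0 : ℝ) / 655360000 := by
    ring
  rw [e]
  push_cast at f0
  linarith

/-- Elimination of a parameter. -/
theorem elm_sound {L0 L1 l u : ℤ} {k : ℤ → ℤ → Bool} (h : elm L0 L1 l u k = true) :
    ∃ c o : ℤ, (∀ L D : ℝ, (L0 : ℝ) ≤ L → L ≤ L1 → (l : ℝ) ≤ D → D ≤ u → L * D ≤ c * D + o) ∧
      k c o = true := by
  unfold elm at h
  simp only [fI_eq] at h
  have key : ∀ n : ℤ, (n : ℝ) ≤ ((Int.ofNat (Int.toNat n) : ℤ) : ℝ) ∧
      (0 : ℝ) ≤ ((Int.ofNat (Int.toNat n) : ℤ) : ℝ) := by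
    intro n
    constructor
    · have : n ≤ Int.ofNat (Int.toNat n) := Int.self_le_toNat n
      exact_mod_cast this
    · have : (0 : ℤ) ≤ Int.ofNat (Int.toNat n) := Int.natCast_nonneg _
      exact_mod_cast this
  rcases cond_cases h with ⟨-, h⟩ | ⟨-, h⟩
  · refine ⟨_, _, ?_, h⟩
    intro L D h1 h2 h3 h4
    obtain ⟨k1, k2⟩ := key u
    push_cast [Int.ofNat_eq_natCast] at k1 k2 ⊢
    set q : ℝ := ((Int.toNat u : ℕ) : ℝ) with hq
    have h5 : (L - L0) * D ≤ (L - L0) * q := mul_le_mul_of_nonneg_left (h4.trans k1) (by linarith)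
    have h6 : (L - L0) * q ≤ (L1 - L0) * q := mul_le_mul_of_nonneg_right (by linarith) k2
    linarith
  · refine ⟨_, _, ?_, h⟩
    intro L D h1 h2 h3 h4
    obtain ⟨k1, k2⟩ := key (-l)
    push_cast [Int.ofNat_eq_natCast] at k1 k2 ⊢
    set q : ℝ := ((Int.toNat (-l) : ℕ) : ℝ) with hq
    have h5 : (L1 - L) * (-D) ≤ (L1 - L) * q :=
      mul_le_mul_of_nonneg_left (by linarith) (by linarith)
    have h6 : (L1 - L) * q ≤ (L1 - L0) * q := mul_le_mul_of_nonneg_right (by linarith) k2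
    linarith

theorem cel_sound {P0 P1 d0 d1 : ℤ} {P D : ℝ} (h0 : (P0 : ℝ) ≤ P) (h1 : P ≤ P1)
    (h2 : -(d0 : ℝ) ≤ D) (h3 : D ≤ d1) : P * D ≤ cel P0 P1 d0 d1 := by
  have key : ∀ n : ℤ, (n : ℝ) ≤ ((Int.toNat n : ℕ) : ℝ) := by
    intro n
    have : n ≤ (Int.toNat n : ℤ) := Int.self_le_toNat n
    exact_mod_cast this
  unfold cel
  obtain ⟨m1, m2⟩ := mx_ge (Nat.mul (Int.toNat P1) (Int.toNat d1))
    (Nat.mul (Int.toNat (-P0)) (Int.toNat d0))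
  have m1' : (((Int.toNat P1 : ℕ) : ℝ) * ((Int.toNat d1 : ℕ) : ℝ)) ≤
      ((mx (Nat.mul (Int.toNat P1) (Int.toNat d1)) (Nat.mul (Int.toNat (-P0)) (Int.toNat d0)) :
        ℕ) : ℝ) := by
    rw [← Nat.cast_mul]
    exact_mod_cast m1
  have m2' : (((Int.toNat (-P0) : ℕ) : ℝ) * ((Int.toNat d0 : ℕ) : ℝ)) ≤
      ((mx (Nat.mul (Int.toNat P1) (Int.toNat d1)) (Nat.mul (Int.toNat (-P0)) (Int.toNat d0)) :
        ℕ) : ℝ) := by
    rw [← Nat.cast_mul]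
    exact_mod_cast m2
  rw [Int.ofNat_eq_natCast, Int.cast_natCast]
  have a1 := key P1
  have a2 := key d1
  have a3 := key (-P0)
  have a4 := key d0
  have n1 : (0 : ℝ) ≤ ((Int.toNat P1 : ℕ) : ℝ) := Nat.cast_nonneg _
  have n2 : (0 : ℝ) ≤ ((Int.toNat d1 : ℕ) : ℝ) := Nat.cast_nonneg _
  have n3 : (0 : ℝ) ≤ ((Int.toNat (-P0) : ℕ) : ℝ) := Nat.cast_nonneg _
  have n4 : (0 : ℝ) ≤ ((Int.toNat d0 : ℕ) : ℝ) := Nat.cast_nonneg _
  rcases le_total 0 D with hD | hD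
  · have h5 : P * D ≤ ((Int.toNat P1 : ℕ) : ℝ) * D := mul_le_mul_of_nonneg_right (h1.trans a1) hD
    have h6 : ((Int.toNat P1 : ℕ) : ℝ) * D ≤ ((Int.toNat P1 : ℕ) : ℝ) * ((Int.toNat d1 : ℕ) : ℝ) :=
      mul_le_mul_of_nonneg_left (h3.trans a2) n1
    linarith
  · push_cast at a3
    have h5 : (-P) * (-D) ≤ ((Int.toNat (-P0) : ℕ) : ℝ) * (-D) :=
      mul_le_mul_of_nonneg_right (by linarith) (by linarith)
    have h6 : ((Int.toNat (-P0) : ℕ) : ℝ) * (-D) ≤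
        ((Int.toNat (-P0) : ℕ) : ℝ) * ((Int.toNat d0 : ℕ) : ℝ) :=
      mul_le_mul_of_nonneg_left (by linarith) n3
    linarith

/-- Filter. -/
theorem flt_sound {α : Type} {t : α → Bool} : ∀ {l : List α} {k : List α → Bool},
    flt t l k = true → ∃ r, k r = true ∧ ∀ x ∈ l, x ∈ r ∨ t x = true
  | [], k, h => ⟨[], h, by simp⟩
  | x :: l, k, h => by
    unfold flt at h
    rcases cond_cases h with ⟨h0, h⟩ | ⟨-, h⟩
    · obtain ⟨r, h1, h2⟩ := flt_sound h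
      refine ⟨r, h1, fun y hy => ?_⟩
      rcases List.mem_cons.1 hy with rfl | hy
      · exact Or.inr h0
      · exact h2 y hy
    · obtain ⟨r, h1, h2⟩ := flt_sound h
      refine ⟨_, h1, fun y hy => ?_⟩
      rcases List.mem_cons.1 hy with rfl | hy
      · exact Or.inl List.mem_cons_self
      · rcases h2 y hy with h3 | h3
        · exact Or.inl (List.mem_cons_of_mem _ h3)
        · exact Or.inr h3

end Pool.Agent.S5.Z3
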