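import Pool.Agent.S5.Z.Vz
import Pool.Agent.S5.LastD
import Pool.Agent.S5.I.Te1

/-!
# Ends with three half twists: from the regions to the statement of the node
-/

set_option autoImplicit false

namespace Pool.Agent.S5.Z3

open Complex Pool.Agent.H63.VC3 Pool.Agent.S3
open Pool.Agent.S5.E (Vt vL vR)
open Pool.Agent.S5.E.B2 (InR)
open Pool.Agent.S5.G (kp kp_true kp_false)
open scoped ComplexConjugate

/-- The constants of the check of a class: the regions of the neighbour and of the node. -/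
structure Cn8 where
  a : ℕ
  b : ℕ
  p : ℕ
  q : ℕ
  a' : ℕ
  b' : ℕ
  p' : ℕ
  q' : ℕ

/-- The region is contained in the region with the constants `a, b, p, q`. -/
def sbR (r : E.B2.Rg) (a b p q : ℕ) : Bool :=
  Nat.ble a r.k0 && (Nat.ble r.k1 b && (Nat.ble p r.t0 && Nat.ble r.t1 q))

/-- The type of a vertex. -/
def ntV (J : Vt) : Nt := ⟨min J.a 6, J.o.isNone⟩

/-- The check of a class. -/
noncomputable def chkC (J : Vt) (c : Cn8) : Bool := chk J.s (ntV J) c.a c.b c.p c.q c.a' c.b' c.p' c.q'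

/-- The node. -/
def meV (s : Bool) : Vt := ⟨3, s, none⟩

/-- The constants contain the regions of the table. -/
def sbT (T : Vt → Vt → E.B2.Rg) (J : Vt) (c : Cn8) : Bool :=
  sbR (T J (meV J.s)) c.a c.b c.p c.q && sbR (T (meV J.s) J) c.a' c.b' c.p' c.q'

theorem rgn_of {r : E.B2.Rg} {a b p q : ℕ} {w c : ℂ} (h : sbR r a b p q = true)
    (hr : InR r c.re (-c.im)) (h0 : 0 < c.re) (hw : w = c ∨ w = conj c) :
    Rgn a b p q w (-c.arg) := by
  unfold sbR at h
  simp only [Bool.and_eq_true, Nat.ble_eq] at h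
  obtain ⟨h1, h2, h3, h4⟩ := h
  have h1' : (a : ℝ) ≤ r.k0 := by exact_mod_cast h1
  have h2' : (r.k1 : ℝ) ≤ b := by exact_mod_cast h2
  have h3' : (p : ℝ) ≤ r.t0 := by exact_mod_cast h3
  have h4' : (r.t1 : ℝ) ≤ q := by exact_mod_cast h4
  have hn : ‖w‖ = ‖c‖ := by
    rcases hw with rfl | rfl
    · rfl
    · exact norm_conj c
  have hre : w.re = c.re := by
    rcases hw with rfl | rfl
    · rfl
    · exact conj_re c
  have hsq : c.re ^ 2 + (-c.im) ^ 2 = ‖c‖ ^ 2 := by
    rw [← Complex.normSq_eq_norm_sq, Complex.normSq_apply]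
    ring
  have harg : -c.arg = Real.arctan (-c.im / c.re) := by
    rw [arg_arctan h0, neg_div, Real.arctan_neg]
  refine ⟨by rw [hre]; exact h0, ?_, ?_, ?_, ?_⟩
  · rw [hn]
    have := hr.lo
    rw [hsq] at this
    have h5 := abs_le_of_sq_le_sq' this (norm_nonneg c)
    have h6 : (a : ℝ) / 1000 ≤ r.k0 / 1000 := by linarith
    linarith [h5.2]
  · rw [hn]
    have := hr.hi
    rw [hsq] at this
    have h5 := abs_le_of_sq_le_sq' this (by positivity)
    have h6 : (r.k1 : ℝ) / 1000 ≤ b / 1000 := by linarith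
    linarith [h5.2]
  · rw [harg]
    apply Real.arctan_mono
    rw [le_div_iff₀ h0]
    have := hr.a0
    have : (p : ℝ) / 1000 * c.re ≤ r.t0 / 1000 * c.re := by gcongr
    linarith
  · rw [harg]
    apply Real.arctan_mono
    rw [div_le_iff₀ h0]
    have := hr.a1
    have : (r.t1 : ℝ) / 1000 * c.re ≤ q / 1000 * c.re := by gcongr
    linarith

/-- The facts of the class, from the regions. -/
theorem cl_gen {ρ ρ' : E.B2.Rg} {J : Vt} {c : Cn8} (hk : chkC J c = true)
    (hs1 : sbR ρ c.a c.b c.p c.q = true) (hs2 : sbR ρ' c.a' c.b' c.p' c.q' = true)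
    {zs bs κ d : ℂ} (B : B3 zs bs) (K : B3.K3 zs κ (kp J.s d))
    (hd : 0 < d.re) (h1 : InR ρ d.re (-d.im)) (h2 : InR ρ' κ.re (-κ.im)) :
    Cl J.s (ntV J) zs bs := by
  have hk0 : 0 < κ.re := K.k0
  have e1 : kp J.s d = d ∨ kp J.s d = conj d := by
    cases J.s
    · exact Or.inr (kp_false d)
    · exact Or.inl (kp_true d)
  refine chk_sound Tb.tab6_ok hk B K (φ := -d.arg) (ψ := -κ.arg)
    (rgn_of hs1 h1 hd e1) (rgn_of hs2 h2 hk0 (Or.inl rfl)) ?_ (by ring)
  cases J.s
  · have h3 := abs_lt.1 (abs_arg_lt_pi_div_two_iff.2 (Or.inl hd))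
    have hpi := Real.pi_pos
    rw [kp_false, if_neg (by simp), arg_conj, if_neg (by linarith [h3.2])]
  · rw [kp_true, if_pos rfl, neg_neg]

variable {T : Vt → Vt → E.B2.Rg} {R : ℕ} {a : ℕ → ℕ} {S : ℕ → Bool} {r : ℕ → ℤ}
  {z ql qr : ℕ → ℂ} {zF : Fin (R + 1) → ℂ}

/-- The classes. -/
structure Cls (T : Vt → Vt → E.B2.Rg) : Prop where
  c : ∀ J : Vt, J.ok = true → ∃ c : Cn8, chkC J c = true ∧ sbT T J c = true

theorem vz_end {i : ℕ} {fl : ℕ → Bool} {s : Bool} {c : ℂ} {x : Nt} {z1 : ℝ}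
    (Ed : End R a S fl z ql qr r i s c x z1)
    (C : Cl s x (oF R r fl z ql qr i) (slO R a S fl z ql qr i).ys) :
    VZ (Ez3 (slB R a S fl z ql qr i).ys (oF R r fl z ql qr i) (slO R a S fl z ql qr i).ys)
      ⟨3, true⟩ (2 / 5) (oF R r fl z ql qr i) (slB R a S fl z ql qr i)
      (slO R a S fl z ql qr i) := by
  have h1 : (slO R a S fl z ql qr i).ex = true := by rw [Ed.sO]
  have h2 : (slO R a S fl z ql qr i).S = s := by rw [Ed.sO]
  have h3 : (slO R a S fl z ql qr i).x = x := by rw [Ed.sO]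
  have h4 : (slO R a S fl z ql qr i).lam = l3b (oF R r fl z ql qr i)
    (slO R a S fl z ql qr i).ys := by
    conv_lhs => rw [Ed.sO]
  exact VZ_of Ed.ex Ed.ys h1 h4 Ed.B (by rw [h2, h3]; exact C)

/-- The left end, with any region of the neighbour. -/
theorem e3l_gen (h : Ctx T R a S r z ql qr zF) (h3 : a 0 = 3) {c : Cn8} {ρ : E.B2.Rg}
    (k1 : chkC (vL R a S (0 + 1)) c = true) (hs1 : sbR ρ c.a c.b c.p c.q = true)
    (hs2 : sbR (T (meV (S 0)) (vL R a S (0 + 1))) c.a' c.b' c.p' c.q' = true)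
    (r1 : InR ρ (cos (z 1)).re (-(cos (z 1)).im)) : Z3 R a S z ql qr 0 := by
  have hR : 1 ≤ R := h.adm.hR
  have hf : flO R a S 0 = false := flO_zero R a S
  have Ed := end_left h.hg hR h3 hf
  have e2 : vR a S 0 = meV (S 0) := by
    unfold E.vR meV
    rw [h3, if_pos rfl]
    rfl
  have r2 := h.rl (i := 0) (by omega)
  rw [e2] at r2
  have C := cl_gen k1 hs1 hs2 Ed.B Ed.K (h.hg.crt.cosz 1 hR).1 r1 r2
  have hnt : ntV (vL R a S (0 + 1)) = ntG R a 1 := by
    unfold ntV ntG E.vL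
    have g1 : min (min (a (0 + 1)) 8) 6 = min (a 1) 6 := by
      rw [Nat.zero_add]
      omega
    have g2 : (if 0 + 1 = R then (none : Option Bool) else some (S (0 + 1))).isNone =
        decide (1 = 0 ∨ 1 = R) := by
      by_cases hc : 1 = R
      · rw [if_pos (by omega)]
        simp [hc]
      · rw [if_neg (by omega)]
        simp [hc]
    simp only [g1, g2]
  rw [hnt] at C
  have hn3 : (r 0).natAbs = 3 := by
    rw [h.hg.abs 0 (Nat.zero_le R)]
    exact h3
  have V := vz_end Ed C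
  have hn : ntG R a 0 = ⟨3, true⟩ := by
    unfold ntG
    rw [h3]
    simp
  unfold Z3
  rw [← Pool.Agent.S5.oF_three hn3, hn, z1O_zero]
  exact V

/-- The right end, with any region of the neighbour. -/
theorem e3r_gen (h : Ctx T R a S r z ql qr zF) {i : ℕ} (hi : i + 1 = R)
    (h3 : a (i + 1) = 3) {c : Cn8} {ρ : E.B2.Rg}
    (k1 : chkC (vR a S i) c = true) (hs1 : sbR ρ c.a c.b c.p c.q = true)
    (hs2 : sbR (T (meV (S i)) (vR a S i)) c.a' c.b' c.p' c.q' = true)
    (r1 : InR ρ (cos (z i)).re (-(cos (z i)).im)) : Z3 R a S z ql qr (i + 1) := by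
  subst hi
  have hR : 1 ≤ i + 1 := h.adm.hR
  have hf : flO (i + 1) a S (i + 1) = true := flO_last hR a S
  have Ed := end_right h.hg hR h3 hf
  have e2 : vL (i + 1) a S (i + 1) = meV (S i) := by
    unfold E.vL meV
    rw [h3, if_pos rfl]
    rfl
  have r2 := h.rr (i := i) (by omega)
  rw [e2] at r2
  have C := cl_gen k1 hs1 hs2 Ed.B Ed.K (h.hg.crt.cosz i (by omega)).1 r1 r2
  have hnt : ntV (vR a S i) = ntG (i + 1) a i := by
    unfold ntV ntG E.vR
    have g1 : min (min (a i) 8) 6 = min (a i) 6 := by omega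
    have g2 : (if i = 0 then (none : Option Bool) else some (S (i - 1))).isNone =
        decide (i = 0 ∨ i = i + 1) := by
      by_cases hc : i = 0
      · rw [if_pos hc]
        simp [hc]
      · rw [if_neg hc]
        simp [hc]
    simp only [g1, g2]
  rw [hnt] at C
  have hn3 : (r (i + 1)).natAbs = 3 := by
    rw [h.hg.abs (i + 1) le_rfl]
    exact h3
  have V := vz_end Ed C
  have hn : ntG (i + 1) a (i + 1) = ⟨3, true⟩ := by
    unfold ntG
    rw [h3]
    simp
  unfold Z3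
  rw [← Pool.Agent.S5.oF_three hn3, hn, z1O_last]
  exact V

/-- The left end, with the region of the table. -/
theorem e3l_one (h : Ctx T R a S r z ql qr zF) (h3 : a 0 = 3)
    (H : ∃ c : Cn8, chkC (vL R a S (0 + 1)) c = true ∧ sbT T (vL R a S (0 + 1)) c = true) :
    Z3 R a S z ql qr 0 := by
  have hR : 1 ≤ R := h.adm.hR
  have e2 : vR a S 0 = meV (S 0) := by
    unfold E.vR meV
    rw [h3, if_pos rfl]
    rfl
  obtain ⟨c, k1, k2⟩ := H
  have r1 := h.rr (i := 0) (by omega)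
  rw [e2] at r1
  unfold sbT at k2
  rw [Bool.and_eq_true] at k2
  exact e3l_gen h h3 k1 k2.1 k2.2 r1

/-- The right end, with the region of the table. -/
theorem e3r_one (h : Ctx T R a S r z ql qr zF) {i : ℕ} (hi : i + 1 = R)
    (h3 : a (i + 1) = 3)
    (H : ∃ c : Cn8, chkC (vR a S i) c = true ∧ sbT T (vR a S i) c = true) :
    Z3 R a S z ql qr (i + 1) := by
  have e2 : vL R a S (i + 1) = meV (S i) := by
    unfold E.vL meV
    rw [h3, if_pos hi]
    rfl
  obtain ⟨c, k1, k2⟩ := H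
  have r2 := h.rl (i := i) (by omega)
  rw [e2] at r2
  unfold sbT at k2
  rw [Bool.and_eq_true] at k2
  exact e3r_gen h hi h3 k1 k2.1 k2.2 r2

theorem e3l_of (H : Cls T) (h : Ctx T R a S r z ql qr zF) (h3 : a 0 = 3) :
    Z3 R a S z ql qr 0 :=
  e3l_one h h3 (H.c (vL R a S (0 + 1)) (h.ok_l (i := 0) (by
    have := h.adm.hR
    omega)))

theorem e3r_of (H : Cls T) (h : Ctx T R a S r z ql qr zF) {i : ℕ} (hi : i + 1 = R)
    (h3 : a (i + 1) = 3) : Z3 R a S z ql qr (i + 1) :=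
  e3r_one h hi h3 (H.c (vR a S i) (h.ok_r (i := i) (by omega)))

end Pool.Agent.S5.Z3
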