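import Pool.Agent.S5.Z.Prg

/-!
# Ends with three half twists: the neighbour `2SA`, by its other neighbour
-/

set_option autoImplicit false

namespace Pool.Agent.S5.Z3

/-- The other neighbour is `2AS`. -/
theorem k2SAs : chk true ⟨2, false⟩ 750 893 472 699 591 660 451 577 = true := by
  decide +kernel

end Pool.Agent.S5.Z3
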