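import Pool.Agent.S5.Z.Eng
import Pool.Agent.S5.Z.CertA

/-!
# Ends with three half twists: the certificate with integer data
-/

set_option autoImplicit false

namespace Pool.Agent.S5.Z3

open Pool.Agent.H63.VC3 Pool.Agent.S3 Complex Set Pool.Agent.S5.Num

/-- The function of the certificate, without the part of the branch and bound. -/
noncomputable def GH (e f y u v h ra rb ta sg Y T Z H zy bx yb : ℝ) : ℝ :=
  655360000 * ((1 + e) * ra + rb) + 25600 * ((1 + e) * ta * (H - h)) -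
    25600 * (sg * (Z + H - v - h)) +
    3294199 * (12800 * (zy + yb) + 4 * Z * (bx - u) - 4 * Y * (yb - H) + Z * (u + y - 12800) -
      H * (y + 12800) + e * ((T - 2 * Y) * (yb - H) + (2 * Z + H) * (bx - u)) -
      f * ((25600 - 4 * Y) * yb))

/-- The base point. -/
noncomputable def Dt.z0 (d : Dt) : ℂ := ⟨-((d.y : ℝ) / 25600), (d.v : ℝ) / 25600⟩

/-- The base point. -/
noncomputable def Dt.b0 (d : Dt) : ℂ := ⟨(d.u : ℝ) / 25600, (d.h : ℝ) / 25600⟩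

/-- The data are right. -/
structure DOK (d : Dt) (zs bs : ℂ) : Prop where
  Y0 : (d.Y0 : ℝ) ≤ -(25600 * zs.re)
  Y1 : -(25600 * zs.re) ≤ d.Y1
  Z0 : (d.Z0 : ℝ) - 102400 ≤ 25600 * zs.im
  Z1 : 25600 * zs.im ≤ (d.Z1 : ℝ) - 102400
  E0 : (d.E0 : ℝ) - 102400 ≤ 25600 * bs.im
  E1 : 25600 * bs.im ≤ (d.E1 : ℝ) - 102400
  T0 : (d.T0 : ℝ) ≤ 25600 * bs.re
  T1 : 25600 * bs.re ≤ d.T1
  cY : |zs.re| ≤ 3 / 8
  cZ : |zs.im| ≤ 11 / 100
  cE : |bs.im| ≤ 3 / 10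
  cT : |bs.re| ≤ 1 / 2
  g1 : 0 ≤ d.b0.re
  g2 : d.b0.re < 1 / 2
  g3 : 0 < (d.z0 + d.b0).re
  g4 : (d.z0 + d.b0).re ≤ 1 / 2
  gx : |d.z0.re| ≤ 1 / 2
  gv : |d.z0.im| ≤ 3 / 5
  gh : |d.b0.im| ≤ 3 / 10
  ra : |Rf (1 / 2 - d.b0) * 1048576 - d.ra| ≤ 32
  rb : |Rf (d.z0 + d.b0) * 1048576 - d.rb| ≤ 32
  ta : |(hh (1 / 2 - d.b0)).im * 1048576 - d.ta| ≤ 4
  sb : |(hh (d.z0 + d.b0)).im * 1048576 - d.sg| ≤ 4

theorem abs_mul_le2 {a b A B : ℝ} (h1 : |a| ≤ A) (h2 : |b| ≤ B) : |a * b| ≤ A * B := by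
  rw [abs_mul]
  exact mul_le_mul h1 h2 (abs_nonneg _) ((abs_nonneg _).trans h1)

theorem pi20 : |Real.pi * 1048576 - 3294199| ≤ 2 / 5 := by
  have pi1 := Real.pi_gt_d20
  have pi2 := Real.pi_lt_d20
  rw [abs_le]
  constructor <;> linarith

/-- The part of the certificate with the factor `π`. -/
noncomputable def BB (e f x0 u0 X T ζ η zy bx yb : ℝ) : ℝ :=
  zy / 2 + yb / 2 + 4 * ζ * (bx - u0) + 4 * X * (yb - η) + ζ * (u0 - x0 - 1 / 2) +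
    η * (x0 - 1 / 2) + e * ((2 * X + T) * (yb - η) + (2 * ζ + η) * (bx - u0)) -
    f * ((4 * X + 1) * yb)

theorem BB_le {e f x0 u0 X T ζ η zy bx yb : ℝ} (he : e = 0 ∨ e = 1) (hf : f = 0 ∨ f = 1)
    (hX : |X| ≤ 3 / 8) (hT : |T| ≤ 1 / 2) (hζ : |ζ| ≤ 11 / 100) (hη : |η| ≤ 3 / 10)
    (hx0 : |x0| ≤ 1 / 2) (hu0 : |u0| ≤ 1 / 2) (hzy : |zy| ≤ 1 / 2) (hbx : |bx| ≤ 1)
    (hyb : |yb| ≤ 1 / 2) : |BB e f x0 u0 X T ζ η zy bx yb| ≤ 10 := by
  have a1 := abs_le.1 hX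
  have a2 := abs_le.1 hT
  have a3 := abs_le.1 hζ
  have a4 := abs_le.1 hη
  have a5 := abs_le.1 hx0
  have a6 := abs_le.1 hu0
  have a7 := abs_le.1 hzy
  have a8 := abs_le.1 hbx
  have a9 := abs_le.1 hyb
  have b1 := abs_le.1 (abs_mul_le2 hζ (show |bx - u0| ≤ 3 / 2 from
    abs_le.2 ⟨by linarith, by linarith⟩))
  have b2 := abs_le.1 (abs_mul_le2 hX (show |yb - η| ≤ 4 / 5 from
    abs_le.2 ⟨by linarith, by linarith⟩))
  have b3 := abs_le.1 (abs_mul_le2 hζ (show |u0 - x0 - 1 / 2| ≤ 3 / 2 from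
    abs_le.2 ⟨by linarith, by linarith⟩))
  have b4 := abs_le.1 (abs_mul_le2 hη (show |x0 - 1 / 2| ≤ 1 from
    abs_le.2 ⟨by linarith, by linarith⟩))
  have b5 := abs_le.1 (abs_mul_le2 (show |2 * X + T| ≤ 5 / 4 from
    abs_le.2 ⟨by linarith, by linarith⟩) (show |yb - η| ≤ 4 / 5 from
    abs_le.2 ⟨by linarith, by linarith⟩))
  have b6 := abs_le.1 (abs_mul_le2 (show |2 * ζ + η| ≤ 13 / 25 from
    abs_le.2 ⟨by linarith, by linarith⟩) (show |bx - u0| ≤ 3 / 2 from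
    abs_le.2 ⟨by linarith, by linarith⟩))
  have b7 := abs_le.1 (abs_mul_le2 (show |4 * X + 1| ≤ 5 / 2 from
    abs_le.2 ⟨by linarith, by linarith⟩) hyb)
  unfold BB
  rcases he with rfl | rfl <;> rcases hf with rfl | rfl <;> rw [abs_le] <;> constructor <;> linarith

/-- **The certificate with integer data.** -/
theorem cert_int {zs bs lam z b : ℂ} (h : F3 zs bs lam) {d : Dt} (hd : DOK d zs bs) {e f : ℝ}
    (he : e = 0 ∨ e = 1) (hf : f = 0 ∨ f = 1) (hz : |z.im| ≤ 1 / 2) (hb : |b.re| ≤ 1)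
    (hb' : |b.im| ≤ 1 / 2) :
    (Ez3 (1 / 2) zs bs (1 / 2) z b + e * Td (1 / 2 - bs) (1 / 2 - b) -
      f * (Real.pi * (4 * zs.re + 1) * b.im)) * 1048576 ≤
    ((1 + e) * -Rf (1 / 2 - b) + -Rf (z + b)) * 1048576 + Real.pi * 1048576 *
      (-(b.re * z.im) - z.re * b.im + z.re * z.im) +
      GH e f d.y d.u d.v d.h d.ra d.rb d.ta d.sg (-(25600 * zs.re)) (25600 * bs.re)
        (25600 * zs.im) (25600 * bs.im) (25600 * z.im) (25600 * b.re) (25600 * b.im) / 655360000 +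
      115 := by
  have he0 : 0 ≤ e ∧ e ≤ 1 := by rcases he with rfl | rfl <;> norm_num
  have k1 := cert h hd.g1 hd.g2 hd.g3 hd.g4 he0.1 z b
  have q1 := abs_le.1 hd.ra
  have q2 := abs_le.1 hd.rb
  have hu0 : |d.b0.re| ≤ 1 / 2 := by
    rw [abs_le]
    constructor <;> linarith [hd.g1, hd.g2]
  have s1 := abs_le.1 hd.cE
  have s2 := abs_le.1 hd.gh
  have s3 := abs_le.1 hd.cZ
  have s4 := abs_le.1 hd.gv
  have q3 := abs_le.1 (abs_mul_le2 hd.ta (show |bs.im - d.b0.im| ≤ 3 / 5 from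
    abs_le.2 ⟨by linarith, by linarith⟩))
  have q4 := abs_le.1 (abs_mul_le2 hd.sb (show |zs.im + bs.im - d.z0.im - d.b0.im| ≤ 3 / 2 from
    abs_le.2 ⟨by linarith, by linarith⟩))
  have q5 := abs_le.1 (abs_mul_le2 pi20 (BB_le (e := e) (f := f) (x0 := d.z0.re) (u0 := d.b0.re)
    (X := zs.re) (T := bs.re) (ζ := zs.im) (η := bs.im) (zy := z.im) (bx := b.re) (yb := b.im)
    he hf hd.cY hd.cT hd.cZ hd.cE hd.gx hu0 hz hb hb'))
  have eG : GH e f d.y d.u d.v d.h d.ra d.rb d.ta d.sg (-(25600 * zs.re)) (25600 * bs.re)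
        (25600 * zs.im) (25600 * bs.im) (25600 * z.im) (25600 * b.re) (25600 * b.im) / 655360000 =
      (1 + e) * d.ra + d.rb + (1 + e) * (d.ta * (bs.im - d.b0.im)) -
        d.sg * (zs.im + bs.im - d.z0.im - d.b0.im) +
        3294199 * BB e f d.z0.re d.b0.re zs.re bs.re zs.im bs.im z.im b.re b.im := by
    unfold GH BB Dt.z0 Dt.b0
    simp only
    ring
  rw [eG]
  have eP : Pp e d.z0.re d.b0.re zs.re bs.re zs.im bs.im z.re z.im b.re b.im =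
      (-(b.re * z.im) - z.re * b.im + z.re * z.im) +
        BB e f d.z0.re d.b0.re zs.re bs.re zs.im bs.im z.im b.re b.im +
        f * ((4 * zs.re + 1) * b.im) := by
    unfold Pp BB
    ring
  rw [eP] at k1
  have k2 := mul_le_mul_of_nonneg_right k1 (by norm_num : (0 : ℝ) ≤ 1048576)
  set B0 := BB e f d.z0.re d.b0.re zs.re bs.re zs.im bs.im z.im b.re b.im with hB0
  have r1 : (1 + e) * (Rf (1 / 2 - d.b0) * 1048576 - d.ra) ≤ 64 := by nlinarith [q1.2, he0.1, he0.2]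
  have r3 : (1 + e) * (((hh (1 / 2 - d.b0)).im * 1048576 - d.ta) * (bs.im - d.b0.im)) ≤ 5 := by
    nlinarith [q3.2, he0.1, he0.2]
  nlinarith [q2.2, q4.1, q5.2]

end Pool.Agent.S5.Z3
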