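import Pool.Agent.S5.Z.Mdl

/-!
# Ends with three half twists: the data of a rectangle
-/

set_option autoImplicit false

namespace Pool.Agent.S5.Z3

open Pool.Agent.H63.VC3 Pool.Agent.S3 Complex Set Pool.Agent.S5.Num
open scoped ComplexConjugate

theorem tab_pt {i j e : ℕ} (hi : 1 ≤ i) (hi2 : i ≤ 100) (h : Tb.EntOK i j e) {w : ℂ} {g : ℤ}
    (hre : w.re = (i : ℝ) / 200) (him : w.im = (g : ℝ) / 200) (hj : j = g.natAbs) :
    |Rf w * 1048576 - ((Int.negOfNat (Tb.qE e) : ℤ) : ℝ)| ≤ 32 ∧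
    (0 ≤ g → |(hh w).im * 1048576 - ((Int.ofNat (Tb.tE e) : ℤ) : ℝ)| ≤ 4) ∧
    (g ≤ 0 → |(hh w).im * 1048576 - ((Int.negOfNat (Tb.tE e) : ℤ) : ℝ)| ≤ 4) := by
  have hi' : (1 : ℝ) ≤ i := by exact_mod_cast hi
  have hi2' : (i : ℝ) ≤ 100 := by exact_mod_cast hi2
  have pre : (Tb.pt i j).re = (i : ℝ) / 200 := by
    unfold Tb.pt
    exact line_re _ _
  have pim : (Tb.pt i j).im = (j : ℝ) / 200 := by
    unfold Tb.pt
    exact line_im _ _
  have hjr : (j : ℝ) = |(g : ℝ)| := by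
    rw [hj, Nat.cast_natAbs, Int.cast_abs]
  have c1 : ∀ n : ℕ, ((Int.negOfNat n : ℤ) : ℝ) = -(n : ℝ) := by
    intro n
    rw [Int.negOfNat_eq]
    simp
  have c2 : ∀ n : ℕ, ((Int.ofNat n : ℤ) : ℝ) = (n : ℝ) := by
    intro n
    simp
  have up : 0 ≤ g → w = Tb.pt i j := by
    intro hg
    have : (0 : ℝ) ≤ g := by exact_mod_cast hg
    apply Complex.ext
    · rw [hre, pre]
    · rw [him, pim, hjr, abs_of_nonneg this]
  have dn : g ≤ 0 → w = conj (Tb.pt i j) := by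
    intro hg
    have : (g : ℝ) ≤ 0 := by exact_mod_cast hg
    apply Complex.ext
    · rw [conj_re, hre, pre]
    · rw [conj_im, him, pim, hjr, abs_of_nonpos this]
      ring
  have hq := abs_le.1 h.q
  have ht := abs_le.1 h.t
  refine ⟨?_, ?_, ?_⟩
  · have e1 : Rf w = Rf (Tb.pt i j) := by
      rcases le_total 0 g with hg | hg
      · rw [up hg]
      · rw [dn hg, Rf_conj]
    rw [e1, c1, abs_le]
    constructor <;> linarith [hq.1, hq.2]
  · intro hg
    rw [up hg, c2]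
    exact h.t
  · intro hg
    rw [dn hg, Pool.Agent.H63.VC3.hh_conj _ (by rw [pre]; positivity) (by rw [pre]; linarith),
      conj_im, c1, abs_le]
    constructor <;> linarith [ht.1, ht.2]

theorem sgc (a b : ℕ) : ((Int.subNatNat a b : ℤ) : ℝ) = (a : ℝ) - b := by
  rw [Int.subNatNat_eq_coe]
  push_cast
  ring

theorem mkD_sound (hT : Tb.TabOK6) {Y0 Y1 Z0 Z1 E0 E1 T0 T1 : ℕ} {k : Dt → Bool}
    (h : mkD Y0 Y1 Z0 Z1 E0 E1 T0 T1 k = true) {zs bs : ℂ}
    (hI : InRc Y0 Y1 Z0 Z1 (-zs.re) zs.im) (hR : Rk Y1 Z0 Z1) (e0 : (E0 : ℝ) ≤ ps bs.im)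
    (e1 : ps bs.im ≤ E1) (t0 : (T0 : ℝ) ≤ bs.re * 25600) (t1 : bs.re * 25600 ≤ T1)
    (b0 : 0 < bs.re) (b1 : bs.re < 1 / 2) : ∃ d, DOK d zs bs ∧ k d = true := by
  unfold mkD at h
  rcases cond_cases h with ⟨ce0, h⟩ | ⟨-, h⟩
  swap
  · exact absurd h (by simp)
  rcases cond_cases h with ⟨ce1, h⟩ | ⟨-, h⟩
  swap
  · exact absurd h (by simp)
  simp only [fN_eq] at h
  rcases cond_cases h with ⟨cq, h⟩ | ⟨-, h⟩
  swap
  · exact absurd h (by simp)
  rcases cond_cases h with ⟨cp, h⟩ | ⟨-, h⟩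
  swap
  · exact absurd h (by simp)
  rcases cond_cases h with ⟨cj, h⟩ | ⟨-, h⟩
  swap
  · exact absurd h (by simp)
  rcases cond_cases h with ⟨cb, h⟩ | ⟨-, h⟩
  swap
  · exact absurd h (by simp)
  simp only [fI_eq] at h
  rw [fI_eq, fI_eq] at h
  have ce0 := Nat.le_of_ble_eq_true ce0
  have ce1 := Nat.le_of_ble_eq_true ce1
  have cq := Nat.le_of_ble_eq_true cq
  have cp := Nat.le_of_ble_eq_true cp
  have cj := Nat.le_of_ble_eq_true cj
  have cb := Nat.le_of_ble_eq_true cb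
  set qy := Tb.ctr Y0 Y1 with hqy
  set gz := Tb.ctr Z0 Z1 with hgz
  set ge := Tb.ctr E0 E1 with hge
  set pb := Tb.ctr T0 T1 with hpb
  have cj' : (ge - 800) + (800 - ge) ≤ 60 := cj
  have cb' : (gz + ge - 1600) + (1600 - (gz + ge)) ≤ 60 := cb
  have cq' : qy + 1 ≤ pb := cq
  have hA := tab_pt (w := 1 / 2 - (⟨(pb : ℝ) / 200, ((ge : ℝ) - 800) / 200⟩ : ℂ))
    (g := 800 - (ge : ℤ)) (i := 100 - pb) (by omega) (by omega)
    (hT (100 - pb) ((ge - 800) + (800 - ge)) (by omega) cj' (by omega))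
    (by
      simp only [sub_re, div_ofNat_re, one_re]
      rw [Nat.cast_sub (by omega)]
      push_cast
      ring)
    (by
      simp only [sub_im, div_ofNat_im, one_im]
      push_cast
      ring)
    (by omega)
  have hB := tab_pt (w := (⟨-((qy : ℝ) / 200) + (pb : ℝ) / 200,
      ((gz : ℝ) - 800) / 200 + ((ge : ℝ) - 800) / 200⟩ : ℂ))
    (g := (gz : ℤ) + ge - 1600) (i := pb - qy) (by omega) (by omega)
    (hT (pb - qy) ((gz + ge - 1600) + (1600 - (gz + ge))) (by omega) cb' (by omega))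
    (by
      simp only
      rw [Nat.cast_sub (by omega)]
      ring)
    (by
      simp only
      push_cast
      ring)
    (by omega)
  refine ⟨_, ?_, h⟩
  have y1 := hR.y1
  have z0 := hR.z0
  have z1 := hR.z1
  have y1' : (Y1 : ℝ) ≤ 9600 := by exact_mod_cast y1
  have z0' : (99584 : ℝ) ≤ Z0 := by exact_mod_cast z0
  have z1' : (Z1 : ℝ) ≤ 103424 := by exact_mod_cast z1
  have ce0' : (94720 : ℝ) ≤ E0 := by exact_mod_cast ce0
  have ce1' : (E1 : ℝ) ≤ 110080 := by exact_mod_cast ce1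
  have i0 := hI.y0
  have i1 := hI.y1
  have i2 := hI.z0
  have i3 := hI.z1
  unfold ps at e0 e1 i2 i3
  have y0' : (0 : ℝ) ≤ Y0 := Nat.cast_nonneg _
  have kq : (qy : ℝ) + 1 ≤ pb := by exact_mod_cast cq'
  have kp : (pb : ℝ) ≤ 99 := by exact_mod_cast cp
  have kq0 : (0 : ℝ) ≤ qy := Nat.cast_nonneg _
  have kj1 : (ge : ℝ) ≤ 860 := by
    have : ge ≤ 860 := by omega
    exact_mod_cast this
  have kj2 : (740 : ℝ) ≤ ge := by
    have : 740 ≤ ge := by omega
    exact_mod_cast this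
  have kb1 : (gz : ℝ) + ge ≤ 1660 := by
    have : gz + ge ≤ 1660 := by omega
    exact_mod_cast this
  have kb2 : (1540 : ℝ) ≤ (gz : ℝ) + ge := by
    have : 1540 ≤ gz + ge := by omega
    exact_mod_cast this
  have n1 : ((Int.ofNat (Nat.mul 128 qy) : ℤ) : ℝ) = 128 * qy := by
    rw [show Nat.mul 128 qy = 128 * qy from rfl]
    simp
  have n2 : ((Int.ofNat (Nat.mul 128 pb) : ℤ) : ℝ) = 128 * pb := by
    rw [show Nat.mul 128 pb = 128 * pb from rfl]
    simp
  have n3 : ((Int.subNatNat (Nat.mul 128 gz) 102400 : ℤ) : ℝ) = 128 * gz - 102400 := by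
    rw [show Nat.mul 128 gz = 128 * gz from rfl, sgc]
    push_cast
    ring
  have n4 : ((Int.subNatNat (Nat.mul 128 ge) 102400 : ℤ) : ℝ) = 128 * ge - 102400 := by
    rw [show Nat.mul 128 ge = 128 * ge from rfl, sgc]
    push_cast
    ring
  have r1 : ∀ (d : Dt), d.u = Int.ofNat (Nat.mul 128 pb) → d.h = Int.subNatNat (Nat.mul 128 ge) 102400 →
      d.b0 = (⟨(pb : ℝ) / 200, ((ge : ℝ) - 800) / 200⟩ : ℂ) := by
    intro d h1 h2
    unfold Dt.b0
    rw [h1, h2, n2, n4]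
    apply Complex.ext <;> simp only <;> ring
  have r2 : ∀ (d : Dt), d.u = Int.ofNat (Nat.mul 128 pb) → d.h = Int.subNatNat (Nat.mul 128 ge) 102400 →
      d.y = Int.ofNat (Nat.mul 128 qy) → d.v = Int.subNatNat (Nat.mul 128 gz) 102400 →
      d.z0 + d.b0 = (⟨-((qy : ℝ) / 200) + (pb : ℝ) / 200,
      ((gz : ℝ) - 800) / 200 + ((ge : ℝ) - 800) / 200⟩ : ℂ) := by
    intro d h1 h2 h3 h4
    rw [r1 d h1 h2]
    unfold Dt.z0
    rw [h3, h4, n1, n3]
    apply Complex.ext <;> simp only [add_re, add_im] <;> ring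
  have r3 : ∀ (d : Dt), d.y = Int.ofNat (Nat.mul 128 qy) → d.v = Int.subNatNat (Nat.mul 128 gz) 102400 →
      d.z0 = (⟨-((qy : ℝ) / 200), ((gz : ℝ) - 800) / 200⟩ : ℂ) := by
    intro d h3 h4
    unfold Dt.z0
    rw [h3, h4, n1, n3]
    apply Complex.ext <;> simp only <;> ring
  constructor
  · simp only; linarith
  · simp only; linarith
  · simp only; linarith
  · simp only; linarith
  · simp only; linarith
  · simp only; linarith
  · simp only; linarith
  · simp only; linarith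
  · rw [abs_le]; constructor <;> linarith
  · rw [abs_le]; constructor <;> linarith
  · rw [abs_le]; constructor <;> linarith
  · rw [abs_le]; constructor <;> linarith
  · rw [r1 _ rfl rfl]
    simp only
    positivity
  · rw [r1 _ rfl rfl]
    simp only
    linarith
  · rw [r2 _ rfl rfl rfl rfl]
    simp only
    linarith
  · rw [r2 _ rfl rfl rfl rfl]
    simp only
    linarith
  · rw [r3 _ rfl rfl]
    simp only
    rw [abs_le]
    constructor <;> linarith
  · rw [r3 _ rfl rfl]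
    simp only
    rw [abs_le]
    constructor <;> linarith
  · rw [r1 _ rfl rfl]
    simp only
    rw [abs_le]
    constructor <;> linarith
  · rw [r1 _ rfl rfl]
    exact hA.1
  · rw [r2 _ rfl rfl rfl rfl]
    exact hB.1
  · rw [r1 _ rfl rfl]
    simp only
    rcases hc : Nat.ble 800 ge with _ | _
    · exact hA.2.1 (by have := ble_ff hc; omega)
    · exact hA.2.2 (by have := Nat.le_of_ble_eq_true hc; omega)
  · rw [r2 _ rfl rfl rfl rfl]
    simp only
    rcases hc : Nat.ble 1600 (Nat.add gz ge) with _ | _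
    · exact hB.2.2 (by have h1 := ble_ff hc; have h2 : gz + ge < 1600 := h1; omega)
    · exact hB.2.1 (by have h1 := Nat.le_of_ble_eq_true hc; have h2 : 1600 ≤ gz + ge := h1; omega)

end Pool.Agent.S5.Z3
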