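import Pool.Agent.S5.I.BwP
import Pool.Agent.S5.I.TdL

/-!
# Monotonicity of the logarithm of the sine
-/

set_option autoImplicit false

namespace Pool.Agent.S5.Z3

open Pool.Agent.H63.VC3 Pool.Agent.S3 Complex Set

theorem Lg_mono2 {x x' s s' : ℝ} (h0 : 0 < x) (h1 : x ≤ x') (h2 : x' ≤ 1 / 2) (hs : |s| ≤ |s'|) :
    Lg s x ≤ Lg s' x' := by
  have hpi := Real.pi_pos
  rw [Lg_eq_log, Lg_eq_log]
  have c1 : Real.cos (2 * Real.pi * x') ≤ Real.cos (2 * Real.pi * x) :=
    Real.cos_le_cos_of_nonneg_of_le_pi (by positivity) (by nlinarith) (by nlinarith)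
  have c2 : Real.cos (2 * Real.pi * x) < 1 := by
    rw [← Real.cos_zero]
    exact Real.cos_lt_cos_of_nonneg_of_le_pi le_rfl (by nlinarith) (by positivity)
  have c3 : Real.cosh (2 * Real.pi * s) ≤ Real.cosh (2 * Real.pi * s') := by
    rw [Real.cosh_le_cosh, abs_mul (2 * Real.pi), abs_mul (2 * Real.pi)]
    exact mul_le_mul_of_nonneg_left hs (abs_nonneg _)
  have c4 := Real.one_le_cosh (2 * Real.pi * s)
  have h3 : dn s x ≤ dn s' x' := by
    unfold dn
    linarith
  have h4 : 0 < dn s x := by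
    unfold dn
    linarith
  have := Real.log_le_log (show 0 < 2 * dn s x by positivity)
    (show 2 * dn s x ≤ 2 * dn s' x' by linarith)
  linarith

/-- The imaginary part. -/
noncomputable def Th (x s : ℝ) : ℝ := (hh ((x : ℂ) + s * I)).im

theorem Th_neg {x : ℝ} (h0 : 0 < x) (h1 : x < 1) (s : ℝ) : Th x (-s) = -Th x s := by
  unfold Th
  have e : (x : ℂ) + ((-s : ℝ) : ℂ) * I = (starRingEnd ℂ) ((x : ℂ) + s * I) := by
    apply Complex.ext <;> simp
  rw [e, hh_conj _ (by simpa using h0) (by simpa using h1), conj_im]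

theorem Th_zero {x : ℝ} (h0 : 0 < x) (h1 : x < 1) : Th x 0 = 0 := by
  have := Th_neg h0 h1 0
  rw [neg_zero] at this
  linarith

theorem Th_mono {x s s' : ℝ} (h0 : 0 < x) (h1 : x ≤ 1 / 2) (hs : s ≤ s') : Th x s ≤ Th x s' := by
  have hm : Monotone fun s : ℝ => Th x s :=
    monotone_of_hasDerivAt_nonneg (fun s => hh_im_hasDerivAt_im h0 (by linarith) s)
      fun s => cot_re_nonneg h0.le h1 s
  exact hm hs

theorem Th_anti {x x' s : ℝ} (h0 : 0 < x) (h1 : x ≤ x') (h2 : x' ≤ 1 / 2) (hs : 0 ≤ s) :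
    Th x' s ≤ Th x s := by
  have hpi := Real.pi_pos
  have ha : AntitoneOn (fun x : ℝ => Th x s) (Icc x x') := by
    apply antitoneOn_of_deriv_nonpos (convex_Icc _ _)
    · intro y hy
      exact (hh_im_hasDerivAt_re (by linarith [hy.1]) (by linarith [hy.2]) s).continuousAt.continuousWithinAt
    · intro y hy
      have hy' := interior_subset hy
      exact (hh_im_hasDerivAt_re (by linarith [hy'.1]) (by linarith [hy'.2])
        s).differentiableAt.differentiableWithinAt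
    · intro y hy
      have hy' := interior_subset hy
      have hd := hh_im_hasDerivAt_re (x := y) (by linarith [hy'.1]) (by linarith [hy'.2]) s
      have : deriv (fun x : ℝ => Th x s) y = (Real.pi * cot (Real.pi * ((y : ℂ) + s * I))).im := hd.deriv
      rw [this, im_ofReal_mul, cot_im]
      have c1 : Real.cos (2 * Real.pi * y) ≤ 1 := Real.cos_le_one _
      have c2 := Real.one_le_cosh (2 * Real.pi * s)
      have c3 : 0 ≤ Real.sinh (2 * Real.pi * s) := Real.sinh_nonneg_iff.2 (by positivity)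
      have c4 : 0 ≤ Real.sinh (2 * Real.pi * s) /
          (Real.cosh (2 * Real.pi * s) - Real.cos (2 * Real.pi * y)) :=
        div_nonneg c3 (by linarith)
      have : -(Real.sinh (2 * Real.pi * s) /
          (Real.cosh (2 * Real.pi * s) - Real.cos (2 * Real.pi * y))) ≤ 0 := by linarith
      nlinarith
  exact ha ⟨le_rfl, h1⟩ ⟨h1, le_rfl⟩ h1

theorem Th_nonneg {x s : ℝ} (h0 : 0 < x) (h1 : x ≤ 1 / 2) (hs : 0 ≤ s) : 0 ≤ Th x s := by
  rw [← Th_zero h0 (by linarith)]
  exact Th_mono h0 h1 hs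

/-- Upper bound on a rectangle: `s ≤ s1`, `x` between `x0` and `x1`; `y = x0` if `0 ≤ s1`, `x1`
otherwise. -/
theorem Th_le {x s x0 x1 s1 y : ℝ} (h0 : 0 < x0) (h1 : x0 ≤ x) (h2 : x ≤ x1) (h3 : x1 ≤ 1 / 2)
    (hs : s ≤ s1) (hy : 0 ≤ s1 ∧ y = x0 ∨ s1 ≤ 0 ∧ y = x1) : Th x s ≤ Th y s1 := by
  refine (Th_mono (by linarith) (by linarith) hs).trans ?_
  rcases hy with ⟨h4, rfl⟩ | ⟨h4, rfl⟩
  · exact Th_anti h0 h1 (by linarith) h4
  · have e1 := Th_neg (x := x) (by linarith) (by linarith) s1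
    have e2 := Th_neg (x := y) (by linarith) (by linarith) s1
    have := Th_anti (s := -s1) (by linarith) h2 h3 (by linarith)
    rw [e1, e2] at this
    linarith

theorem Th_ge {x s x0 x1 s0 y : ℝ} (h0 : 0 < x0) (h1 : x0 ≤ x) (h2 : x ≤ x1) (h3 : x1 ≤ 1 / 2)
    (hs : s0 ≤ s) (hy : 0 ≤ s0 ∧ y = x1 ∨ s0 ≤ 0 ∧ y = x0) : Th y s0 ≤ Th x s := by
  refine le_trans ?_ (Th_mono (by linarith) (by linarith) hs)
  rcases hy with ⟨h4, rfl⟩ | ⟨h4, rfl⟩
  · exact Th_anti (by linarith) h2 h3 h4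
  · have e1 := Th_neg (x := x) (by linarith) (by linarith) s0
    have e2 := Th_neg (x := y) (by linarith) (by linarith) s0
    have := Th_anti (s := -s0) (by linarith) h1 (by linarith) (by linarith)
    rw [e1, e2] at this
    linarith

end Pool.Agent.S5.Z3
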