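import Pool.Agent.S5.Z.Par
import Pool.Agent.S5.I.NdC

/-!
# Ends with three half twists: the critical point
-/

set_option autoImplicit false

namespace Pool.Agent.S5.Z3

open Complex Pool.Agent.H63.VC Pool.Agent.H63.VC3 Pool.Agent.S3 Pool.Agent.S5.G
open scoped ComplexConjugate

theorem b3_of {q z : ℂ} (h : N3 0 q z) (hy : sy 0 z = 1 / 2) : B3 (zz3 0 q z) (sy q z) := by
  obtain ⟨-, -, e3⟩ := z3_slopes h
  rw [hy] at e3
  have h2 := abs_lt.1 h.g2
  exact ⟨e3, h2.1, h2.2, h.sr.sy_re.1, h.b0, h.g1.1, h.g1.2⟩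

theorem k3_of {s : Bool} {c q z : ℂ} (h : N3 0 q z) (hy : sy 0 z = 1 / 2) (hs : Sd s c q z)
    (hz : 3 * z = Real.pi + I * q) (hb : 0 < (kp s c).re)
    (hc : (cos z).im < 0) (hc0 : 0 < (cos z).re)
    (hl : 2 * (log (kp s c) - log (cos z)) = l3b (zz3 0 q z) (sy q z)) :
    B3.K3 (zz3 0 q z) (cos z) (kp s c) := by
  have hB := b3_of h hy
  have hl' : Real.pi * I * (4 * zz3 0 q z + 1) = 2 * (log (kp s c) - log (cos z)) := by
    rw [hl, hB.lam]
  refine ⟨?_, hc0, hc, hb, hl'⟩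
  have hcz : cos z ≠ 0 := hs.cz
  have hsz : sin z ≠ 0 := hs.sz
  have hb0 : kp s c ≠ 0 := fun h0 => by
    rw [h0] at hb
    simp at hb
  -- `b = I κ (4 κ² - 1)`
  have e1 : sinh q = I * sin (3 * z) := by
    rw [hz]
    have e2 : sin (Real.pi + I * q) = -sin (I * q) := by
      rw [add_comm, sin_add_pi]
    rw [e2, mul_comm I q, sin_mul_I]
    linear_combination (sinh q) * I_mul_I
  have e3 : kp s c = I * cos z * (4 * cos z ^ 2 - 1) := by
    have e4 := hs.sn
    rw [e1, tan_eq_sin_div_cos, sin_three_mul] at e4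
    have e5 := sin_sq_add_cos_sq z
    field_simp at e4
    linear_combination (-1) * e4 - 4 * I * cos z * e5
  have e7 : exp (Real.pi * I * (4 * zz3 0 q z + 1) / 2) = kp s c / cos z := by
    rw [hl', show 2 * (log (kp s c) - log (cos z)) / 2 = log (kp s c) - log (cos z) by ring,
      exp_sub, exp_log hb0, exp_log hcz]
  have e8 : exp (Real.pi * I * (4 * zz3 0 q z + 1) / 2) = exp (2 * Real.pi * I * zz3 0 q z) * I := by
    rw [show Real.pi * I * (4 * zz3 0 q z + 1) / 2 = 2 * Real.pi * I * zz3 0 q z +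
      -(-(Real.pi * I / 2)) by ring, exp_add, exp_neg (-(Real.pi * I / 2)), B3.expI, inv_neg, inv_I]
    ring
  rw [e8] at e7
  have e9 : kp s c / cos z = I * (4 * cos z ^ 2 - 1) := by
    rw [e3]
    field_simp
  rw [e9] at e7
  have hI := I_mul_I
  linear_combination (-I) * e7 + (exp (2 * Real.pi * I * zz3 0 q z) - (4 * cos z ^ 2 - 1)) * hI

variable {m : ℕ} {a : ℕ → ℕ} {S fl : ℕ → Bool} {z ql qr : ℕ → ℂ} {r : ℕ → ℤ} {K : Cn m}

/-- The end of the chain: the slots, the critical point. -/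
structure End (m : ℕ) (a : ℕ → ℕ) (S fl : ℕ → Bool) (z ql qr : ℕ → ℂ) (r : ℕ → ℤ) (i : ℕ)
    (s : Bool) (c : ℂ) (x : Nt) (z1 : ℝ) : Prop where
  ex : (slB m a S fl z ql qr i).ex = false
  ys : (slB m a S fl z ql qr i).ys = 1 / 2
  sO : slO m a S fl z ql qr i = ⟨true, s, x, z1, (slO m a S fl z ql qr i).ys,
    l3b (oF m r fl z ql qr i) (slO m a S fl z ql qr i).ys⟩
  B : B3 (oF m r fl z ql qr i) (slO m a S fl z ql qr i).ys
  K : B3.K3 (oF m r fl z ql qr i) (cos (z i)) (kp s c)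

theorem oF_three (i : ℕ) (h3 : (r i).natAbs = 3) :
    oF m r fl z ql qr i = zz3 (qB' fl ql qr i) (qO' fl ql qr i) (z i) := by
  have ht : tyG m r i = Ty.zn := tyG_three h3
  unfold oF
  rw [ht]
  exact if_pos h3

theorem end_left (h : HG m a S fl z ql qr r K) (hm : 1 ≤ m) (ha : a 0 = 3) (hf : fl 0 = false) :
    End m a S fl z ql qr r 0 (S 0) (cos (z 1)) (ntG m a 1) (z1O m a S 1) := by
  have hi : 0 ≤ m := Nat.zero_le m
  have hO := h.bx.three 0 hi ha
  have hab := h.abs 0 hi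
  have hn3 : (r 0).natAbs = 3 := by omega
  have ho := oF_three (m := m) (fl := fl) (z := z) (ql := ql) (qr := qr) 0 hn3
  have qB : qB' fl ql qr 0 = 0 := by
    unfold qB'
    rw [hf]
    exact h.crt.l0
  have qO : qO' fl ql qr 0 = qr 0 := by
    unfold qO'
    rw [hf]
    rfl
  have heq := h.crt.eq 0 hi
  rw [ha, h.crt.l0] at heq
  have hz : 3 * z 0 = Real.pi + I * (0 + qr 0) := by
    push_cast at heq
    linear_combination heq
  have hz' : 3 * z 0 = Real.pi + I * qr 0 := by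
    rw [hz, zero_add]
  have hO' : O3 (qB' fl ql qr 0) (qO' fl ql qr 0) := hO
  rw [qB, qO] at hO'
  have hN := hO'.N3 hz
  have hy : sy 0 (z 0) = 1 / 2 := sy_zero (h.crt.zre 0 hi).1 (h.crt.zre 0 hi).2 (h.crt.zim 0 hi)
  have b1 : slB m a S fl z ql qr 0 = slL m a S z ql 0 := if_neg (by rw [hf]; simp)
  have b2 : slO m a S fl z ql qr 0 = slR m a S z qr 0 := if_neg (by rw [hf]; simp)
  have hex : (slR m a S z qr 0).ex = true := decide_eq_true (by omega)
  have hys : (slO m a S fl z ql qr 0).ys = sy (qr 0) (z 0) := by rw [b2]; rfl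
  have hlam : (slR m a S z qr 0).lam = l3b (zz3 0 (qr 0) (z 0)) (sy (qr 0) (z 0)) :=
    (h.slR_lam hex).trans (z3_slopes hN).2.1
  obtain ⟨c1, c2, c3⟩ := h.crt.cosz 0 hi
  have hka := h.karg (S 0) 1 hm
  have hkp : 0 < (kp (S 0) (cos (z 1))).re := by
    obtain ⟨d1, -, -⟩ := h.crt.cosz 1 hm
    cases S 0
    · rw [kp_false, conj_re]
      exact d1
    · rw [kp_true]
      exact d1
  refine ⟨?_, ?_, ?_, ?_, ?_⟩
  · rw [b1]
    rfl
  · rw [b1]
    exact h.slL_zero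
  · rw [hys, ho, qB, qO, ← hlam, b2]
    unfold slR
    rw [decide_eq_true (by omega : 0 < m)]
  · rw [hys, ho, qB, qO]
    exact b3_of hN hy
  · rw [ho, qB, qO]
    exact k3_of hN hy (h.sdr 0 (by omega)) hz' hkp c2 c1 hlam

theorem end_right (h : HG m a S fl z ql qr r K) (hm : 1 ≤ m) (ha : a m = 3) (hf : fl m = true) :
    End m a S fl z ql qr r m (S (m - 1)) (cos (z (m - 1))) (ntG m a (m - 1))
      (z1O m a S (m - 1)) := by
  obtain ⟨k, rfl⟩ : ∃ k, m = k + 1 := ⟨m - 1, by omega⟩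
  have hi : k + 1 ≤ k + 1 := le_rfl
  have hO := h.bx.three (k + 1) hi ha
  have hab := h.abs (k + 1) hi
  have hn3 : (r (k + 1)).natAbs = 3 := by omega
  have ho := oF_three (m := k + 1) (fl := fl) (z := z) (ql := ql) (qr := qr) (k + 1) hn3
  have qB : qB' fl ql qr (k + 1) = 0 := by
    unfold qB'
    rw [hf]
    exact h.crt.rR
  have qO : qO' fl ql qr (k + 1) = ql (k + 1) := by
    unfold qO'
    rw [hf]
    rfl
  have heq := h.crt.eq (k + 1) hi
  rw [ha, h.crt.rR] at heq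
  have hz : 3 * z (k + 1) = Real.pi + I * (0 + ql (k + 1)) := by
    push_cast at heq
    linear_combination heq
  have hz' : 3 * z (k + 1) = Real.pi + I * ql (k + 1) := by
    rw [hz, zero_add]
  have hO' : O3 (qB' fl ql qr (k + 1)) (qO' fl ql qr (k + 1)) := hO
  rw [qB, qO] at hO'
  have hN := hO'.N3 hz
  have hy : sy 0 (z (k + 1)) = 1 / 2 :=
    sy_zero (h.crt.zre (k + 1) hi).1 (h.crt.zre (k + 1) hi).2 (h.crt.zim (k + 1) hi)
  have b1 : slB (k + 1) a S fl z ql qr (k + 1) = slR (k + 1) a S z qr (k + 1) := if_pos hf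
  have b2 : slO (k + 1) a S fl z ql qr (k + 1) = slL (k + 1) a S z ql (k + 1) := if_pos hf
  have hex : (slL (k + 1) a S z ql (k + 1)).ex = true := rfl
  have hys : (slO (k + 1) a S fl z ql qr (k + 1)).ys = sy (ql (k + 1)) (z (k + 1)) := by
    rw [b2]; rfl
  have hlam : (slL (k + 1) a S z ql (k + 1)).lam =
      l3b (zz3 0 (ql (k + 1)) (z (k + 1))) (sy (ql (k + 1)) (z (k + 1))) :=
    (h.slL_lam hi hex).trans (z3_slopes hN).2.1
  obtain ⟨c1, c2, c3⟩ := h.crt.cosz (k + 1) hi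
  have hkp : 0 < (kp (S k) (cos (z k))).re := by
    obtain ⟨d1, -, -⟩ := h.crt.cosz k (by omega)
    cases S k
    · rw [kp_false, conj_re]
      exact d1
    · rw [kp_true]
      exact d1
  refine ⟨?_, ?_, ?_, ?_, ?_⟩
  · rw [b1]
    exact decide_eq_false (by omega)
  · rw [b1]
    exact h.slR_last
  · rw [hys, ho, qB, qO, ← hlam, b2]
    rfl
  · rw [hys, ho, qB, qO]
    exact b3_of hN hy
  · rw [ho, qB, qO]
    exact k3_of hN hy (h.sdl k (by omega)) hz' hkp c2 c1 hlam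

end Pool.Agent.S5.Z3
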