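import Pool.Agent.S5.Z.Brw
import Pool.Agent.S5.Z.MkD

/-!
# Ends with three half twists: the outer loop
-/

set_option autoImplicit false

namespace Pool.Agent.S5.Z3

open Pool.Agent.H63.VC3 Pool.Agent.S3 Complex Set Pool.Agent.S5.Num

/-- A piece of the edge. -/
theorem bgo_sound (hE : Tb.TabOK6) {zs bs lam : ℂ} (hF : F3 zs bs lam) {d : Dt} (hd : DOK d zs bs)
    {m : ℕ} (hm : m = 0 ∨ m = 1) {r f ws wc : ℤ} (hf : f = 0 ∨ f = 1) {fl F : Bool}
    (hfl : fl = true → f = 0 ∧ ws = 0 ∧ wc = 0) {pc : Pc} {a1 b1 a2 b2 : ℕ} {zl : List Zp}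
    {k : List Zp → Bool} (h : bgo d r m fl F f ws wc a1 b1 a2 b2 zl k = true) :
    ∃ rem, k rem = true ∧ ∀ zp ∈ zl, zp ∈ rem ∨ ∀ (z b : ℂ) (w wz : ℝ), ZIn zs.im z wz zp →
      (zp = .B → 0 ≤ b.re + z.re) → BFt bs pc fl F f ws wc a1 b1 a2 b2 b w →
      Cx zs bs z b F zp m f ws wc r wz := by
  unfold bgo at h
  rw [fI_eq] at h
  cases fl
  · have h' : bnf d m (m + 1) f ws wc a1 b1 a2 b2 (fun N0 N1 N2 => fI (fun N =>
      zlp d false m (Nat.succ m) (Nat.add 3 (Nat.add m m)) 0 N N1 N2 a1 b1 a2 b2 zl k) (N0 + _)) =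
        true := h
    obtain ⟨N0, N1, N2, g, h'⟩ := bnf_sound h' (by rcases hm with rfl | rfl <;> simp) hf
    rw [fI_eq] at h'
    obtain ⟨rem, q1, q2⟩ := zlp_sound hE hF hd (ws := ws) (wc := wc) hm hf h'
    refine ⟨rem, q1, fun zp hzp => (q2 zp hzp).imp id ?_⟩
    intro q z b w wz hz hzB hb
    have hc := hb.c
    have := q z b wz hz hzB ⟨hc.g1, hc.g2, hc.i1, hc.i2, by simp⟩ ⟨by
      have g1 := hc.g1
      have g2 := hc.g2
      have := g (-(25600 * zs.re)) (25600 * bs.re) (25600 * bs.im) (25600 * b.re) (25600 * b.im)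
        hd.Y0 hd.Y1 hd.T0 hd.T1 hd.E0 hd.E1 (by linarith [g1.1]) (by linarith [g1.2])
        (by linarith [g2.1]) (by linarith [g2.2])
      push_cast at this ⊢
      linarith, by norm_num⟩
    rcases this with this | ⟨h0, -⟩
    · exact Or.inl this
    · exact absurd h0 (by simp)
  · obtain ⟨rfl, rfl, rfl⟩ := hfl rfl
    have h' : bfl d m (m + 1) (fun N0 N1 N2 => fI (fun N => zlp d F m (Nat.succ m)
      (Nat.add 3 (Nat.add m m)) m N N1 N2 a1 b1 a2 b2 zl k) (N0 + _)) = true := h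
    unfold bfl at h'
    simp only [fI_eq] at h'
    obtain ⟨rem, q1, q2⟩ := zlp_sound hE hF hd (f := 0) (ws := 0) (wc := 0) hm (Or.inl rfl) h'
    refine ⟨rem, q1, fun zp hzp => (q2 zp hzp).imp id ?_⟩
    intro q z b w wz hz hzB hb
    refine q z b wz hz hzB hb.c ⟨?_, by rcases hm with rfl | rfl <;> simp⟩
    have e := hb.fl rfl
    rw [e]
    have := BP_flat (m : ℝ) d.y d.u d.h d.ta d.sg (-(25600 * zs.re)) (25600 * bs.re)
      (25600 * bs.im) (25600 * b.re)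
    push_cast
    rw [this]
    apply le_of_eq
    ring

/-- The statement of a row. -/
def RowP (S : Bool) (x : Nt) (zs bs : ℂ) (pc : Pc) (up : Bool) (zp : Zp) : Prop :=
  ∀ (z b : ℂ) (w wz : ℝ), ZIn zs.im z wz zp → (zp = .B → 0 ≤ b.re + z.re) →
    BIn bs.im pc up b w →
    Ez3 (1 / 2) zs bs (1 / 2) z b + slE S ⟨3, true⟩ x pc (Real.pi * I * (4 * zs + 1)) bs b w < wz ∨
      (pc = .F ∧ zp = .F ∧ 0 < zs.re + bs.re ∧ -(zs.re + bs.re) ≤ z.re + b.re ∧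
        z.re + b.re ≤ 1 - (zs.re + bs.re))

theorem Cc_slE {S : Bool} {x : Nt} {zs bs z b : ℂ} {pc : Pc} {m : ℕ} {f ws wc r : ℤ} {w wz : ℝ}
    (hm : d0 S ⟨3, true⟩ x pc - d0 S x ⟨3, true⟩ pc.mir = m)
    (hr : r0 S ⟨3, true⟩ x pc - r0 S x ⟨3, true⟩ pc.mir = r)
    (hw : |-(w / 2) * 1048576 - (ws * (25600 * b.im) + wc) / 655360000| ≤ 1 / 2)
    (he : b - pc.eff b = (f : ℂ) * (b.im * I)) (hC : Cc zs bs z b m f ws wc r wz) :
    Ez3 (1 / 2) zs bs (1 / 2) z b + slE S ⟨3, true⟩ x pc (Real.pi * I * (4 * zs + 1)) bs b w <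
      wz := by
  unfold Cc at hC
  unfold slE
  have e1 : dT S ⟨3, true⟩ x pc = m := by
    unfold dT
    rw [hm]
    simp
  have e2 : hT S ⟨3, true⟩ x pc = (r : ℝ) / 100 := by
    unfold hT
    rw [hr]
  have e3 : ((Real.pi * I * (4 * zs + 1)) * (b - pc.eff b)).re =
      -(f * (Real.pi * (4 * zs.re + 1) * b.im)) := by
    rw [he]
    have : (Real.pi : ℂ) * I * (4 * zs + 1) * ((f : ℂ) * (b.im * I)) =
        ((f * (Real.pi * b.im) : ℝ) : ℂ) * (I * I * (4 * zs + 1)) := by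
      push_cast
      ring
    rw [this, I_mul_I, re_ofReal_mul]
    simp only [neg_mul, one_mul, neg_re, add_re, mul_re, re_ofNat, im_ofNat, zero_mul, sub_zero, one_re]
    ring
  rw [e1, e2, e3]
  have hw' := (abs_le.1 hw).2
  have : (ws * (25600 * b.im) + wc - 6871947673600 * (r : ℝ)) / 655360000 =
      (ws * (25600 * b.im) + wc) / 655360000 - 1048576 * (r / 100) := by
    ring
  rw [this] at hC
  linarith

theorem bpk_sound (hE : Tb.TabOK6) {zs bs lam : ℂ} (hF : F3 zs bs lam) {d : Dt} (hd : DOK d zs bs)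
    {S : Bool} {x : Nt} {pc : Pc} {up : Bool} {zl : List Zp} {k : List Zp → Bool}
    (h : bpk S x d pc up zl k = true) :
    ∃ rem, k rem = true ∧ ∀ zp ∈ zl, zp ∈ rem ∨ RowP S x zs bs pc up zp := by
  unfold bpk at h
  simp only [fI_eq] at h
  rcases cond_cases h with ⟨he, h⟩ | ⟨-, h⟩
  swap
  · exact absurd h (by simp)
  rw [fN_eq] at h
  rcases cond_cases he with ⟨h0, h1⟩ | ⟨-, h1⟩
  swap
  · exact absurd h1 (by simp)
  have h0 := leI_sound h0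
  have h1 := leI_sound h1
  have h0 : 0 ≤ d0 S ⟨3, true⟩ x pc - d0 S x ⟨3, true⟩ pc.mir := by exact_mod_cast h0
  have h1 : d0 S ⟨3, true⟩ x pc - d0 S x ⟨3, true⟩ pc.mir ≤ 1 := by exact_mod_cast h1
  have hm : d0 S ⟨3, true⟩ x pc - d0 S x ⟨3, true⟩ pc.mir =
      (Int.toNat (d0 S ⟨3, true⟩ x pc - d0 S x ⟨3, true⟩ pc.mir) : ℕ) := by
    omega
  set m := Int.toNat (d0 S ⟨3, true⟩ x pc - d0 S x ⟨3, true⟩ pc.mir) with hmm
  have hm01 : m = 0 ∨ m = 1 := by omega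
  rcases bps_sound hd h with ⟨hs, hn⟩ | ⟨fl, F, f, ws, wc, a1, b1, a2, b2, hk, hf, hfl, hFF, hb⟩
  · refine ⟨[], hs, fun zp _ => Or.inr ?_⟩
    intro z b w wz _ _ hB
    exact absurd hB (hn b w)
  · obtain ⟨rem, q1, q2⟩ := bgo_sound hE hF hd hm01 hf hfl (pc := pc) hk
    refine ⟨rem, q1, fun zp hzp => (q2 zp hzp).imp id ?_⟩
    intro q z b w wz hz hzB hB
    have hbf := hb b w hB
    rcases q z b w wz hz hzB hbf with hC | ⟨c1, c2, c3, c4, c5⟩
    · exact Or.inl (Cc_slE hm rfl hbf.w1 hbf.ef hC)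
    · exact Or.inr ⟨hFF c1, c2, c3, c4, c5⟩

theorem blp_sound (hE : Tb.TabOK6) {zs bs lam : ℂ} (hF : F3 zs bs lam) {d : Dt} (hd : DOK d zs bs)
    {S : Bool} {x : Nt} : ∀ {l : List Rw} {k : List Rw → Bool}, blp S x d l k = true →
    ∃ rem, k rem = true ∧ ∀ q ∈ l, ∀ zp ∈ q.zl, RowP S x zs bs q.pc q.up zp ∨
      ∃ q' ∈ rem, q'.pc = q.pc ∧ q'.up = q.up ∧ zp ∈ q'.zl
  | [], k, h => ⟨[], h, by simp⟩
  | q :: l, k, h => by
    unfold blp at h
    obtain ⟨rem, h1, h2⟩ := bpk_sound hE hF hd h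
    cases rem with
    | nil =>
      obtain ⟨rem, g1, g2⟩ := blp_sound hE hF hd h1
      refine ⟨rem, g1, ?_⟩
      intro q' hq' zp hzp
      rcases List.mem_cons.1 hq' with rfl | hq'
      · rcases h2 zp hzp with h3 | h3
        · exact absurd h3 (by simp)
        · exact Or.inl h3
      · exact g2 q' hq' zp hzp
    | cons z t =>
      obtain ⟨rem, g1, g2⟩ := blp_sound hE hF hd h1
      refine ⟨_, g1, ?_⟩
      intro q' hq' zp hzp
      rcases List.mem_cons.1 hq' with rfl | hq'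
      · rcases h2 zp hzp with h3 | h3
        · exact Or.inr ⟨_, List.mem_cons_self, rfl, rfl, h3⟩
        · exact Or.inl h3
      · rcases g2 q' hq' zp hzp with h3 | ⟨q'', h3, h4⟩
        · exact Or.inl h3
        · exact Or.inr ⟨q'', List.mem_cons_of_mem _ h3, h4⟩

/-- The data at the critical point. -/
structure Cp (zs bs lam : ℂ) (lb la ab aa : ℝ) : Prop where
  F : F3 zs bs lam
  E : Eq3 (-zs.re) zs.im bs.re bs.im lb la ab aa

theorem out_sound (hT : Tb.TabOK6) {S : Bool} {x : Nt} {c : RC} {zs bs lam : ℂ}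
    {lb la ab aa : ℝ} (hC : Cp zs bs lam lb la ab aa) (hc : RcOK c lb la ab aa) :
    ∀ (n : ℕ) {Y0 Y1 Z0 Z1 : ℕ} {l : List Rw}, out S x c n Y0 Y1 Z0 Z1 l = true →
      InRc Y0 Y1 Z0 Z1 (-zs.re) zs.im → Rk Y1 Z0 Z1 → ∀ q ∈ l, ∀ zp ∈ q.zl,
        RowP S x zs bs q.pc q.up zp
  | 0, _, _, _, _, _, h, _, _ => absurd h (by simp [out])
  | n + 1, Y0, Y1, Z0, Z1, l, h, hI, hR => by
    unfold out at h
    obtain ⟨⟨e0, e1, t0, t1, g1, g2, g3, g4, h⟩⟩ := etR_sound h hC.E hI hR hC.F.b0.le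
      (by linarith [hC.F.b1])
    obtain ⟨d, hd, h⟩ := mkD_sound hT h hI hR g1 g2 g3 g4 hC.F.b0 hC.F.b1
    obtain ⟨rem, h, h1⟩ := blp_sound hT hC.F hd h
    intro q hq zp hzp
    rcases h1 q hq zp hzp with h2 | ⟨q', h2, h3, h4, h5⟩
    · exact h2
    rw [← h3, ← h4]
    cases rem with
    | nil => exact absurd h2 (by simp)
    | cons q0 t0 =>
      have key : ∀ {a b a' b' : ℕ}, InRc a b a' b' (-zs.re) zs.im → Rk b a' b' →
          rfn c a b a' b' (fun a b a' b' => out S x c n a b a' b' (q0 :: t0)) = true →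
          RowP S x zs bs q'.pc q'.up zp := by
        intro a b a' b' hI' hR' hr
        obtain ⟨⟨y0, y1, z0, z1, i1, i2, i3, i4, i5, i6⟩⟩ := rfn_sound hr hC.E hc hI' hR'
        refine out_sound hT hC hc n i6 i1 ⟨?_, ?_, ?_⟩ q' h2 zp h5
        · have := hR'.y1; omega
        · have := hR'.z0; omega
        · have := hR'.z1; omega
      have y1 := hR.y1
      have z0 := hR.z0
      have z1 := hR.z1
      have w1 : (Y0 : ℝ) ≤ Y1 := hI.y0.trans hI.y1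
      have w2 : (Z0 : ℝ) ≤ Z1 := hI.z0.trans hI.z1
      have w1' : Y0 ≤ Y1 := by exact_mod_cast w1
      have w2' : Z0 ≤ Z1 := by exact_mod_cast w2
      rcases cond_cases h with ⟨-, h⟩ | ⟨-, h⟩
      · rw [fN_eq] at h
        rcases cond_cases h with ⟨ha, hb⟩ | ⟨-, hb⟩
        swap
        · exact absurd hb (by simp)
        have hm : Nat.div (Nat.add Z0 Z1) 2 = (Z0 + Z1) / 2 := rfl
        rcases le_total (ps zs.im) ((Nat.div (Nat.add Z0 Z1) 2 : ℕ) : ℝ) with hh | hh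
        · exact key ⟨hI.y0, hI.y1, hI.z0, hh⟩ ⟨y1, z0, by rw [hm]; omega⟩ ha
        · exact key ⟨hI.y0, hI.y1, hh, hI.z1⟩ ⟨y1, by rw [hm]; omega, z1⟩ hb
      · rw [fN_eq] at h
        rcases cond_cases h with ⟨ha, hb⟩ | ⟨-, hb⟩
        swap
        · exact absurd hb (by simp)
        have hm : Nat.div (Nat.add Y0 Y1) 2 = (Y0 + Y1) / 2 := rfl
        rcases le_total (-zs.re * 25600) ((Nat.div (Nat.add Y0 Y1) 2 : ℕ) : ℝ) with hh | hh
        · exact key ⟨hI.y0, hh, hI.z0, hI.z1⟩ ⟨by rw [hm]; omega, z0, z1⟩ ha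
        · exact key ⟨hh, hI.y1, hI.z0, hI.z1⟩ ⟨y1, z0, z1⟩ hb

theorem rfi_sound {c : RC} {y s t h lb la ab aa : ℝ} (hE : Eq3 y s t h lb la ab aa)
    (hc : RcOK c lb la ab aa) : ∀ (n : ℕ) {Y0 Y1 Z0 Z1 : ℕ} {k : ℕ → ℕ → ℕ → ℕ → Bool},
      rfi c n Y0 Y1 Z0 Z1 k = true → InRc Y0 Y1 Z0 Z1 y s → Rk Y1 Z0 Z1 →
      ∃ y0 y1 z0 z1 : ℕ, InRc y0 y1 z0 z1 y s ∧ Rk y1 z0 z1 ∧ k y0 y1 z0 z1 = true
  | 0, _, _, _, _, _, hk, hI, hR => ⟨_, _, _, _, hI, hR, hk⟩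
  | n + 1, Y0, Y1, Z0, Z1, k, hk, hI, hR => by
    unfold rfi at hk
    obtain ⟨⟨y0, y1, z0, z1, i1, i2, i3, i4, i5, i6⟩⟩ := rfn_sound hk hE hc hI hR
    refine rfi_sound hE hc n i6 i1 ⟨?_, ?_, ?_⟩
    · have := hR.y1; omega
    · have := hR.z0; omega
    · have := hR.z1; omega

end Pool.Agent.S5.Z3
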