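import Pool.Agent.S5.Z.CertA
import Pool.Agent.S5.I.FrmB

/-!
# Ends with three half twists: the parameters
-/

set_option autoImplicit false

namespace Pool.Agent.S5.Z3

open Pool.Agent.H63.VC3 Pool.Agent.S3 Complex Set

theorem two_sin (w : ℂ) : 2 * sin w = I * (exp (-(w * I)) - exp (w * I)) := by
  rw [Complex.sin, neg_mul]
  ring

/-- The basic facts. -/
structure B3 (zs bs : ℂ) : Prop where
  hl : l3z (1 / 2) zs bs = 0
  z0 : -(1 / 2) < zs.re
  z1 : zs.re < 1 / 2
  b0 : 0 < bs.re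
  b1 : bs.re < 1 / 2
  s0 : 0 < (zs + bs).re
  s1 : (zs + bs).re < 1

namespace B3

variable {zs bs : ℂ}

theorem hB (h : B3 zs bs) : hh (zs + bs) = Real.pi * I * (bs - zs - 1 / 2) := by
  have h1 := h.hl
  unfold l3z at h1
  rw [hh_half_sub zs] at h1
  linear_combination -h1

theorem expI : exp (-(Real.pi * I / 2)) = -I := by
  rw [show -((Real.pi : ℂ) * I / 2) = (-(Real.pi / 2 : ℝ) : ℂ) * I by push_cast; ring, exp_mul_I]
  simp

/-- `exp (2 π i z) = 1 + exp (-2 π i b)`. -/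
theorem rel (h : B3 zs bs) : exp (2 * Real.pi * I * zs) = 1 + exp (-(2 * Real.pi * I * bs)) := by
  have h1 := hh_exp (zs + bs) h.s0 h.s1
  rw [h.hB, two_sin] at h1
  set u := exp (Real.pi * I * zs) with hu
  set v := exp (Real.pi * I * bs) with hv
  have hu0 : u ≠ 0 := exp_ne_zero _
  have hv0 : v ≠ 0 := exp_ne_zero _
  have e1 : exp (Real.pi * I * (bs - zs - 1 / 2)) = v * u⁻¹ * (-I) := by
    rw [show Real.pi * I * (bs - zs - 1 / 2) = Real.pi * I * bs + -(Real.pi * I * zs) +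
      -(Real.pi * I / 2) by ring, exp_add, exp_add, exp_neg (Real.pi * I * zs), expI]
  have e2 : exp (-(Real.pi * (zs + bs) * I)) = u⁻¹ * v⁻¹ := by
    rw [show -(Real.pi * (zs + bs) * I) = -(Real.pi * I * zs) + -(Real.pi * I * bs) by ring,
      exp_add, exp_neg, exp_neg]
  have e3 : exp (Real.pi * (zs + bs) * I) = u * v := by
    rw [show Real.pi * (zs + bs) * I = Real.pi * I * zs + Real.pi * I * bs by ring, exp_add]
  have e4 : exp (2 * Real.pi * I * zs) = u ^ 2 := by
    rw [show 2 * Real.pi * I * zs = Real.pi * I * zs + Real.pi * I * zs by ring, exp_add, ← hu]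
    ring
  have e5 : exp (-(2 * Real.pi * I * bs)) = (v ^ 2)⁻¹ := by
    rw [exp_neg, show 2 * Real.pi * I * bs = Real.pi * I * bs + Real.pi * I * bs by ring, exp_add,
      ← hv]
    ring
  rw [e1, e2, e3] at h1
  rw [e4, e5]
  have hI := I_mul_I
  have h2 : v * u⁻¹ * (-I) * (I * u * v) = I * (u⁻¹ * v⁻¹ - u * v) * (I * u * v) := by rw [h1]
  have h3 : v * u⁻¹ * (-I) * (I * u * v) = v ^ 2 := by
    have : v * u⁻¹ * (-I) * (I * u * v) = -(I * I) * v ^ 2 * (u⁻¹ * u) := by ring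
    rw [this, hI, inv_mul_cancel₀ hu0]
    ring
  have h4 : I * (u⁻¹ * v⁻¹ - u * v) * (I * u * v) = -1 + u ^ 2 * v ^ 2 := by
    have : I * (u⁻¹ * v⁻¹ - u * v) * (I * u * v) =
        (I * I) * ((u⁻¹ * u) * (v⁻¹ * v)) - (I * I) * (u ^ 2 * v ^ 2) := by ring
    rw [this, hI, inv_mul_cancel₀ hu0, inv_mul_cancel₀ hv0]
    ring
  rw [h3, h4] at h2
  have hv2 : v ^ 2 ≠ 0 := pow_ne_zero 2 hv0
  field_simp
  linear_combination -h2

/-- Two logarithms. -/
theorem log_eq {u v : ℂ} (h : exp u = exp v) (h1 : |u.im - v.im| < 2 * Real.pi) : u = v := by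
  obtain ⟨n, hn⟩ := exp_eq_exp_iff_exists_int.1 h
  have h2 : u.im - v.im = n * (2 * Real.pi) := by
    rw [hn]
    simp
  have hpi := Real.pi_pos
  have h3 : |(n : ℝ)| < 1 := by
    rw [h2, abs_mul, abs_of_pos (by positivity : 0 < 2 * Real.pi)] at h1
    by_contra hc
    push Not at hc
    nlinarith
  have h4 : n = 0 := by
    have h5 : |n| < 1 := by exact_mod_cast h3
    exact Int.abs_lt_one_iff.1 h5
  rw [hn, h4]
  simp

theorem im_piI (w : ℂ) : (Real.pi * I * w).im = Real.pi * w.re := by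
  simp

theorem re_piI (w : ℂ) : (Real.pi * I * w).re = -(Real.pi * w.im) := by
  simp

theorem hA (h : B3 zs bs) : hh (1 / 2 - bs) = Real.pi * I * (2 * zs + bs) := by
  have hpi := Real.pi_pos
  have r0 : ((1 : ℂ) / 2 - bs).re = 1 / 2 - bs.re := by simp
  have p0 : 0 < ((1 : ℂ) / 2 - bs).re := by rw [r0]; linarith [h.b1]
  have p1 : ((1 : ℂ) / 2 - bs).re < 1 := by rw [r0]; linarith [h.b0]
  apply log_eq
  · rw [hh_exp _ p0 p1, two_sin]
    set u := exp (Real.pi * I * zs) with hu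
    set v := exp (Real.pi * I * bs) with hv
    have hv0 : v ≠ 0 := exp_ne_zero _
    have e1 : exp (-(Real.pi * (1 / 2 - bs) * I)) = -I * v := by
      rw [show -(Real.pi * (1 / 2 - bs) * I) = -(Real.pi * I / 2) + Real.pi * I * bs by ring,
        exp_add, expI]
    have e2 : exp (Real.pi * (1 / 2 - bs) * I) = I * v⁻¹ := by
      rw [show Real.pi * (1 / 2 - bs) * I = Real.pi * I / 2 + -(Real.pi * I * bs) by ring,
        exp_add, exp_neg (Real.pi * I * bs)]
      have : exp (Real.pi * I / 2) = I := by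
        have h1 := expI
        rw [exp_neg] at h1
        have h2 : exp (Real.pi * I / 2) = (-I)⁻¹ := by rw [← h1, inv_inv]
        rw [h2]
        rw [inv_neg, inv_I]
        ring
      rw [this]
    have e3 : exp (Real.pi * I * (2 * zs + bs)) = u ^ 2 * v := by
      rw [show Real.pi * I * (2 * zs + bs) = Real.pi * I * zs + Real.pi * I * zs +
        Real.pi * I * bs by ring, exp_add, exp_add]
      ring
    have e4 : exp (2 * Real.pi * I * zs) = u ^ 2 := by
      rw [show 2 * Real.pi * I * zs = Real.pi * I * zs + Real.pi * I * zs by ring, exp_add, ← hu]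
      ring
    have e5 : exp (-(2 * Real.pi * I * bs)) = (v ^ 2)⁻¹ := by
      rw [exp_neg, show 2 * Real.pi * I * bs = Real.pi * I * bs + Real.pi * I * bs by ring, exp_add,
        ← hv]
      ring
    have h1 := h.rel
    rw [e4, e5] at h1
    rw [e1, e2, e3, h1]
    have hI := I_mul_I
    have hv2 : v ^ 2 ≠ 0 := pow_ne_zero 2 hv0
    have e6 : (v ^ 2)⁻¹ * v = v⁻¹ := by
      field_simp
    rw [add_mul, e6]
    linear_combination (-(v + v⁻¹)) * hI
  · have h1 := Pool.Agent.S5.G.hh_im_lt p0 p1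
    rw [im_piI]
    have e : (2 * zs + bs).re = zs.re + (zs + bs).re := by
      simp
      ring
    rw [e]
    have := h1
    rw [abs_lt]
    constructor <;> nlinarith [h.z0, h.z1, h.s0, h.s1]

/-- The slope. -/
theorem lam (h : B3 zs bs) : l3b zs bs = Real.pi * I * (4 * zs + 1) := by
  unfold l3b
  rw [h.hA, h.hB]
  ring

/-- The relation between the vertex and its neighbour. -/
structure K3 (zs κ b : ℂ) : Prop where
  e1 : exp (2 * Real.pi * I * zs) = 4 * κ ^ 2 - 1
  k0 : 0 < κ.re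
  k1 : κ.im < 0
  b0 : 0 < b.re
  lm : Real.pi * I * (4 * zs + 1) = 2 * (log b - log κ)

/-- The own number of the vertex. -/
theorem own (h : B3 zs bs) {κ b : ℂ} (k : K3 zs κ b) :
    2 * log κ = Real.pi * I * zs + hh (1 / 2 - zs) - 2 * (Real.log 2 : ℂ) := by
  have hpi := Real.pi_pos
  have r0 : ((1 : ℂ) / 2 - zs).re = 1 / 2 - zs.re := by simp
  have p0 : 0 < ((1 : ℂ) / 2 - zs).re := by rw [r0]; linarith [h.z1]
  have p1 : ((1 : ℂ) / 2 - zs).re < 1 := by rw [r0]; linarith [h.z0]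
  have hκ : κ ≠ 0 := fun h0 => by
    have := k.k0
    rw [h0] at this
    simp at this
  apply log_eq
  · have e1 : exp (2 * log κ) = κ ^ 2 := by
      rw [show 2 * log κ = log κ + log κ by ring, exp_add, exp_log hκ]
      ring
    have e2 : exp (2 * (Real.log 2 : ℂ)) = 4 := by
      rw [show 2 * (Real.log 2 : ℂ) = (Real.log 2 : ℂ) + (Real.log 2 : ℂ) by ring, exp_add,
        ← ofReal_exp, Real.exp_log (by norm_num)]
      norm_num
    rw [exp_sub, exp_add, hh_exp _ p0 p1, two_sin, e1, e2]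
    set u := exp (Real.pi * I * zs) with hu
    have hu0 : u ≠ 0 := exp_ne_zero _
    have e4 : exp (2 * Real.pi * I * zs) = u ^ 2 := by
      rw [show 2 * Real.pi * I * zs = Real.pi * I * zs + Real.pi * I * zs by ring, exp_add, ← hu]
      ring
    have e5 : exp (-(Real.pi * (1 / 2 - zs) * I)) = -I * u := by
      rw [show -(Real.pi * (1 / 2 - zs) * I) = -(Real.pi * I / 2) + Real.pi * I * zs by ring,
        exp_add, expI]
    have e6 : exp (Real.pi * (1 / 2 - zs) * I) = I * u⁻¹ := by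
      rw [show Real.pi * (1 / 2 - zs) * I = -(-(Real.pi * I / 2)) + -(Real.pi * I * zs) by ring,
        exp_add, exp_neg (-(Real.pi * I / 2)), expI, exp_neg (Real.pi * I * zs), inv_neg, inv_I]
      ring
    have h1 := k.e1
    rw [e4] at h1
    rw [e5, e6]
    have hI := I_mul_I
    have e7 : u * (I * (-I * u - I * u⁻¹)) = u ^ 2 + 1 := by
      have : u * (I * (-I * u - I * u⁻¹)) = -(I * I) * (u ^ 2 + u * u⁻¹) := by ring
      rw [this, hI, mul_inv_cancel₀ hu0]
      ring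
    rw [e7, h1]
    ring
  · have h1 := Pool.Agent.S5.G.hh_im_lt p0 p1
    have h2 : (2 * log κ).im = 2 * κ.arg := by
      rw [show (2 : ℂ) = ((2 : ℝ) : ℂ) by norm_num, im_ofReal_mul, log_im]
    have h3 : κ.arg < 0 := arg_neg_iff.2 k.k1
    have h4 := (abs_lt.1 (abs_arg_lt_pi_div_two_iff.2 (Or.inl k.k0))).1
    have h5 : (Real.pi * I * zs + hh (1 / 2 - zs) - 2 * (Real.log 2 : ℂ)).im =
        Real.pi * zs.re + (hh (1 / 2 - zs)).im := by
      have e : (2 * (Real.log 2 : ℂ)).im = 0 := by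
        rw [show (2 : ℂ) * (Real.log 2 : ℂ) = ((2 * Real.log 2 : ℝ) : ℂ) by push_cast; ring,
          ofReal_im]
      rw [sub_im, add_im, im_piI, e, sub_zero]
    rw [h2, h5]
    have := h1
    rw [abs_lt]
    constructor <;> nlinarith [h.z0, h.z1]

theorem own_re (h : B3 zs bs) {κ b : ℂ} (k : K3 zs κ b) : 2 * Real.log ‖κ‖ =
    -(Real.pi * zs.im) + Lg zs.im (1 / 2 - zs.re) - 2 * Real.log 2 := by
  have h1 := congrArg re (h.own k)
  have e1 : (2 * log κ).re = 2 * Real.log ‖κ‖ := by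
    rw [show (2 : ℂ) = ((2 : ℝ) : ℂ) by norm_num, re_ofReal_mul, log_re]
  have e2 : (2 * (Real.log 2 : ℂ)).re = 2 * Real.log 2 := by
    rw [show (2 : ℂ) * (Real.log 2 : ℂ) = ((2 * Real.log 2 : ℝ) : ℂ) by push_cast; ring,
      ofReal_re]
  rw [e1, sub_re, add_re, e2, re_piI, hh_re] at h1
  rw [h1]
  have e3 : ((1 : ℂ) / 2 - zs).im = -zs.im := by simp
  have e4 : ((1 : ℂ) / 2 - zs).re = 1 / 2 - zs.re := by simp
  rw [e3, e4, Lg_neg_im]

theorem own_im (h : B3 zs bs) {κ b : ℂ} (k : K3 zs κ b) : 2 * κ.arg =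
    Real.pi * zs.re + (hh (1 / 2 - zs)).im := by
  have h1 := congrArg im (h.own k)
  have e1 : (2 * log κ).im = 2 * κ.arg := by
    rw [show (2 : ℂ) = ((2 : ℝ) : ℂ) by norm_num, im_ofReal_mul, log_im]
  have e2 : (2 * (Real.log 2 : ℂ)).im = 0 := by
    rw [show (2 : ℂ) * (Real.log 2 : ℂ) = ((2 * Real.log 2 : ℝ) : ℂ) by push_cast; ring,
      ofReal_im]
  rw [e1, sub_im, add_im, e2, im_piI, sub_zero] at h1
  exact h1

theorem nb_re {κ b : ℂ} (k : K3 zs κ b) : Real.log ‖b‖ = Real.log ‖κ‖ - 2 * Real.pi * zs.im := by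
  have h1 := congrArg re k.lm
  rw [re_piI, show (2 : ℂ) = ((2 : ℝ) : ℂ) by norm_num, re_ofReal_mul, sub_re, log_re, log_re] at h1
  have e : (((4 : ℂ) * zs + 1)).im = 4 * zs.im := by simp
  rw [e] at h1
  linarith

theorem nb_im {κ b : ℂ} (k : K3 zs κ b) : b.arg = κ.arg + 2 * Real.pi * zs.re + Real.pi / 2 := by
  have h1 := congrArg im k.lm
  rw [im_piI, show (2 : ℂ) = ((2 : ℝ) : ℂ) by norm_num, im_ofReal_mul, sub_im, log_im, log_im] at h1
  have e : (((4 : ℂ) * zs + 1)).re = 4 * zs.re + 1 := by simp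
  rw [e] at h1
  linarith

/-- The other variable. -/
theorem bs_eq (h : B3 zs bs) (hx : zs.re < 0) : -(2 * Real.pi * I * bs) =
    Real.pi * I * zs + hh (-zs) - Real.pi * I / 2 := by
  have hpi := Real.pi_pos
  have p0 : 0 < (-zs).re := by rw [neg_re]; linarith
  have p1 : (-zs).re < 1 := by rw [neg_re]; linarith [h.z0]
  apply log_eq
  · rw [show Real.pi * I * zs + hh (-zs) - Real.pi * I / 2 = Real.pi * I * zs + hh (-zs) +
      -(Real.pi * I / 2) by ring, exp_add, exp_add, hh_exp _ p0 p1, two_sin, expI]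
    have h1 := h.rel
    set u := exp (Real.pi * I * zs) with hu
    have hu0 : u ≠ 0 := exp_ne_zero _
    have e4 : exp (2 * Real.pi * I * zs) = u ^ 2 := by
      rw [show 2 * Real.pi * I * zs = Real.pi * I * zs + Real.pi * I * zs by ring, exp_add, ← hu]
      ring
    have e5 : exp (-(Real.pi * (-zs) * I)) = u := by
      rw [hu]
      congr 1
      ring
    have e6 : exp (Real.pi * (-zs) * I) = u⁻¹ := by
      rw [show Real.pi * (-zs) * I = -(Real.pi * I * zs) by ring, exp_neg]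
    rw [e5, e6]
    have hI := I_mul_I
    have e7 : u * (I * (u - u⁻¹)) * -I = u ^ 2 - 1 := by
      have : u * (I * (u - u⁻¹)) * -I = -(I * I) * (u ^ 2 - u * u⁻¹) := by ring
      rw [this, hI, mul_inv_cancel₀ hu0]
      ring
    rw [e7, ← e4, h1]
    ring
  · have h1 := Pool.Agent.S5.G.hh_im_lt p0 p1
    have e1 : (-(2 * Real.pi * I * bs)).im = -(2 * Real.pi * bs.re) := by simp
    have e2 : (Real.pi * I * zs + hh (-zs) - Real.pi * I / 2).im =
        Real.pi * zs.re + (hh (-zs)).im - Real.pi / 2 := by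
      have e3 : (Real.pi * I / 2 : ℂ).im = Real.pi / 2 := by simp
      rw [sub_im, add_im, im_piI, e3]
    rw [e1, e2]
    have := h1
    rw [abs_lt]
    constructor <;> nlinarith [h.z0, h.b0, h.b1]

theorem bs_im (h : B3 zs bs) (hx : zs.re < 0) : 2 * Real.pi * bs.im =
    -(Real.pi * zs.im) + Lg zs.im (-zs.re) := by
  have h1 := congrArg re (h.bs_eq hx)
  have e1 : (-(2 * Real.pi * I * bs)).re = 2 * Real.pi * bs.im := by simp
  have e3 : (Real.pi * I / 2 : ℂ).re = 0 := by simp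
  rw [e1, sub_re, add_re, re_piI, e3, hh_re, neg_re, neg_im, Lg_neg_im] at h1
  linarith

theorem bs_re (h : B3 zs bs) (hx : zs.re < 0) : 2 * Real.pi * bs.re =
    Real.pi / 2 - Real.pi * zs.re - (hh (-zs)).im := by
  have h1 := congrArg im (h.bs_eq hx)
  have e1 : (-(2 * Real.pi * I * bs)).im = -(2 * Real.pi * bs.re) := by simp
  have e3 : (Real.pi * I / 2 : ℂ).im = Real.pi / 2 := by simp
  rw [e1, sub_im, add_im, im_piI, e3] at h1
  linarith

/-- The facts for the certificate. -/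
theorem F (h : B3 zs bs) (hx : zs.re ≤ 0) : F3 zs bs (l3b zs bs) :=
  ⟨h.hA, h.hB, h.lam, h.z0, h.z1, h.b0, h.b1, h.s0, by
    rw [add_re]
    linarith [h.b1]⟩

end B3

end Pool.Agent.S5.Z3
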