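import Pool.Agent.S5.Z.Rct
import Pool.Agent.S5.I.Te
import Pool.Agent.S5.I.VOK

/-!
# Ends with three half twists: the program

Real numbers are given in units of `1 / 25600`, the values in units of `2 ^ (-20)`.
-/

set_option autoImplicit false

namespace Pool.Agent.S5.Z3

open Pool.Agent.S5.Num

noncomputable section

/-- Evaluation of an integer before it is used. -/
@[reducible] def fI {α : Type} (f : Int → α) (n : Int) : α :=
  Int.rec (fun m => fN (fun m => f (Int.ofNat m)) m) (fun m => fN (fun m => f (Int.negSucc m)) m) n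

/-- Positive and negative part. -/
@[reducible] def pn {α : Type} (n : Int) (k : Nat → Nat → α) : α :=
  Int.rec (fun m => fN (fun m => k m 0) m) (fun m => fN (fun m => k 0 m) (Nat.succ m)) n

/-- Test of `a ≤ b`. -/
def leI (a b : Int) : Bool := Nat.beq (Int.toNat (Int.sub a b)) 0

/-- The number of a position. -/
def sg (a : Nat) : Int := Int.subNatNat a 102400

/-- The data of a rectangle and of its base point. -/
structure Dt where
  Y0 : Nat
  Y1 : Nat
  Z0 : Nat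
  Z1 : Nat
  E0 : Nat
  E1 : Nat
  T0 : Nat
  T1 : Nat
  y : Int
  u : Int
  v : Int
  h : Int
  ra : Int
  rb : Int
  ta : Int
  sg : Int

/-- The data. -/
def mkD (Y0 Y1 Z0 Z1 E0 E1 T0 T1 : Nat) (k : Dt → Bool) : Bool :=
  cond (Nat.ble 94720 E0) (cond (Nat.ble E1 110080) (fN (fun qy => fN (fun gz => fN (fun ge => fN (fun pb =>
    cond (Nat.ble (Nat.succ qy) pb) (cond (Nat.ble pb 99)
    (fN (fun je => fN (fun jb => cond (Nat.ble je 60) (cond (Nat.ble jb 60)
      (fN (fun ea => fN (fun eb =>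
        fI (fun ra => fI (fun rb => fI (fun ta => fI (fun sb =>
        fI (fun y => fI (fun u => fI (fun v => fI (fun h =>
          k (Dt.mk Y0 Y1 Z0 Z1 E0 E1 T0 T1 y u v h ra rb ta sb))
        (Int.subNatNat (Nat.mul 128 ge) 102400)) (Int.subNatNat (Nat.mul 128 gz) 102400))
        (Int.ofNat (Nat.mul 128 pb))) (Int.ofNat (Nat.mul 128 qy)))
        (cond (Nat.ble 1600 (Nat.add gz ge)) (Int.ofNat (Tb.tE eb)) (Int.negOfNat (Tb.tE eb))))
        (cond (Nat.ble 800 ge) (Int.negOfNat (Tb.tE ea)) (Int.ofNat (Tb.tE ea))))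
        (Int.negOfNat (Tb.qE eb))) (Int.negOfNat (Tb.qE ea)))
        (Tb.ent6 (Nat.sub pb qy) jb)) (Tb.ent6 (Nat.sub 100 pb) je)) false) false)
      (Nat.add (Nat.sub (Nat.add gz ge) 1600) (Nat.sub 1600 (Nat.add gz ge))))
      (Nat.add (Nat.sub ge 800) (Nat.sub 800 ge)))
    false) false)
    (Tb.ctr T0 T1)) (Tb.ctr E0 E1)) (Tb.ctr Z0 Z1)) (Tb.ctr Y0 Y1)) false) false

/-- Elimination of a parameter: `L D ≤ c D + o` for `L0 ≤ L ≤ L1`, `l ≤ D ≤ u`. -/
def elm (L0 L1 l u : Int) (k : Int → Int → Bool) : Bool :=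
  cond (leI u (-l)) (fI (fun o => k L0 o) ((L1 - L0) * Int.ofNat (Int.toNat u)))
    (fI (fun o => k L1 o) ((L1 - L0) * Int.ofNat (Int.toNat (-l))))

/-- The maximum of a product: `P D` for `P0 ≤ P ≤ P1`, `-d0 ≤ D ≤ d1`. -/
def cel (P0 P1 d0 d1 : Int) : Int :=
  Int.ofNat (mx (Nat.mul (Int.toNat P1) (Int.toNat d1)) (Nat.mul (Int.toNat (-P0)) (Int.toNat d0)))

/-- A call of the branch and bound. -/
def eng (sd w kp1 kn1 kp3 : Nat) (N0 N1 N2 N4 : Int) (a1 b1 a2 b2 a3 b3 a4 b4 : Nat) : Bool :=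
  pn (N0 / 655360000 + 1) (fun c0p c0n => pn (N1 / 25600) (fun c1p c1n =>
    pn (N2 / 25600) (fun c2p c2n => pn (N4 / 25600) (fun c4p c4n =>
      Tb.bb (Tb.tst6 sd w 1 0 0 kp1 kn1 0 1 kp3 0 1 0 c0p c0n c1p c1n c2p c2n 0 0 c4p c4n) 24
        a1 b1 a2 b2 a3 b3 a4 b4))))

/-- The pieces of the variable of the node: flat `F`, legs `L`, `R`, the rectangle `T`, `t`, `P`, `p`,
`Q`, `q`, the real pieces `A` (right) and `B` (left). -/
inductive Zp where
  | F | L | R | T | t | P | p | Q | q | A | B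
  deriving DecidableEq

/-- The check for a piece which is not flat, at a corner. -/
def znf (d : Dt) (w kp3 : Nat) (M0 M1 N2 : Int) (a1 b1 a2 b2 : Nat) : Zp → Bool
  | .F => false
  | .L => eng 0 w 0 1 kp3 M0 M1 N2 42165747200 a1 b1 a2 b2 92160 92160 (mn d.Z0 102400)
      (mx d.Z1 102400)
  | .R => eng 0 w 0 1 kp3 M0 M1 N2 42165747200 a1 b1 a2 b2 112640 112640 (mn d.Z0 102400)
      (mx d.Z1 102400)
  | .T => eng 0 w 0 1 kp3 (M0 - 647665876992000) M1 N2 42165747200 a1 b1 a2 b2 92160 112640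
      106240 106240
  | .t => eng 0 w 0 1 kp3 (M0 - 647665876992000) M1 N2 42165747200 a1 b1 a2 b2 92160 112640
      98560 98560
  | .P => eng 0 w 0 1 kp3 M0 M1 N2 (-126497241600) a1 b1 a2 b2 92160 92160 102400 106240
  | .p => eng 0 w 0 1 kp3 M0 M1 N2 210828736000 a1 b1 a2 b2 92160 92160 98560 102400
  | .Q => eng 0 w 0 1 kp3 M0 M1 N2 (-126497241600) a1 b1 a2 b2 112640 112640 102400 106240
  | .q => eng 0 w 0 1 kp3 M0 M1 N2 210828736000 a1 b1 a2 b2 112640 112640 98560 102400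
  | .A => eng 0 w 0 1 kp3 M0 M1 N2 42165747200 a1 b1 a2 b2 112640 115200 102400 102400
  | .B => eng 1 w 0 1 kp3 M0 M1 N2 42165747200 a1 b1 a2 b2 89600 92160 102400 102400

/-- The strips of the check of the two flats. -/
def stp (d : Dt) (w kp3 : Nat) (N0 N1 N2 N4 : Int) (kp1 a2 b2 : Nat) : Bool :=
  cond (Nat.ble (Nat.add d.Y1 1024) d.T0)
    (cond (eng 0 w kp1 0 kp3 N0 N1 N2 N4 106240 107520 a2 b2 92160 97536 d.Z0 d.Z1)
    (cond (eng 0 w kp1 0 kp3 N0 N1 N2 N4 107520 108800 a2 b2 92160 96256 d.Z0 d.Z1)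
    (cond (eng 0 w kp1 0 kp3 N0 N1 N2 N4 108800 110080 a2 b2 92160 94976 d.Z0 d.Z1)
    (cond (eng 0 w kp1 0 kp3 N0 N1 N2 N4 110080 111360 a2 b2 92160 93696 d.Z0 d.Z1)
    (cond (eng 0 w kp1 0 kp3 N0 N1 N2 N4 111360 112640 a2 b2 92160 92416 d.Z0 d.Z1)
    (cond (Nat.ble d.T1 (Nat.add d.Y0 2560)) true
      (fN (fun xm => eng 0 w kp1 0 kp3 N0 N1 N2 N4 (Nat.sub 117760 xm) 115200 a2 b2
        (Nat.sub 115200 xm) 112640 d.Z0 d.Z1) (Nat.sub d.T1 d.Y0))) false) false) false) false)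
      false)
    false

/-- The check for a piece of the node; `f` is true for the flat piece `F` of the edge. -/
def zck (d : Dt) (f : Bool) (w kp1 kp3 : Nat) (N0 N1 N2 N4 A0 A1 B0 B1 : Int) (s0 s1 : Bool)
    (a1 b1 a2 b2 : Nat) (z : Zp) : Bool :=
  match z with
  | .F => cond f (stp d w kp3 N0 N1 N2 N4 kp1 a2 b2)
      (eng 0 w kp1 0 kp3 N0 N1 N2 N4 a1 b1 a2 b2 92160 112640 d.Z0 d.Z1)
  | z => cond s0 (znf d w kp3 A0 A1 N2 a1 b1 a2 b2 z)
      (cond s1 (znf d w kp3 B0 B1 N2 a1 b1 a2 b2 z)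
        (cond (znf d w kp3 A0 A1 N2 a1 b1 a2 b2 z) (znf d w kp3 B0 B1 N2 a1 b1 a2 b2 z) false))

/-- Filter. -/
def flt {α : Type} (t : α → Bool) : List α → (List α → Bool) → Bool
  | [], k => k []
  | x :: l, k => cond (t x) (flt t l k) (flt t l (fun r => k (x :: r)))

/-- All pieces of the node for a piece of the edge. `e, w`: share; `(N0, N1, N2)`: the coefficients, without
the parts of the node. -/
def zlp (d : Dt) (f : Bool) (e : Int) (w kp1 kp3 : Nat) (N0 N1 N2 : Int) (a1 b1 a2 b2 : Nat)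
    (zl : List Zp) (k : List Zp → Bool) : Bool :=
  fI (fun kk => fI (fun Az => fI (fun q => fI (fun N4 => fI (fun z0 => fI (fun z1 =>
    fI (fun A0 => fI (fun A1 => fI (fun B0 => fI (fun B1 => fI (fun gl => fI (fun gh =>
      flt (zck d f w kp1 kp3 N0 N1 N2 N4 A0 A1 B0 B1 (leI gh 0) (leI 0 gl) a1 b1 a2 b2) zl k)
    (kk * (sg b1 - d.u) - Az)) (kk * (sg a1 - d.u) - Az))
    (N1 + kk * z1)) (N0 - z1 * q)) (N1 + kk * z0)) (N0 - z0 * q))
    (sg d.Z1)) (sg d.Z0)) (42165747200 - q)) (kk * d.u + Az))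
    (25600 * d.sg + 3294199 * (12800 - d.y - d.u))) (3294199 * (4 + 2 * e))

/-- The parts of the edge which is flat. -/
def bfl (d : Dt) (e : Int) (w : Int) (k : Int → Int → Int → Bool) : Bool :=
  fI (fun wt => fI (fun N2 => fI (fun N0 => k N0 0 N2) (-(wt * d.h)))
    (wt - 3294199 * (d.y + e * d.u))) (25600 * (w * d.ta - d.sg))

/-- The parts of the edge which is not flat: `f = 1` for the rectangle, `ws`, `wc` from the weight. -/
def bnf (d : Dt) (e w f ws wc : Int) (a1 b1 a2 b2 : Nat) (k : Int → Int → Int → Bool) : Bool :=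
  fI (fun k2 => fI (fun k4 => fI (fun p => fI (fun e0 => fI (fun e1 =>
  fI (fun L0 => fI (fun L1 => fI (fun l => fI (fun u => fI (fun l' => fI (fun u' =>
    elm L0 L1 l u (fun Lc o1 => elm e0 e1 l' u' (fun Hc o2 =>
      fI (fun N1 => fI (fun N2 => fI (fun N0 => k N0 N1 N2)
      (cel (p + 3294199 * (k2 * d.Y0 - e * d.T1)) (p + 3294199 * (k2 * d.Y1 - e * d.T0))
          (d.h - e0) (e1 - d.h) + wc + 3294199 * (o1 + e * (o2 - Hc * d.u) - Lc * d.h -
            (d.y + 12800) * d.h + 4 * f * (d.Y1 * Int.ofNat (Int.toNat d.h) -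
              d.Y0 * Int.ofNat (Int.toNat (-d.h)))))) (3294199 * (12800 + Lc - 25600 * f) + ws))
      (3294199 * (e * Hc)))))
    (sg b1 - d.u)) (sg a1 - d.u)) (sg b2 - d.h)) (sg a2 - d.h))
    (e * d.T1 - k4 * d.Y0)) (e * d.T0 - k4 * d.Y1)) (sg d.E1)) (sg d.E0))
    (25600 * (w * d.ta - d.sg) - 3294199 * (d.y + 12800))) (4 * (1 - f) + 2 * e)) (4 + 2 * e)

/-- A piece of the edge with the share `m` and the constant `r`. -/
def bgo (d : Dt) (r : Int) (m : Nat) (fl F : Bool) (f ws wc : Int) (a1 b1 a2 b2 : Nat)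
    (zl : List Zp) (k : List Zp → Bool) : Bool :=
  fI (fun bs => cond fl
    (bfl d m (m + 1) (fun N0 N1 N2 => fI (fun N => zlp d F m (Nat.succ m) (Nat.add 3 (Nat.add m m))
      m N N1 N2 a1 b1 a2 b2 zl k) (N0 + bs)))
    (bnf d m (m + 1) f ws wc a1 b1 a2 b2 (fun N0 N1 N2 => fI (fun N =>
      zlp d false m (Nat.succ m) (Nat.add 3 (Nat.add m m)) 0 N N1 N2 a1 b1 a2 b2 zl k) (N0 + bs))))
    (655360000 * ((m + 1) * d.ra + d.rb) + 25600 * (d.sg * d.v) + 78643200000 - 6871947673600 * r)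

/-- The sign of the imaginary part of the critical point. -/
def hcn (d : Dt) (b : Bool) (x y : Bool) : Bool :=
  cond (cond b (Nat.ble 102400 d.E1) (Nat.ble d.E0 102400)) x y

/-- The pieces of the edge. -/
def bps (d : Dt) (pc : Pc) (up : Bool) (k : Bool → Bool → Int → Int → Int → Nat → Nat → Nat →
    Nat → Bool) (sk : Bool) : Bool :=
  match pc with
  | .F => k true true 0 0 0 106240 115200 d.E0 d.E1
  | .H => k true false 0 0 0 102400 106240 d.E0 d.E1
  | .G => k true false 0 0 0 96000 102400 d.E0 d.E1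
  | .L => hcn d up (k false false 0 0 0 96000 96000 (cond up 102400 d.E0) (cond up d.E1 102400)) sk
  | .R => hcn d up (k false false 0 0 0 115200 115200 (cond up 102400 d.E0) (cond up d.E1 102400)) sk
  | .T => hcn d up (k false false 1 0 (-323832938496000) 102400 115200 (cond up 106240 98560)
      (cond up 106240 98560)) sk
  | .t => hcn d (!up) (k false false 1 0 (-323832938496000) 102400 115200 (cond up 106240 98560)
      (cond up 106240 98560)) sk
  | .U => hcn d up (k false false 1 0 (-323832938496000) 96000 102400 (cond up 106240 98560)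
      (cond up 106240 98560)) sk
  | .u => hcn d (!up) (k false false 1 0 (-323832938496000) 96000 102400 (cond up 106240 98560)
      (cond up 106240 98560)) sk
  | .P => hcn d up (k false false 1 (cond up (-84331494400) 84331494400) 0 96000 96000
      (cond up 102400 98560) (cond up 106240 102400)) sk
  | .p => hcn d (!up) (k false false 1 (cond up (-84331494400) 84331494400) 0 96000 96000
      (cond up 102400 98560) (cond up 106240 102400)) sk
  | .Q => hcn d up (k false false 1 (cond up (-84331494400) 84331494400) 0 115200 115200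
      (cond up 102400 98560) (cond up 106240 102400)) sk
  | .q => hcn d (!up) (k false false 1 (cond up (-84331494400) 84331494400) 0 115200 115200
      (cond up 102400 98560) (cond up 106240 102400)) sk
  | .lo => false
  | .re _ => k false false 0 0 0 108800 115200 102400 102400
  | .rz _ => k false false 0 0 0 111360 115200 102400 102400

/-- A piece of the edge. -/
def bpk (S : Bool) (x : Nt) (d : Dt) (pc : Pc) (up : Bool) (zl : List Zp) (k : List Zp → Bool) :
    Bool :=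
  fI (fun r => fI (fun e => cond (cond (leI 0 e) (leI e 1) false)
    (fN (fun m => bps d pc up (fun fl F f ws wc a1 b1 a2 b2 => bgo d r m fl F f ws wc a1 b1 a2 b2 zl k)
      (k [])) (Int.toNat e)) false)
    (d0 S ⟨3, true⟩ x pc - d0 S x ⟨3, true⟩ pc.mir)) (r0 S ⟨3, true⟩ x pc - r0 S x ⟨3, true⟩ pc.mir)

/-- A row: a piece of the edge, the sign, and pieces of the node. -/
structure Rw where
  pc : Pc
  up : Bool
  zl : List Zp

/-- All rows. -/
def blp (S : Bool) (x : Nt) (d : Dt) : List Rw → (List Rw → Bool) → Bool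
  | [], k => k []
  | q :: l, k => bpk S x d q.pc q.up q.zl (fun r => match r with
    | [] => blp S x d l k
    | z :: t => blp S x d l (fun s => k (⟨q.pc, q.up, z :: t⟩ :: s)))

/-- The outer loop. -/
def out (S : Bool) (x : Nt) (c : RC) : Nat → Nat → Nat → Nat → Nat → List Rw → Bool
  | 0, _, _, _, _, _ => false
  | n + 1, Y0, Y1, Z0, Z1, l => etR Y0 Y1 Z0 Z1 (fun E0 E1 T0 T1 => mkD Y0 Y1 Z0 Z1 E0 E1 T0 T1
      (fun d => blp S x d l (fun r => match r with
      | [] => true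
      | q :: t => cond (Nat.ble (Nat.sub Y1 Y0) (Nat.sub Z1 Z0))
        (fN (fun m => cond (rfn c Y0 Y1 Z0 m (fun a b a' b' => out S x c n a b a' b' (q :: t)))
          (rfn c Y0 Y1 m Z1 (fun a b a' b' => out S x c n a b a' b' (q :: t))) false)
          (Nat.div (Nat.add Z0 Z1) 2))
        (fN (fun m => cond (rfn c Y0 m Z0 Z1 (fun a b a' b' => out S x c n a b a' b' (q :: t)))
          (rfn c m Y1 Z0 Z1 (fun a b a' b' => out S x c n a b a' b' (q :: t))) false)
          (Nat.div (Nat.add Y0 Y1) 2)))))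

/-- Several steps of the refinement. -/
def rfi (c : RC) : Nat → Nat → Nat → Nat → Nat → (Nat → Nat → Nat → Nat → Bool) → Bool
  | 0, Y0, Y1, Z0, Z1, k => k Y0 Y1 Z0 Z1
  | n + 1, Y0, Y1, Z0, Z1, k => rfn c Y0 Y1 Z0 Z1 (fun a b a' b' => rfi c n a b a' b' k)

/-- The constants of the regions, in thousandths. -/
def mkC (S : Bool) (a b p q a' b' p' q' : Nat) (k : RC → Bool) : Bool :=
  fN (fun M0 => fN (fun M1 => fN (fun s0 => fN (fun s1 => fN (fun O0 => fN (fun O1 =>
  fN (fun W0 => fN (fun W1 =>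
    cond S (k ⟨M0, M1, s0, 16, Nat.add s1 16, 0, O0, O1, Nat.sub W0 16, Nat.add W1 16⟩)
      (k ⟨M0, M1, 0, Nat.add s1 16, 16, s0, O0, O1, Nat.sub W0 16, Nat.add W1 16⟩))
    (Nat.mul 2 (atq q' 1000))) (Nat.mul 2 (atq p' 1000)))
    (Nat.sub (Nat.mul 4 (lnh 1000)) (Nat.add (Nat.mul 4 (lnh b')) 320)))
    (Nat.sub (Nat.add (Nat.mul 4 (lnh 1000)) 320) (Nat.mul 4 (lnh a'))))
    (Nat.mul 2 (atq q 1000))) (Nat.mul 2 (atq p 1000)))
    (Nat.sub (Nat.mul 4 (lnh 1000)) (Nat.add (Nat.mul 4 (lnh b)) 320)))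
    (Nat.sub (Nat.add (Nat.mul 4 (lnh 1000)) 320) (Nat.mul 4 (lnh a)))

/-- The pieces of the node for the free pieces of the edge. -/
def zls : List Zp := [.F, .L, .R, .T, .t, .P, .p, .Q, .q, .A]

/-- The list of all rows. -/
def rws (x : Nt) : List Rw :=
  [⟨.F, true, zls⟩, ⟨.H, true, zls⟩, ⟨.G, true, zls⟩, ⟨.L, true, zls⟩, ⟨.L, false, zls⟩,
    ⟨.R, true, zls⟩, ⟨.R, false, zls⟩, ⟨.T, true, zls⟩, ⟨.T, false, zls⟩, ⟨.t, true, zls⟩,
    ⟨.t, false, zls⟩, ⟨.U, true, zls⟩, ⟨.U, false, zls⟩, ⟨.u, true, zls⟩, ⟨.u, false, zls⟩,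
    ⟨.P, true, zls⟩, ⟨.P, false, zls⟩, ⟨.p, true, zls⟩, ⟨.p, false, zls⟩, ⟨.Q, true, zls⟩,
    ⟨.Q, false, zls⟩, ⟨.q, true, zls⟩, ⟨.q, false, zls⟩, ⟨.rz .own, true, [.B]⟩] ++
  (cond (!x.e && Nat.ble x.a 4) [⟨.re .far, true, .B :: zls⟩] []) ++
  (cond (Nat.beq x.a 3 || (!x.e && Nat.beq x.a 4))
    [⟨.rz .far, true, zls⟩, ⟨.rz .both, true, [.B]⟩] [])

/-- The ranges for the small indices of the edge. -/
def lot (Y0 Y1 Z0 Z1 : Nat) : Bool :=
  etR Y0 Y1 Z0 Z1 (fun e0 e1 t0 t1 => cond (Nat.ble 6656 t0) (cond (Nat.ble t1 9856)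
    (cond (Nat.ble 99840 e0) (cond (Nat.ble e1 104960) (cond (Nat.ble 100900 Z0)
      (Nat.ble Z1 103900) false) false) false) false) false)

/-- The regions are admissible. -/
def adr (a b q a' b' q' : Nat) : Bool :=
  cond (Nat.ble (Nat.mul 11 b) (Nat.mul 20 a')) (cond (Nat.ble (Nat.mul 4 b') (Nat.mul 5 a))
    (cond (Nat.ble q 1000) (cond (Nat.ble q' 999) (cond (Nat.ble b 1000) (cond (Nat.ble b' 1000)
      (cond (Nat.ble 1 a) (cond (Nat.ble 1 a') (cond (Nat.ble a 1000) (Nat.ble a' 1000) false)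
        false) false) false) false) false) false) false) false

/-- The check of a class. -/
def chk (S : Bool) (x : Nt) (a b p q a' b' p' q' : Nat) : Bool :=
  cond (adr a b q a' b' q') (mkC S a b p q a' b' p' q' (fun c =>
    rfi c 5 0 9600 99584 103424 (fun Y0 Y1 Z0 Z1 => cond (lot Y0 Y1 Z0 Z1)
      (out S x c 12 Y0 Y1 Z0 Z1 (rws x)) false))) false

end

end Pool.Agent.S5.Z3
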