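import Pool.Agent.S5.Z.Rfn

/-!
# Ends with three half twists: refinement of the rectangles

The real part of the critical point is `-y`; `Y0 ≤ 25600 y ≤ Y1`, and `Z0, Z1` are bounds for the
position of the imaginary part `s`.
-/

set_option autoImplicit false

namespace Pool.Agent.S5.Z3

open Pool.Agent.H63.VC3 Pool.Agent.S3 Complex Set Pool.Agent.S5.Num

/-! ### The equations -/

/-- The equations: `lb`, `la` are twice the logarithms, `ab`, `aa` twice the arguments. -/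
structure Eq3 (y s t h lb la ab aa : ℝ) : Prop where
  e1 : 5 * Real.pi * s = Lg s (1 / 2 - y) - 2 * Real.log 2 - lb
  e2 : 5 * Real.pi * y = Real.pi + Th (1 / 2 - y) s - ab
  e3 : Real.pi * s = Lg s (1 / 2 - y) - 2 * Real.log 2 - la
  e4 : Real.pi * y = Th (1 / 2 - y) s - aa
  e5 : 2 * Real.pi * h = -(Real.pi * s) + Lg s y
  e6 : 2 * Real.pi * t = Real.pi / 2 + Real.pi * y + Th y s

/-- The constants of the regions. -/
structure RC where
  M0 : ℕ
  M1 : ℕ
  sp0 : ℕ
  sn0 : ℕ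
  sp1 : ℕ
  sn1 : ℕ
  O0 : ℕ
  O1 : ℕ
  W0 : ℕ
  W1 : ℕ

/-- The constants are right. -/
structure RcOK (c : RC) (lb la ab aa : ℝ) : Prop where
  m0 : -lb * Num.UU ≤ c.M0
  m1 : (c.M1 : ℝ) ≤ -lb * Num.UU
  s0 : (c.sp0 : ℝ) - c.sn0 ≤ -ab * Num.UU
  s1 : -ab * Num.UU ≤ (c.sp1 : ℝ) - c.sn1
  o0 : -la * Num.UU ≤ c.O0
  o1 : (c.O1 : ℝ) ≤ -la * Num.UU
  w0 : (c.W0 : ℝ) ≤ -aa * Num.UU
  w1 : -aa * Num.UU ≤ c.W1

/-- The point is in the rectangle. -/
structure InRc (Y0 Y1 Z0 Z1 : ℕ) (y s : ℝ) : Prop where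
  y0 : (Y0 : ℝ) ≤ y * 25600
  y1 : y * 25600 ≤ Y1
  z0 : (Z0 : ℝ) ≤ ps s
  z1 : ps s ≤ Z1

/-! ### The programs -/

def mx (a b : Nat) : Nat := cond (Nat.ble a b) b a
def mn (a b : Nat) : Nat := cond (Nat.ble a b) a b

/-- The next rectangle, from the bounds of the logarithm and of the argument. -/
def rfe (c : RC) (Y0 Y1 Z0 Z1 lU l e tp tn rp rn : Nat) (k : Nat → Nat → Nat → Nat → Bool) : Bool :=
  fN (fun z1 => fN (fun z0 => fN (fun y1 => fN (fun y0 =>
    cond (Nat.ble z0 z1) (cond (Nat.ble y0 y1) (k y0 y1 z0 z1) true) true)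
    (mx Y0 (mx (dvL (Nat.mul 25600 (Nat.add 884279719003555 (Nat.add rp c.sp0)))
        (Nat.mul 25600 (Nat.add rn (Nat.add c.sn0 21))) 4421398595017775)
      (dvL (Nat.mul 25600 (Nat.add rp c.W0)) (Nat.mul 25600 (Nat.add rn 20)) 884279719003555))))
    (mn Y1 (mn (dvU (Nat.mul 25600 (Nat.add 884279719003555 (Nat.add tp (Nat.add c.sp1 21))))
        (Nat.mul 25600 (Nat.add tn c.sn1)) 4421398595017775)
      (dvU (Nat.mul 25600 (Nat.add tp (Nat.add c.W1 20))) (Nat.mul 25600 tn) 884279719003555))))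
    (mx Z0 (mx (dvL (Nat.add (Nat.mul 25600 (Nat.add l c.M1)) 452751216129820160000)
        (Nat.mul 25600 (Nat.add 4893806800380830 (Nat.add e 21))) 4421398595017775)
      (dvL (Nat.add (Nat.mul 25600 (Nat.add l c.O1)) 90550243225964032000)
        (Nat.mul 25600 (Nat.add 4893806800380830 (Nat.add e 21))) 884279719003555))))
    (mn Z1 (mn (dvU (Nat.add (Nat.mul 25600 (Nat.add lU (Nat.add c.M0 21))) 452751216129820160000)
        (Nat.mul 25600 4893806800380830) 4421398595017775)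
      (dvU (Nat.add (Nat.mul 25600 (Nat.add lU (Nat.add c.O0 21))) 90550243225964032000)
        (Nat.mul 25600 4893806800380830) 884279719003555)))

/-- One step. -/
def rfn (c : RC) (Y0 Y1 Z0 Z1 : Nat) (k : Nat → Nat → Nat → Nat → Bool) : Bool :=
  fN (fun xa => fN (fun xb => fN (fun za => fN (fun zb =>
    lup xb zb (fun lU => llo xa za (fun l e => tsU xa xb Z1 (fun tp tn => tsL xa xb Z0 (fun rp rn =>
      rfe c Y0 Y1 Z0 Z1 lU l e tp tn rp rn k)))))
    (mx (Nat.sub Z1 102400) (Nat.sub 102400 Z0)))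
    (Nat.add (Nat.sub Z0 102400) (Nat.sub 102400 Z1))) (Nat.sub 12800 Y0)) (Nat.sub 12800 Y1)

/-- The ranges of the other variable, from the bounds of the logarithm and of the argument. -/
def ete (Y0 Y1 Z0 Z1 lU l e tp tn rp rn : Nat) (k : Nat → Nat → Nat → Nat → Bool) : Bool :=
  fN (fun e0 => fN (fun e1 => fN (fun t0 => fN (fun t1 => k e0 e1 t0 t1)
    (dvU (Nat.add (Nat.mul 884279719003555 (Nat.add 12800 Y1)) (Nat.mul 25600 (Nat.add tp 21)))
      (Nat.mul 25600 tn) 1768559438007110))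
    (dvL (Nat.add (Nat.mul 884279719003555 (Nat.add 12800 Y0)) (Nat.mul 25600 rp))
      (Nat.mul 25600 (Nat.add rn 21)) 1768559438007110))
    (dvU (Nat.add 271650729677892096000 (Nat.mul 25600 (Nat.add lU 21)))
      (Nat.add (Nat.mul 884279719003555 Z0) 115292150460684697600) 1768559438007110))
    (dvL (Nat.add 271650729677892096000 (Nat.mul 25600 l))
      (Nat.add (Nat.mul 884279719003555 Z1) (Nat.mul 25600 (Nat.add 4503599627370496
        (Nat.add e 21)))) 1768559438007110)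

/-- The ranges of the other variable: `E0, E1` for the imaginary part, `T0, T1` for the real part. -/
def etR (Y0 Y1 Z0 Z1 : Nat) (k : Nat → Nat → Nat → Nat → Bool) : Bool :=
  cond (Nat.ble 640 Y0)
    (fN (fun za => fN (fun zb =>
      lup Y1 zb (fun lU => llo Y0 za (fun l e => tsU Y0 Y1 Z1 (fun tp tn =>
        tsL Y0 Y1 Z0 (fun rp rn => cond (Nat.ble lU 4785074604081152)
          (cond (Nat.ble e 281474976710656) (ete Y0 Y1 Z0 Z1 lU l e tp tn rp rn k) false)
          false)))))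
      (mx (Nat.sub Z1 102400) (Nat.sub 102400 Z0)))
      (Nat.add (Nat.sub Z0 102400) (Nat.sub 102400 Z1)))
    false

/-! ### Soundness -/

theorem mx_le {x : ℝ} {a b : ℕ} (h1 : (a : ℝ) ≤ x) (h2 : (b : ℝ) ≤ x) : ((mx a b : ℕ) : ℝ) ≤ x := by
  unfold mx
  cases Nat.ble a b
  · exact h1
  · exact h2

theorem le_mn {x : ℝ} {a b : ℕ} (h1 : x ≤ (a : ℝ)) (h2 : x ≤ (b : ℝ)) : x ≤ ((mn a b : ℕ) : ℝ) := by
  unfold mn
  cases Nat.ble a b
  · exact h2
  · exact h1

theorem mx_ge (a b : ℕ) : a ≤ mx a b ∧ b ≤ mx a b := by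
  unfold mx
  rcases h : Nat.ble a b with _ | _
  · exact ⟨le_rfl, (ble_ff h).le⟩
  · exact ⟨Nat.le_of_ble_eq_true h, le_rfl⟩

theorem mn_le (a b : ℕ) : mn a b ≤ a ∧ mn a b ≤ b := by
  unfold mn
  rcases h : Nat.ble a b with _ | _
  · exact ⟨(ble_ff h).le, le_rfl⟩
  · exact ⟨le_rfl, Nat.le_of_ble_eq_true h⟩

theorem log2_err : (390207173010333 : ℝ) ≤ 2 * Real.log 2 * Num.UU ∧
    2 * Real.log 2 * Num.UU ≤ 390207173010335 := by
  have h := abs_le.1 Num.log_two_U
  constructor <;> linarith [h.1, h.2]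

/-- The rectangle is admissible. -/
structure Rk (Y1 Z0 Z1 : ℕ) : Prop where
  y1 : Y1 ≤ 9600
  z0 : 99584 ≤ Z0
  z1 : Z1 ≤ 103424

/-- The result of one step. -/
structure Nx (Y0 Y1 Z0 Z1 : ℕ) (y s : ℝ) (k : ℕ → ℕ → ℕ → ℕ → Bool) : Prop where
  ex : ∃ y0 y1 z0 z1 : ℕ, InRc y0 y1 z0 z1 y s ∧ Y0 ≤ y0 ∧ y1 ≤ Y1 ∧ Z0 ≤ z0 ∧ z1 ≤ Z1 ∧
    k y0 y1 z0 z1 = true

theorem rfe_sound {c : RC} {Y0 Y1 Z0 Z1 lU l e tp tn rp rn : ℕ} {k : ℕ → ℕ → ℕ → ℕ → Bool}
    {y s t h lb la ab aa : ℝ} (hk : rfe c Y0 Y1 Z0 Z1 lU l e tp tn rp rn k = true)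
    (hE : Eq3 y s t h lb la ab aa) (hc : RcOK c lb la ab aa) (hI : InRc Y0 Y1 Z0 Z1 y s)
    (hR : Rk Y1 Z0 Z1) (h1 : Num.UU * Lg s (1 / 2 - y) ≤ lU - Num.KK)
    (h2 : (l : ℝ) - e - Num.KK ≤ Num.UU * Lg s (1 / 2 - y))
    (h3 : Num.UU * Th (1 / 2 - y) s ≤ tp - tn) (h4 : (rp : ℝ) - rn ≤ Num.UU * Th (1 / 2 - y) s) :
    Nx Y0 Y1 Z0 Z1 y s k := by
  unfold rfe at hk
  simp only [fN_eq] at hk
  have r1 : (Y1 : ℝ) ≤ 9600 := by exact_mod_cast hR.y1
  have r2 : (99584 : ℝ) ≤ Z0 := by exact_mod_cast hR.z0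
  have r3 : (Z1 : ℝ) ≤ 103424 := by exact_mod_cast hR.z1
  have hU := UU_pos
  have hY : |y * 25600 - 0| ≤ 102400 := by
    rw [sub_zero, abs_le]
    constructor <;> linarith [hI.y0, hI.y1, (Nat.cast_nonneg Y0 : (0 : ℝ) ≤ Y0)]
  have hZ : |ps s - 102400| ≤ 102400 := by
    rw [abs_le]
    constructor <;> linarith [hI.z0, hI.z1]
  have hy0 : 0 ≤ y * 25600 := le_trans (Nat.cast_nonneg _) hI.y0
  have hz0 : 0 ≤ ps s := by linarith only [hI.z0, r2]
  have hL := log2_err
  have E1 : (5 : ℕ) * (Real.pi * Num.UU) * (ps s - 102400) =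
      25600 * (Num.UU * Lg s (1 / 2 - y) - 2 * Real.log 2 * Num.UU + -lb * Num.UU) := by
    unfold ps
    push_cast
    linear_combination 25600 * Num.UU * hE.e1
  have E3 : (1 : ℕ) * (Real.pi * Num.UU) * (ps s - 102400) =
      25600 * (Num.UU * Lg s (1 / 2 - y) - 2 * Real.log 2 * Num.UU + -la * Num.UU) := by
    unfold ps
    push_cast
    linear_combination 25600 * Num.UU * hE.e3
  have E2 : (5 : ℕ) * (Real.pi * Num.UU) * (y * 25600 - 0) =
      25600 * (Real.pi * Num.UU + Num.UU * Th (1 / 2 - y) s + -ab * Num.UU) := by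
    push_cast
    linear_combination 25600 * Num.UU * hE.e2
  have E4 : (1 : ℕ) * (Real.pi * Num.UU) * (y * 25600 - 0) =
      25600 * (Num.UU * Th (1 / 2 - y) s + -aa * Num.UU) := by
    push_cast
    linear_combination 25600 * Num.UU * hE.e4
  have hpi := abs_le.1 piU
  have kK : Num.KK = 4503599627370496 := by norm_num [Num.KK]
  have Z1' : ps s ≤ mn Z1 (mn (dvU (Nat.add (Nat.mul 25600 (Nat.add lU (Nat.add c.M0 21)))
        452751216129820160000) (Nat.mul 25600 4893806800380830) 4421398595017775)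
      (dvU (Nat.add (Nat.mul 25600 (Nat.add lU (Nat.add c.O0 21))) 90550243225964032000)
        (Nat.mul 25600 4893806800380830) 884279719003555)) := by
    apply le_mn hI.z1
    apply le_mn
    · refine dvU_sound 5 (by norm_num) le_rfl hZ E1.le ?_
      have := hc.m0
      simp only [Nat.add_eq, Nat.mul_eq]
      push_cast
      rw [kK] at h1
      linarith only [this, hL.1, h1]
    · refine dvU_sound 1 le_rfl (by norm_num) hZ E3.le ?_
      have := hc.o0
      simp only [Nat.add_eq, Nat.mul_eq]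
      push_cast
      rw [kK] at h1
      linarith only [this, hL.1, h1]
  have Z0' : (mx Z0 (mx (dvL (Nat.add (Nat.mul 25600 (Nat.add l c.M1)) 452751216129820160000)
        (Nat.mul 25600 (Nat.add 4893806800380830 (Nat.add e 21))) 4421398595017775)
      (dvL (Nat.add (Nat.mul 25600 (Nat.add l c.O1)) 90550243225964032000)
        (Nat.mul 25600 (Nat.add 4893806800380830 (Nat.add e 21))) 884279719003555)) : ℝ) ≤ ps s := by
    apply mx_le hI.z0
    apply mx_le
    · refine dvL_sound 5 (by norm_num) le_rfl hz0 hZ E1.ge ?_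
      have := hc.m1
      simp only [Nat.add_eq, Nat.mul_eq]
      push_cast
      rw [kK] at h2
      linarith only [this, hL.2, h2]
    · refine dvL_sound 1 le_rfl (by norm_num) hz0 hZ E3.ge ?_
      have := hc.o1
      simp only [Nat.add_eq, Nat.mul_eq]
      push_cast
      rw [kK] at h2
      linarith only [this, hL.2, h2]
  have Y1' : y * 25600 ≤ mn Y1 (mn (dvU (Nat.mul 25600 (Nat.add 884279719003555
        (Nat.add tp (Nat.add c.sp1 21)))) (Nat.mul 25600 (Nat.add tn c.sn1)) 4421398595017775)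
      (dvU (Nat.mul 25600 (Nat.add tp (Nat.add c.W1 20))) (Nat.mul 25600 tn) 884279719003555)) := by
    apply le_mn hI.y1
    apply le_mn
    · refine dvU_sound 5 (by norm_num) le_rfl hY E2.le ?_
      have := hc.s1
      simp only [Nat.add_eq, Nat.mul_eq]
      push_cast
      linarith only [this, hpi.2, h3]
    · refine dvU_sound 1 le_rfl (by norm_num) hY E4.le ?_
      have := hc.w1
      simp only [Nat.add_eq, Nat.mul_eq]
      push_cast
      linarith only [this, h3]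
  have Y0' : (mx Y0 (mx (dvL (Nat.mul 25600 (Nat.add 884279719003555 (Nat.add rp c.sp0)))
        (Nat.mul 25600 (Nat.add rn (Nat.add c.sn0 21))) 4421398595017775)
      (dvL (Nat.mul 25600 (Nat.add rp c.W0)) (Nat.mul 25600 (Nat.add rn 20)) 884279719003555)) : ℝ) ≤
      y * 25600 := by
    apply mx_le hI.y0
    apply mx_le
    · refine dvL_sound 5 (by norm_num) le_rfl hy0 hY E2.ge ?_
      have := hc.s0
      simp only [Nat.add_eq, Nat.mul_eq]
      push_cast
      linarith only [this, hpi.1, h4]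
    · refine dvL_sound 1 le_rfl (by norm_num) hy0 hY E4.ge ?_
      have := hc.w0
      simp only [Nat.add_eq, Nat.mul_eq]
      push_cast
      linarith only [this, h4]
  refine ⟨⟨_, _, _, _, ⟨Y0', Y1', Z0', Z1'⟩, (mx_ge _ _).1, (mn_le _ _).1, (mx_ge _ _).1,
    (mn_le _ _).1, ?_⟩⟩
  have c1 := Nat.ble_eq_true_of_le (Nat.cast_le (α := ℝ).1 (Z0'.trans Z1'))
  have c2 := Nat.ble_eq_true_of_le (Nat.cast_le (α := ℝ).1 (Y0'.trans Y1'))
  rw [c1, c2] at hk
  exact hk

theorem subP (a b : ℕ) : ((Nat.sub a b : ℕ) : ℝ) = max ((a : ℝ) - b) 0 := by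
  rw [show Nat.sub a b = a - b from rfl]
  rcases le_total b a with h | h
  · rw [Nat.cast_sub h, max_eq_left]
    have : (b : ℝ) ≤ a := by exact_mod_cast h
    linarith only [this]
  · rw [Nat.sub_eq_zero_of_le h, max_eq_right]
    · simp
    · have : (a : ℝ) ≤ b := by exact_mod_cast h
      linarith only [this]

theorem absU {Y0 Y1 Z0 Z1 : ℕ} {y s : ℝ} (hI : InRc Y0 Y1 Z0 Z1 y s) :
    |s| * 25600 ≤ ((mx (Nat.sub Z1 102400) (Nat.sub 102400 Z0) : ℕ) : ℝ) := by
  obtain ⟨m1, m2⟩ := mx_ge (Nat.sub Z1 102400) (Nat.sub 102400 Z0)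
  have m1' : ((Nat.sub Z1 102400 : ℕ) : ℝ) ≤ (mx (Nat.sub Z1 102400) (Nat.sub 102400 Z0) : ℕ) := by
    exact_mod_cast m1
  have m2' : ((Nat.sub 102400 Z0 : ℕ) : ℝ) ≤ (mx (Nat.sub Z1 102400) (Nat.sub 102400 Z0) : ℕ) := by
    exact_mod_cast m2
  rw [subP] at m1' m2'
  have h0 := hI.z0
  have h1 := hI.z1
  unfold ps at h0 h1
  have n1 := le_max_left ((Z1 : ℝ) - (102400 : ℕ)) 0
  have n2 := le_max_left (((102400 : ℕ) : ℝ) - (Z0 : ℝ)) 0
  push_cast at n1 n2 m1' m2'
  rcases abs_cases s with ⟨h, -⟩ | ⟨h, -⟩ <;> rw [h] <;> linarith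

theorem absL {Y0 Y1 Z0 Z1 : ℕ} {y s : ℝ} (hI : InRc Y0 Y1 Z0 Z1 y s) :
    ((Nat.add (Nat.sub Z0 102400) (Nat.sub 102400 Z1) : ℕ) : ℝ) ≤ |s| * 25600 := by
  rw [cast_add', subP, subP]
  have h0 := hI.z0
  have h1 := hI.z1
  have h2 := h0.trans h1
  unfold ps at h0 h1
  push_cast
  have ha := abs_nonneg s
  rcases le_total ((Z0 : ℝ)) 102400 with h3 | h3
  · rw [max_eq_right (by linarith only [h3] : (Z0 : ℝ) - 102400 ≤ 0), zero_add]
    apply max_le
    · linarith only [neg_le_abs s, h1]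
    · positivity
  · rw [max_eq_right (by linarith only [h3, h1, h0] : 102400 - (Z1 : ℝ) ≤ 0), add_zero]
    apply max_le
    · linarith only [le_abs_self s, h0]
    · positivity

theorem rfn_sound {c : RC} {Y0 Y1 Z0 Z1 : ℕ} {k : ℕ → ℕ → ℕ → ℕ → Bool}
    {y s t h lb la ab aa : ℝ} (hk : rfn c Y0 Y1 Z0 Z1 k = true)
    (hE : Eq3 y s t h lb la ab aa) (hc : RcOK c lb la ab aa) (hI : InRc Y0 Y1 Z0 Z1 y s)
    (hR : Rk Y1 Z0 Z1) : Nx Y0 Y1 Z0 Z1 y s k := by
  unfold rfn at hk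
  simp only [fN_eq] at hk
  have r1 : (Y1 : ℝ) ≤ 9600 := by exact_mod_cast hR.y1
  have h01 : (Y0 : ℝ) ≤ Y1 := hI.y0.trans hI.y1
  have hY : Y0 ≤ Y1 := by exact_mod_cast h01
  have ea : ((Nat.sub 12800 Y1 : ℕ) : ℝ) = 12800 - Y1 := by
    rw [show Nat.sub 12800 Y1 = 12800 - Y1 from rfl, Nat.cast_sub (by have := hR.y1; omega)]
    norm_num
  have eb : ((Nat.sub 12800 Y0 : ℕ) : ℝ) = 12800 - Y0 := by
    rw [show Nat.sub 12800 Y0 = 12800 - Y0 from rfl, Nat.cast_sub (by have := hR.y1; omega)]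
    norm_num
  have hb2 : Nat.sub 12800 Y0 ≤ 12800 := Nat.sub_le _ _
  have ha2 : 1 ≤ Nat.sub 12800 Y1 := by
    rw [show Nat.sub 12800 Y1 = 12800 - Y1 from rfl]
    have := hR.y1
    omega
  obtain ⟨lU, g1, hk⟩ := lup_sound hk
  obtain ⟨l, e, g2, hk⟩ := llo_sound hk ha2
  obtain ⟨tp, tn, g3, hk⟩ := tsU_sound hk ha2 hb2
  obtain ⟨rp, rn, g4, hk⟩ := tsL_sound hk ha2 hb2
  have hy1 := hI.y1
  have hy0 := hI.y0
  have hY0 : (0 : ℝ) ≤ Y0 := Nat.cast_nonneg _
  have q1 : (1 / 2 - y) * 25600 ≤ ((Nat.sub 12800 Y0 : ℕ) : ℝ) := by rw [eb]; linarith only [hy0]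
  have q2 : ((Nat.sub 12800 Y1 : ℕ) : ℝ) ≤ (1 / 2 - y) * 25600 := by rw [ea]; linarith only [hy1]
  have q3 : |s| * 25600 ≤ ((mx (Nat.sub Z1 102400) (Nat.sub 102400 Z0) : ℕ) : ℝ) := absU hI
  have q4 : ((Nat.add (Nat.sub Z0 102400) (Nat.sub 102400 Z1) : ℕ) : ℝ) ≤ |s| * 25600 := absL hI
  exact rfe_sound hk hE hc hI hR (g1 _ s (by linarith only [hy1, r1]) q1 hb2 q3) (g2 _ s q2 (by linarith only [hy0,
                                                                                                  h01]) q4)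
    (g3 _ s q2 q1 hI.z1) (g4 _ s q2 q1 hI.z0)

theorem pm_err {x B : ℝ} (h : |x| ≤ B) :
    884279719003555 * x - B ≤ Real.pi * Num.UU * x ∧
      Real.pi * Num.UU * x ≤ 884279719003555 * x + B := by
  have h1 : |(Real.pi * Num.UU - 884279719003555) * x| ≤ 1 * B := by
    rw [abs_mul]
    exact mul_le_mul piU h (abs_nonneg _) (by norm_num)
  have h2 := abs_le.1 h1
  constructor <;> linarith [h2.1, h2.2]

/-- The ranges of the other variable. -/
structure Et (y s t h : ℝ) (k : ℕ → ℕ → ℕ → ℕ → Bool) : Prop where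
  ex : ∃ e0 e1 t0 t1 : ℕ, (e0 : ℝ) ≤ ps h ∧ ps h ≤ e1 ∧ (t0 : ℝ) ≤ t * 25600 ∧ t * 25600 ≤ t1 ∧
    k e0 e1 t0 t1 = true

theorem etR_sound {Y0 Y1 Z0 Z1 : ℕ} {k : ℕ → ℕ → ℕ → ℕ → Bool}
    {y s t h lb la ab aa : ℝ} (hk : etR Y0 Y1 Z0 Z1 k = true)
    (hE : Eq3 y s t h lb la ab aa) (hI : InRc Y0 Y1 Z0 Z1 y s)
    (hR : Rk Y1 Z0 Z1) (ht0 : 0 ≤ t) (ht1 : t ≤ 1) : Et y s t h k := by
  unfold etR at hk
  rcases cond_cases hk with ⟨hb, hk⟩ | ⟨-, hk⟩
  swap
  · exact absurd hk (by simp)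
  have hb := Nat.le_of_ble_eq_true hb
  simp only [fN_eq] at hk
  have r0 : (640 : ℝ) ≤ Y0 := by exact_mod_cast hb
  have r1 : (Y1 : ℝ) ≤ 9600 := by exact_mod_cast hR.y1
  have r2 : (99584 : ℝ) ≤ Z0 := by exact_mod_cast hR.z0
  have r3 : (Z1 : ℝ) ≤ 103424 := by exact_mod_cast hR.z1
  have hy1 := hI.y1
  have hy0 := hI.y0
  have hz0 := hI.z0
  have hz1 := hI.z1
  have hY1 : Y1 ≤ 12800 := by have := hR.y1; omega
  obtain ⟨lU, g1, hk⟩ := lup_sound hk
  obtain ⟨l, e, g2, hk⟩ := llo_sound hk (by omega)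
  obtain ⟨tp, tn, g3, hk⟩ := tsU_sound hk (by omega) hY1
  obtain ⟨rp, rn, g4, hk⟩ := tsL_sound hk (by omega) hY1
  rcases cond_cases hk with ⟨hl, hk⟩ | ⟨-, hk⟩
  swap
  · exact absurd hk (by simp)
  rcases cond_cases hk with ⟨he, hk⟩ | ⟨-, hk⟩
  swap
  · exact absurd hk (by simp)
  have hl := Nat.le_of_ble_eq_true hl
  have he := Nat.le_of_ble_eq_true he
  have hl' : (lU : ℝ) ≤ 4785074604081152 := by exact_mod_cast hl
  have he' : (e : ℝ) ≤ 281474976710656 := by exact_mod_cast he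
  have q3 : |s| * 25600 ≤ ((mx (Nat.sub Z1 102400) (Nat.sub 102400 Z0) : ℕ) : ℝ) := absU hI
  have q4 : ((Nat.add (Nat.sub Z0 102400) (Nat.sub 102400 Z1) : ℕ) : ℝ) ≤ |s| * 25600 := absL hI
  have g1 := g1 y s (by linarith only [hy0, r0]) hy1 hY1 q3
  have g2 := g2 y s hy0 (by linarith only [hy1, r1]) q4
  have g3 := g3 y s hy0 hy1 hz1
  have g4 := g4 y s hy0 hy1 hz0
  unfold ete at hk
  simp only [fN_eq] at hk
  have kK : Num.KK = 4503599627370496 := by norm_num [Num.KK]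
  have kU : Num.UU = 281474976710656 := by norm_num [Num.UU]
  rw [kK] at g1 g2
  have hpi := Real.pi_gt_three
  have hpi2 := Real.pi_lt_d2
  have hpu := abs_le.1 piU
  have hs : -(11 / 100) ≤ s ∧ s ≤ 1 / 25 := by
    unfold ps at hz0 hz1
    constructor <;> linarith
  have hl0 : (0 : ℝ) ≤ l := Nat.cast_nonneg l
  -- the size of `h`
  have hh : |ps h - 102400| ≤ 102400 := by
    have a1 : Lg s y ≤ 1 := by
      rw [kU] at g1
      linarith only [g1, hl']
    have a2 : -17 ≤ Lg s y := by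
      rw [kU] at g2
      linarith only [g2, he']
    have a3 := hE.e5
    unfold ps
    rw [abs_le]
    have b1 : Real.pi * s ≤ 1 := by (refine le_of_not_gt fun hng => ?_; linarith only [hs.2, hpi2,
                                      mul_nonneg (sub_nonneg.2 hpi.le) (sub_nonneg.2 hs.2),
                                      mul_pos (sub_pos.2 hng) (sub_pos.2 hpi2),
                                      mul_pos (sub_pos.2 hng) (sub_pos.2 hpi)])
    have b2 : -1 ≤ Real.pi * s := by (refine le_of_not_gt fun hng => ?_; linarith only [hs.1, hpi2,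
                                       mul_nonneg (sub_nonneg.2 hpi.le) (sub_nonneg.2 hs.1),
                                       mul_pos (sub_pos.2 hng) (sub_pos.2 hpi2),
                                       mul_pos (sub_pos.2 hng) (sub_pos.2 hpi)])
    have c1 := a3
    constructor
    · by_contra hc
      push Not at hc
      have : Real.pi * (2 * h) ≤ 3 * (2 * h) := mul_le_mul_of_nonpos_right hpi.le (by linarith only [hc,
                                                                                        hpi2, hpi])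
      linarith only [this, hc, b1, a3, a2, hpi2, hpi]
    · by_contra hc
      push Not at hc
      have : 3 * (2 * h) ≤ Real.pi * (2 * h) := mul_le_mul_of_nonneg_right hpi.le (by linarith only [hc,
                                                                                        hpi2, hpi])
      linarith only [this, hc, b2, a3, a1, hpi2, hpi]
  have hh0 : 0 ≤ ps h := by linarith only [(abs_le.1 hh).1]
  have hT : |t * 25600 - 0| ≤ 102400 := by
    rw [sub_zero, abs_le]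
    constructor <;> linarith
  have hT0 : 0 ≤ t * 25600 := by linarith only [ht0]
  have E5 : (2 : ℕ) * (Real.pi * Num.UU) * (ps h - 102400) =
      (Real.pi * Num.UU) * (102400 - ps s) + 25600 * (Num.UU * Lg s y) := by
    unfold ps
    push_cast
    linear_combination 25600 * Num.UU * hE.e5
  have E6 : (2 : ℕ) * (Real.pi * Num.UU) * (t * 25600 - 0) =
      (Real.pi * Num.UU) * (12800 + y * 25600) + 25600 * (Num.UU * Th y s) := by
    push_cast
    linear_combination 25600 * Num.UU * hE.e6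
  have p0 : 0 < Real.pi * Num.UU := by linarith only [hpu.1, hpi2, hpi]
  refine ⟨⟨_, _, _, _, ?_, ?_, ?_, ?_, hk⟩⟩
  · refine dvL_sound 2 (by norm_num) (by norm_num) hh0 hh E5.ge ?_
    have f1 : (Real.pi * Num.UU) * (102400 - Z1) ≤ (Real.pi * Num.UU) * (102400 - ps s) :=
      mul_le_mul_of_nonneg_left (by linarith only [hz1]) p0.le
    have f2 := (pm_err (x := 102400 - (Z1 : ℝ)) (B := 5000) (by
      rw [abs_le]
      constructor <;> linarith)).1
    simp only [Nat.add_eq, Nat.mul_eq]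
    push_cast
    linarith only [f2, f1, hpi2, hpi, g2]
  · refine dvU_sound 2 (by norm_num) (by norm_num) hh E5.le ?_
    have f1 : (Real.pi * Num.UU) * (102400 - ps s) ≤ (Real.pi * Num.UU) * (102400 - Z0) :=
      mul_le_mul_of_nonneg_left (by linarith only [hz0]) p0.le
    have f2 := (pm_err (x := 102400 - (Z0 : ℝ)) (B := 5000) (by
      rw [abs_le]
      constructor <;> linarith)).2
    simp only [Nat.add_eq, Nat.mul_eq]
    push_cast
    linarith only [f2, f1, hpi2, hpi, g1]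
  · refine dvL_sound 2 (by norm_num) (by norm_num) hT0 hT E6.ge ?_
    have f1 : (Real.pi * Num.UU) * (12800 + Y0) ≤ (Real.pi * Num.UU) * (12800 + y * 25600) :=
      mul_le_mul_of_nonneg_left (by linarith only [hy0]) p0.le
    have f2 := (pm_err (x := 12800 + (Y0 : ℝ)) (B := 25000) (by
      rw [abs_le]
      constructor <;> linarith)).1
    simp only [Nat.add_eq, Nat.mul_eq]
    push_cast
    linarith only [f2, f1, hpi2, hpi, g4]
  · refine dvU_sound 2 (by norm_num) (by norm_num) hT E6.le ?_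
    have f1 : (Real.pi * Num.UU) * (12800 + y * 25600) ≤ (Real.pi * Num.UU) * (12800 + Y1) :=
      mul_le_mul_of_nonneg_left (by linarith only [hy1]) p0.le
    have f2 := (pm_err (x := 12800 + (Y1 : ℝ)) (B := 25000) (by
      rw [abs_le]
      constructor <;> linarith)).2
    simp only [Nat.add_eq, Nat.mul_eq]
    push_cast
    linarith only [f2, f1, hpi2, hpi, g3]

end Pool.Agent.S5.Z3
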