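import Pool.Agent.S5.Z.Out
import Pool.Agent.S5.Z.Par

/-!
# Ends with three half twists: from the regions to the rectangle
-/

set_option autoImplicit false

namespace Pool.Agent.S5.Z3

open Pool.Agent.H63.VC3 Pool.Agent.S3 Complex Set Pool.Agent.S5.Num
open scoped ComplexConjugate

theorem arg_arctan {w : ℂ} (h : 0 < w.re) : w.arg = Real.arctan (w.im / w.re) := by
  have h1 := abs_lt.1 (abs_arg_lt_pi_div_two_iff.2 (Or.inl h))
  rw [← tan_arg, Real.arctan_tan h1.1 h1.2]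

/-- A region: bounds for the norm and for the argument. -/
structure Rgn (a b p q : ℕ) (w : ℂ) (φ : ℝ) : Prop where
  re : 0 < w.re
  n0 : (a : ℝ) / 1000 ≤ ‖w‖
  n1 : ‖w‖ ≤ (b : ℝ) / 1000
  p0 : Real.arctan ((p : ℝ) / 1000) ≤ φ
  p1 : φ ≤ Real.arctan ((q : ℝ) / 1000)

theorem lnh_err {v : ℕ} (h0 : 1 ≤ v) (h1 : v ≤ 1000) :
    |4 * ((lnh v : ℕ) : ℝ) - 2 * Num.UU * Real.log v| ≤ 160 := by
  have h2 : v < 2 ^ 120 := lt_of_le_of_lt h1 (by norm_num)
  have h := abs_le.1 (lnh_sound (by omega : 0 < v) h2)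
  rw [abs_le]
  constructor <;> linarith [h.1, h.2]

theorem log_up {a : ℕ} (h0 : 1 ≤ a) (h1 : a ≤ 1000) {n : ℝ} (hn : (a : ℝ) / 1000 ≤ n) :
    -(2 * Real.log n) * Num.UU ≤
      ((Nat.sub (Nat.add (Nat.mul 4 (lnh 1000)) 320) (Nat.mul 4 (lnh a)) : ℕ) : ℝ) := by
  have ha : (1 : ℝ) ≤ a := by exact_mod_cast h0
  have e1 : Real.log ((a : ℝ) / 1000) ≤ Real.log n := Real.log_le_log (by positivity) hn
  rw [Real.log_div (by positivity) (by norm_num)] at e1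
  have e2 := abs_le.1 (lnh_err h0 h1)
  have e3 := abs_le.1 (lnh_err (v := 1000) (by norm_num) le_rfl)
  have e4 := mul_le_mul_of_nonneg_right e1 UU_pos.le
  rw [subP]
  refine le_trans ?_ (le_max_left _ _)
  simp only [Nat.add_eq, Nat.mul_eq]
  push_cast at e2 e3 ⊢
  linarith [e2.1, e2.2, e3.1, e3.2]

theorem log_lo {b : ℕ} (h0 : 1 ≤ b) (h1 : b ≤ 1000) {n : ℝ} (h2 : 0 < n)
    (hn : n ≤ (b : ℝ) / 1000) :
    ((Nat.sub (Nat.mul 4 (lnh 1000)) (Nat.add (Nat.mul 4 (lnh b)) 320) : ℕ) : ℝ) ≤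
      -(2 * Real.log n) * Num.UU := by
  have hb : (1 : ℝ) ≤ b := by exact_mod_cast h0
  have hb1 : (b : ℝ) ≤ 1000 := by exact_mod_cast h1
  have e1 : Real.log n ≤ Real.log ((b : ℝ) / 1000) := Real.log_le_log h2 hn
  rw [Real.log_div (by positivity) (by norm_num)] at e1
  have e2 := abs_le.1 (lnh_err h0 h1)
  have e3 := abs_le.1 (lnh_err (v := 1000) (by norm_num) le_rfl)
  have e4 := mul_le_mul_of_nonneg_right e1 UU_pos.le
  have e5 : Real.log n ≤ 0 := Real.log_nonpos h2.le (hn.trans (by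
    rw [div_le_one (by norm_num)]
    exact hb1))
  have hU := UU_pos
  rw [subP]
  apply max_le
  · simp only [Nat.add_eq, Nat.mul_eq]
    push_cast at e2 e3 ⊢
    linarith [e2.1, e2.2, e3.1, e3.2]
  · have : 0 ≤ -(2 * Real.log n) := by linarith
    positivity

theorem atq_err (p : ℕ) : |2 * ((atq p 1000 : ℕ) : ℝ) - 2 * Num.UU * Real.arctan ((p : ℝ) / 1000)| ≤
    16 := by
  have h := abs_le.1 (atq_sound (p := p) (q := 1000) (by norm_num))
  push_cast at h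
  rw [abs_le]
  constructor <;> linarith [h.1, h.2]

theorem mkC_aux {S : Bool} {M0 M1 s0 s1 O0 O1 W0 W1 : ℕ} {k : RC → Bool} {c κ : ℂ} {φ : ℝ}
    (h : cond S (k ⟨M0, M1, s0, 16, Nat.add s1 16, 0, O0, O1, W0, W1⟩)
      (k ⟨M0, M1, 0, Nat.add s1 16, 16, s0, O0, O1, W0, W1⟩) = true)
    (ha : c.arg = if S then -φ else φ)
    (m0 : -(2 * Real.log ‖c‖) * Num.UU ≤ M0) (m1 : (M1 : ℝ) ≤ -(2 * Real.log ‖c‖) * Num.UU)
    (o0 : -(2 * Real.log ‖κ‖) * Num.UU ≤ O0) (o1 : (O1 : ℝ) ≤ -(2 * Real.log ‖κ‖) * Num.UU)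
    (w0 : (W0 : ℝ) ≤ -(2 * κ.arg) * Num.UU) (w1 : -(2 * κ.arg) * Num.UU ≤ W1)
    (a1 : (s0 : ℝ) ≤ 2 * Num.UU * φ + 16) (a2 : 2 * Num.UU * φ ≤ (s1 : ℝ) + 16)
    (_ : (s0 : ℝ) ≤ 2 * Num.UU * φ + 16) (_ : 2 * Num.UU * φ ≤ (s1 : ℝ) + 16) :
    ∃ r : RC, RcOK r (2 * Real.log ‖c‖) (2 * Real.log ‖κ‖) (2 * c.arg) (2 * κ.arg) ∧
      k r = true := by
  cases S
  · simp only [Bool.false_eq_true, if_false] at ha
    refine ⟨_, ⟨m0, m1, ?_, ?_, o0, o1, w0, w1⟩, h⟩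
    · rw [ha]
      simp only [Nat.add_eq]
      push_cast
      linarith
    · rw [ha]
      push_cast
      linarith
  · simp only [if_true] at ha
    refine ⟨_, ⟨m0, m1, ?_, ?_, o0, o1, w0, w1⟩, h⟩
    · rw [ha]
      push_cast
      linarith
    · rw [ha]
      simp only [Nat.add_eq]
      push_cast
      linarith

/-- The constants. -/
theorem mkC_sound {S : Bool} {a b p q a' b' p' q' : ℕ} {k : RC → Bool}
    (h : mkC S a b p q a' b' p' q' k = true) (hd : adr a b q a' b' q' = true) {κ c : ℂ} {φ ψ : ℝ}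
    (h1 : Rgn a b p q c φ) (h2 : Rgn a' b' p' q' κ ψ) (ha : c.arg = if S then -φ else φ)
    (hk : κ.arg = -ψ) :
    ∃ r : RC, RcOK r (2 * Real.log ‖c‖) (2 * Real.log ‖κ‖) (2 * c.arg) (2 * κ.arg) ∧
      k r = true := by
  unfold adr at hd
  rcases cond_cases hd with ⟨-, hd⟩ | ⟨-, hd⟩
  swap
  · exact absurd hd (by simp)
  rcases cond_cases hd with ⟨-, hd⟩ | ⟨-, hd⟩
  swap
  · exact absurd hd (by simp)
  rcases cond_cases hd with ⟨-, hd⟩ | ⟨-, hd⟩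
  swap
  · exact absurd hd (by simp)
  rcases cond_cases hd with ⟨-, hd⟩ | ⟨-, hd⟩
  swap
  · exact absurd hd (by simp)
  rcases cond_cases hd with ⟨c1, hd⟩ | ⟨-, hd⟩
  swap
  · exact absurd hd (by simp)
  rcases cond_cases hd with ⟨c2, hd⟩ | ⟨-, hd⟩
  swap
  · exact absurd hd (by simp)
  rcases cond_cases hd with ⟨c3, hd⟩ | ⟨-, hd⟩
  swap
  · exact absurd hd (by simp)
  rcases cond_cases hd with ⟨c4, hd⟩ | ⟨-, hd⟩
  swap
  · exact absurd hd (by simp)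
  rcases cond_cases hd with ⟨c5, c6⟩ | ⟨-, hd⟩
  swap
  · exact absurd hd (by simp)
  have c1 := Nat.le_of_ble_eq_true c1
  have c2 := Nat.le_of_ble_eq_true c2
  have c3 := Nat.le_of_ble_eq_true c3
  have c4 := Nat.le_of_ble_eq_true c4
  have c5 := Nat.le_of_ble_eq_true c5
  have c6 := Nat.le_of_ble_eq_true c6
  have hc0 : 0 < ‖c‖ := lt_of_lt_of_le (by
    have : (1 : ℝ) ≤ a := by exact_mod_cast c3
    positivity) h1.n0
  have hk0 : 0 < ‖κ‖ := lt_of_lt_of_le (by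
    have : (1 : ℝ) ≤ a' := by exact_mod_cast c4
    positivity) h2.n0
  have hb1 : 1 ≤ b := by
    have h3 := hc0.trans_le h1.n1
    by_contra hcc
    have : b = 0 := by omega
    rw [this] at h3
    norm_num at h3
  have hb1' : 1 ≤ b' := by
    have h3 := hk0.trans_le h2.n1
    by_contra hcc
    have : b' = 0 := by omega
    rw [this] at h3
    norm_num at h3
  have hU := UU_pos
  unfold mkC at h
  simp only [fN_eq] at h
  have m0 := log_up c3 c5 h1.n0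
  have m1 := log_lo hb1 c1 hc0 h1.n1
  have o0 := log_up c4 c6 h2.n0
  have o1 := log_lo hb1' c2 hk0 h2.n1
  have q1 := abs_le.1 (atq_err p)
  have q2 := abs_le.1 (atq_err q)
  have q3 := abs_le.1 (atq_err p')
  have q4 := abs_le.1 (atq_err q')
  have s1 := mul_le_mul_of_nonneg_left h1.p0 (by linarith : 0 ≤ 2 * Num.UU)
  have s2 := mul_le_mul_of_nonneg_left h1.p1 (by linarith : 0 ≤ 2 * Num.UU)
  have s3 := mul_le_mul_of_nonneg_left h2.p0 (by linarith : 0 ≤ 2 * Num.UU)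
  have s4 := mul_le_mul_of_nonneg_left h2.p1 (by linarith : 0 ≤ 2 * Num.UU)
  have w0 : ((Nat.sub (Nat.mul 2 (atq p' 1000)) 16 : ℕ) : ℝ) ≤ -(2 * κ.arg) * Num.UU := by
    rw [hk, subP]
    have hp0 : 0 ≤ ψ := (Real.arctan_nonneg.2 (by positivity)).trans h2.p0
    apply max_le
    · simp only [Nat.mul_eq]
      push_cast
      linarith [q3.1, q3.2]
    · have : 0 ≤ -(2 * -ψ) := by linarith
      positivity
  have w1 : -(2 * κ.arg) * Num.UU ≤ ((Nat.add (Nat.mul 2 (atq q' 1000)) 16 : ℕ) : ℝ) := by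
    rw [hk]
    simp only [Nat.add_eq, Nat.mul_eq]
    push_cast
    linarith [q4.1, q4.2]
  refine mkC_aux h ha m0 m1 o0 o1 w0 w1 ?_ ?_ ?_ ?_
  · simp only [Nat.mul_eq]
    push_cast
    linarith [q1.1, q1.2]
  · simp only [Nat.mul_eq]
    push_cast
    linarith [q2.1, q2.2]
  · simp only [Nat.mul_eq]
    push_cast
    linarith [q1.1, q1.2]
  · simp only [Nat.mul_eq]
    push_cast
    linarith [q2.1, q2.2]

end Pool.Agent.S5.Z3
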