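import Pool.Agent.S5.Z.Mon
import Pool.Agent.S5.Z.Par
import Pool.Agent.S5.I.NumPk

/-!
# Ends with three half twists: rectangles for the critical point

Positions are natural numbers in units of `1 / 25600`, with the origin at `102400`.
-/

set_option autoImplicit false

namespace Pool.Agent.S5.Z3

open Pool.Agent.H63.VC3 Pool.Agent.S3 Complex Set Pool.Agent.S5.Num

/-- The position of `x`. -/
noncomputable def ps (x : ℝ) : ℝ := x * 25600 + 102400

/-! ### Programs -/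

def lup (a b : Nat) (k : Nat → Bool) : Bool :=
  ltK a b 25600 (fun l _ e _ _ _ => fN k (Nat.add l e))

def llo (a b : Nat) (k : Nat → Nat → Bool) : Bool :=
  ltK a b 25600 (fun l _ e _ _ _ => k l e)

/-- Upper bound of `Th` for `xa ≤ x ≤ xb`, `s ≤ Z`. -/
def tsU (xa xb Z : Nat) (k : Nat → Nat → Bool) : Bool :=
  cond (Nat.ble 102400 Z)
    (ltK xa (Nat.sub Z 102400) 25600 (fun _ t e _ _ _ => fN (fun p => k p 4503599627370496) (Nat.add t e)))
    (ltK xb (Nat.sub 102400 Z) 25600 (fun _ t e _ _ _ => fN (fun p => k p t) (Nat.add 4503599627370496 e)))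

/-- Lower bound of `Th` for `xa ≤ x ≤ xb`, `Z ≤ s`. -/
def tsL (xa xb Z : Nat) (k : Nat → Nat → Bool) : Bool :=
  cond (Nat.ble Z 102400)
    (ltK xa (Nat.sub 102400 Z) 25600 (fun _ t e _ _ _ => fN (fun n => k 4503599627370496 n) (Nat.add t e)))
    (ltK xb (Nat.sub Z 102400) 25600 (fun _ t e _ _ _ => fN (fun n => k t n) (Nat.add 4503599627370496 e)))

/-- The position of an upper bound. -/
def dvU (p n M : Nat) : Nat := Nat.succ (Nat.div (Nat.sub p n) M)

/-- The position of a lower bound. -/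
def dvL (p n M : Nat) : Nat := Nat.div (Nat.sub p n) M

/-! ### Soundness -/

theorem pos_le {x : ℝ} {a : ℕ} (h : x * 25600 ≤ a) : x ≤ (a : ℝ) / (25600 : ℕ) := by
  push_cast
  linarith

theorem pos_ge {x : ℝ} {a : ℕ} (h : (a : ℝ) ≤ x * 25600) : (a : ℝ) / (25600 : ℕ) ≤ x := by
  push_cast
  linarith

theorem lup_sound {a b : ℕ} {k : ℕ → Bool} (h : lup a b k = true) :
    ∃ l : ℕ, (∀ x s : ℝ, 0 < x → x * 25600 ≤ a → a ≤ 12800 → |s| * 25600 ≤ b →
      Num.UU * Lg s x ≤ l - Num.KK) ∧ k l = true := by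
  unfold lup at h
  obtain ⟨l, t, e, cr, ci, eC, h1, h2⟩ := ltK_sound h
  rw [fN_eq] at h2
  refine ⟨_, ?_, h2⟩
  intro x s h0 h3 h4 h5
  have h6 := (abs_le.1 h1.l).2
  have h7 : Lg s x ≤ Lg ((b : ℝ) / (25600 : ℕ)) ((a : ℝ) / (25600 : ℕ)) := by
    apply Lg_mono2 h0 (pos_le h3)
    · have : (a : ℝ) ≤ 12800 := by exact_mod_cast h4
      push_cast
      linarith
    · have h8 : (0 : ℝ) ≤ (b : ℝ) / (25600 : ℕ) := by positivity
      rw [abs_of_nonneg h8]
      exact pos_le h5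
  have h9 := mul_le_mul_of_nonneg_left h7 UU_pos.le
  show _ ≤ ((l + e : ℕ) : ℝ) - Num.KK
  rw [Nat.cast_add]
  linarith

theorem llo_sound {a b : ℕ} {k : ℕ → ℕ → Bool} (h : llo a b k = true) (ha : 1 ≤ a) :
    ∃ l e : ℕ, (∀ x s : ℝ, (a : ℝ) ≤ x * 25600 → x ≤ 1 / 2 → (b : ℝ) ≤ |s| * 25600 →
      l - e - Num.KK ≤ Num.UU * Lg s x) ∧ k l e = true := by
  unfold llo at h
  obtain ⟨l, t, e, cr, ci, eC, h1, h2⟩ := ltK_sound h
  refine ⟨l, e, ?_, h2⟩
  intro x s h0 h3 h4
  have h6 := (abs_le.1 h1.l).1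
  have h7 : Lg ((b : ℝ) / (25600 : ℕ)) ((a : ℝ) / (25600 : ℕ)) ≤ Lg s x := by
    apply Lg_mono2 _ (pos_ge h0) h3
    · have h8 : (0 : ℝ) ≤ (b : ℝ) / (25600 : ℕ) := by positivity
      rw [abs_of_nonneg h8]
      exact pos_ge h4
    · have : (1 : ℝ) ≤ a := by exact_mod_cast ha
      positivity
  have h9 := mul_le_mul_of_nonneg_left h7 UU_pos.le
  linarith

theorem cond_cases {c : Bool} {P Q : Bool} (h : cond c P Q = true) :
    (c = true ∧ P = true) ∨ (c = false ∧ Q = true) := by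
  cases c
  · exact Or.inr ⟨rfl, h⟩
  · exact Or.inl ⟨rfl, h⟩

theorem ble_ff {a b : ℕ} (h : Nat.ble a b = false) : b < a := by
  by_contra h2
  rw [Nat.ble_eq_true_of_le (not_lt.1 h2)] at h
  exact absurd h (by decide)

theorem cast_add' (a b : ℕ) : ((Nat.add a b : ℕ) : ℝ) = (a : ℝ) + b := Nat.cast_add a b

theorem KK_nat : ((4503599627370496 : ℕ) : ℝ) = Num.KK := by norm_num [Num.KK]

theorem Th_def (x s : ℝ) : (hh ((x : ℂ) + s * I)).im = Th x s := rfl

theorem tsU_sound {xa xb Z : ℕ} {k : ℕ → ℕ → Bool} (h : tsU xa xb Z k = true) (ha : 1 ≤ xa)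
    (hb : xb ≤ 12800) : ∃ p n : ℕ, (∀ x s : ℝ, (xa : ℝ) ≤ x * 25600 → x * 25600 ≤ xb →
      ps s ≤ Z → Num.UU * Th x s ≤ p - n) ∧ k p n = true := by
  have ha' : (1 : ℝ) ≤ xa := by exact_mod_cast ha
  have hb' : (xb : ℝ) ≤ 12800 := by exact_mod_cast hb
  have c0 : (0 : ℝ) < (xa : ℝ) / (25600 : ℕ) := by positivity
  have c1 : (xb : ℝ) / (25600 : ℕ) ≤ 1 / 2 := by push_cast; linarith
  unfold tsU at h
  rcases cond_cases h with ⟨h0, h1⟩ | ⟨h0, h1⟩
  · have h0' : 102400 ≤ Z := Nat.le_of_ble_eq_true h0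
    obtain ⟨l, t, e, cr, ci, eC, h2, h3⟩ := ltK_sound h1
    rw [fN_eq] at h3
    refine ⟨Nat.add t e, 4503599627370496, ?_, h3⟩
    intro x s h4 h5 h6
    have h7 := (abs_le.1 h2.t).2
    rw [Th_def] at h7
    have e1 : (((Z.sub 102400 : ℕ) : ℝ)) = (Z : ℝ) - 102400 := by
      rw [show Z.sub 102400 = Z - 102400 from rfl, Nat.cast_sub h0']
      norm_num
    have h8 : Th x s ≤ Th ((xa : ℝ) / (25600 : ℕ)) (((Z.sub 102400 : ℕ) : ℝ) / (25600 : ℕ)) := by
      apply Th_le c0 (pos_ge h4) (pos_le h5) c1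
      · unfold ps at h6
        rw [e1]
        push_cast
        linarith
      · left
        exact ⟨div_nonneg (Nat.cast_nonneg _) (Nat.cast_nonneg _), rfl⟩
    have h9 := mul_le_mul_of_nonneg_left h8 UU_pos.le
    rw [cast_add', KK_nat]
    linarith
  · have h0' : Z < 102400 := ble_ff h0
    obtain ⟨l, t, e, cr, ci, eC, h2, h3⟩ := ltK_sound h1
    rw [fN_eq] at h3
    refine ⟨Nat.add 4503599627370496 e, t, ?_, h3⟩
    intro x s h4 h5 h6
    have h7 := (abs_le.1 h2.t).1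
    rw [Th_def] at h7
    have e1 : ((((102400 : ℕ).sub Z : ℕ) : ℝ)) = 102400 - (Z : ℝ) := by
      rw [show (102400 : ℕ).sub Z = 102400 - Z from rfl, Nat.cast_sub h0'.le]
      norm_num
    set S : ℝ := (((102400 : ℕ).sub Z : ℕ) : ℝ) / (25600 : ℕ) with hS
    have hS0 : 0 ≤ S := by positivity
    have h8 : Th x s ≤ Th ((xb : ℝ) / (25600 : ℕ)) (-S) := by
      apply Th_le c0 (pos_ge h4) (pos_le h5) c1
      · unfold ps at h6
        rw [hS, e1]
        push_cast
        linarith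
      · right
        exact ⟨by linarith, rfl⟩
    have hxb : (0 : ℝ) < (xb : ℝ) / (25600 : ℕ) := by
      refine lt_of_lt_of_le c0 ?_
      exact (pos_ge h4).trans (pos_le h5)
    rw [Th_neg hxb (by linarith)] at h8
    have h9 := mul_le_mul_of_nonneg_left h8 UU_pos.le
    rw [cast_add', KK_nat]
    linarith

theorem tsL_sound {xa xb Z : ℕ} {k : ℕ → ℕ → Bool} (h : tsL xa xb Z k = true) (ha : 1 ≤ xa)
    (hb : xb ≤ 12800) : ∃ p n : ℕ, (∀ x s : ℝ, (xa : ℝ) ≤ x * 25600 → x * 25600 ≤ xb →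
      (Z : ℝ) ≤ ps s → (p : ℝ) - n ≤ Num.UU * Th x s) ∧ k p n = true := by
  have ha' : (1 : ℝ) ≤ xa := by exact_mod_cast ha
  have hb' : (xb : ℝ) ≤ 12800 := by exact_mod_cast hb
  have c0 : (0 : ℝ) < (xa : ℝ) / (25600 : ℕ) := by positivity
  have c1 : (xb : ℝ) / (25600 : ℕ) ≤ 1 / 2 := by push_cast; linarith
  unfold tsL at h
  rcases cond_cases h with ⟨h0, h1⟩ | ⟨h0, h1⟩
  · have h0' : Z ≤ 102400 := Nat.le_of_ble_eq_true h0
    obtain ⟨l, t, e, cr, ci, eC, h2, h3⟩ := ltK_sound h1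
    rw [fN_eq] at h3
    refine ⟨4503599627370496, Nat.add t e, ?_, h3⟩
    intro x s h4 h5 h6
    have h7 := (abs_le.1 h2.t).2
    rw [Th_def] at h7
    have e1 : ((((102400 : ℕ).sub Z : ℕ) : ℝ)) = 102400 - (Z : ℝ) := by
      rw [show (102400 : ℕ).sub Z = 102400 - Z from rfl, Nat.cast_sub h0']
      norm_num
    set S : ℝ := (((102400 : ℕ).sub Z : ℕ) : ℝ) / (25600 : ℕ) with hS
    have hS0 : 0 ≤ S := by positivity
    have h8 : Th ((xa : ℝ) / (25600 : ℕ)) (-S) ≤ Th x s := by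
      apply Th_ge c0 (pos_ge h4) (pos_le h5) c1
      · unfold ps at h6
        rw [hS, e1]
        push_cast
        linarith
      · right
        exact ⟨by linarith, rfl⟩
    rw [Th_neg c0 (by
      have : (xa : ℝ) / (25600 : ℕ) ≤ (xb : ℝ) / (25600 : ℕ) := (pos_ge h4).trans (pos_le h5)
      linarith)] at h8
    have h9 := mul_le_mul_of_nonneg_left h8 UU_pos.le
    rw [cast_add', KK_nat]
    linarith
  · have h0' : 102400 < Z := ble_ff h0
    obtain ⟨l, t, e, cr, ci, eC, h2, h3⟩ := ltK_sound h1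
    rw [fN_eq] at h3
    refine ⟨t, Nat.add 4503599627370496 e, ?_, h3⟩
    intro x s h4 h5 h6
    have h7 := (abs_le.1 h2.t).1
    rw [Th_def] at h7
    have e1 : (((Z.sub 102400 : ℕ) : ℝ)) = (Z : ℝ) - 102400 := by
      rw [show Z.sub 102400 = Z - 102400 from rfl, Nat.cast_sub h0'.le]
      norm_num
    have h8 : Th ((xb : ℝ) / (25600 : ℕ)) (((Z.sub 102400 : ℕ) : ℝ) / (25600 : ℕ)) ≤ Th x s := by
      apply Th_ge c0 (pos_ge h4) (pos_le h5) c1
      · unfold ps at h6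
        rw [e1]
        push_cast
        linarith
      · left
        exact ⟨div_nonneg (Nat.cast_nonneg _) (Nat.cast_nonneg _), rfl⟩
    have h9 := mul_le_mul_of_nonneg_left h8 UU_pos.le
    rw [cast_add', KK_nat]
    linarith

theorem piU : |Real.pi * Num.UU - 884279719003555| ≤ 1 := by
  have pi1 := Real.pi_gt_d20
  have pi2 := Real.pi_lt_d20
  rw [abs_le]
  unfold Num.UU
  constructor <;> linarith

theorem dv_err {c : ℕ} (hc : c ≤ 5) {t o : ℝ} (ht : |t - o| ≤ 102400) :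
    |(c : ℝ) * (Real.pi * Num.UU) * (t - o) - c * 884279719003555 * (t - o)| ≤ 512000 := by
  have hc'' : (c : ℝ) ≤ 5 := by exact_mod_cast hc
  have hc0 : (0 : ℝ) ≤ c := Nat.cast_nonneg c
  have e : (c : ℝ) * (Real.pi * Num.UU) * (t - o) - c * 884279719003555 * (t - o) =
      c * ((Real.pi * Num.UU - 884279719003555) * (t - o)) := by ring
  rw [e, abs_mul, abs_mul, abs_of_nonneg hc0]
  have h1 : |Real.pi * Num.UU - 884279719003555| * |t - o| ≤ 1 * 102400 :=
    mul_le_mul piU ht (abs_nonneg _) (by norm_num)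
  have h2 : 0 ≤ |Real.pi * Num.UU - 884279719003555| * |t - o| := by positivity
  nlinarith

/-- The last step for upper bounds. -/
theorem dvU_sound (c : ℕ) {p n : ℕ} (hc1 : 1 ≤ c) (hc : c ≤ 5) {t o A : ℝ}
    (ht : |t - o| ≤ 102400) (heq : (c : ℝ) * (Real.pi * Num.UU) * (t - o) ≤ A)
    (hA : A + 512000 ≤ (p : ℝ) - n - c * 884279719003555 * o) :
    t ≤ dvU p n (c * 884279719003555) := by
  set M := c * 884279719003555 with hM
  have hM0 : 0 < M := by omega
  set E := dvU p n M with hE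
  have h1 : (p : ℝ) - n ≤ (E : ℝ) * M := by
    have h2 : p - n < (p - n) / M * M + M := by
      have := Nat.lt_div_mul_add (a := p - n) hM0
      exact this
    have h3 : p ≤ n + (p - n) := by omega
    have h4 : E = (p - n) / M + 1 := rfl
    have h5 : p ≤ n + E * M := by
      rw [h4, add_mul, one_mul]
      omega
    have h6 : (p : ℝ) ≤ n + E * M := by exact_mod_cast h5
    linarith
  have e1 : (M : ℝ) = c * 884279719003555 := by rw [hM]; push_cast; ring
  rw [e1] at h1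
  have h2 := abs_le.1 (dv_err hc ht)
  have hc' : (1 : ℝ) ≤ c := by exact_mod_cast hc1
  have h3 : (c : ℝ) * 884279719003555 * t ≤ c * 884279719003555 * E := by linarith [h2.1]
  exact le_of_mul_le_mul_left h3 (by positivity)

/-- The last step for lower bounds. -/
theorem dvL_sound (c : ℕ) {p n : ℕ} (hc1 : 1 ≤ c) (hc : c ≤ 5) {t o A : ℝ} (h0 : 0 ≤ t)
    (ht : |t - o| ≤ 102400) (heq : A ≤ (c : ℝ) * (Real.pi * Num.UU) * (t - o))
    (hA : (p : ℝ) - n - c * 884279719003555 * o + 512000 ≤ A) :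
    (dvL p n (c * 884279719003555) : ℝ) ≤ t := by
  set M := c * 884279719003555 with hM
  have hM0 : 0 < M := by omega
  set E := dvL p n M with hE
  have hEd : E = (p - n) / M := rfl
  rcases Nat.lt_or_ge p n with hpn | hpn
  · have : E = 0 := by
      rw [hEd, Nat.sub_eq_zero_of_le hpn.le, Nat.zero_div]
    rw [this]
    simpa using h0
  have h1 : (E : ℝ) * M ≤ (p : ℝ) - n := by
    have h2 : (p - n) / M * M ≤ p - n := Nat.div_mul_le_self _ _
    have h5 : n + E * M ≤ p := by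
      rw [hEd]
      omega
    have h6 : (n : ℝ) + E * M ≤ p := by exact_mod_cast h5
    linarith
  have e1 : (M : ℝ) = c * 884279719003555 := by rw [hM]; push_cast; ring
  rw [e1] at h1
  have h2 := abs_le.1 (dv_err hc ht)
  have hc' : (1 : ℝ) ≤ c := by exact_mod_cast hc1
  have h3 : (c : ℝ) * 884279719003555 * E ≤ c * 884279719003555 * t := by linarith [h2.2]
  exact le_of_mul_le_mul_left h3 (by positivity)

end Pool.Agent.S5.Z3
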