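import Pool.Agent.S5.Z.All
import Pool.Agent.S5.E.T.Via

/-!
# Ends with three half twists: all neighbours

The neighbour `2SA` (two half twists, the edge to the end is `S`) is treated by its other neighbour
(`2AS`, or the end of the chain `(3, 2, 2)`).
-/

set_option autoImplicit false

namespace Pool.Agent.S5.Z3

open Complex
open Pool.Agent.S5.E (Vt vL vR nF nlF nrF TabV types mem_types)
open Pool.Agent.S5.E.B2 (InR)

/-- The region of the chain `(3, 2, 2)`. -/
def H322 (T : Vt → Vt → E.B2.Rg) : Prop :=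
  ∀ (R : ℕ) (a : ℕ → ℕ) (S : ℕ → Bool) (r : ℕ → ℤ) (z ql qr : ℕ → ℂ) (zF : Fin (R + 1) → ℂ),
    Ctx T R a S r z ql qr zF → R = 2 → a 0 = 3 → a 1 = 2 → a 2 = 2 → S 0 = true → S 1 = false →
      InR ⟨718, 752, 670, 725, 0⟩ (cos (z 1)).re (-(cos (z 1)).im)

/-- The vertex `2AS`. -/
def vAS : Vt := ⟨2, false, some true⟩

/-- The regions by both neighbours. -/
def HV (T V : Vt → Vt → E.B2.Rg) : Prop :=
  ∀ (R : ℕ) (a : ℕ → ℕ) (S : ℕ → Bool) (z ql qr : ℕ → ℂ) (zF : Fin (R + 1) → ℂ),
    Pre T R a S z ql qr zF → TabV vAS V (nF R a) (nlF R S) (nrF R S) zF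

theorem adm_sp {K : Vt} (h : E.adm spV (meV true) K = true) (ho : K.ok = true)
    (hs : K.s = false) : K = ⟨2, false, none⟩ ∨ K = vAS := by
  have hm := mem_types ho
  rw [hs] at hm
  have key : ∀ K ∈ types false, E.adm spV (meV true) K = true →
      K = ⟨2, false, none⟩ ∨ K = vAS := by decide
  exact key K hm h

theorem ckV {J : Vt} (h : J = spV) : chkC J ⟨750, 893, 472, 699, 591, 660, 451, 577⟩ = true := by
  rw [h]
  exact k2SAs

theorem ck322 {J : Vt} (h : J = spV) : chkC J ⟨718, 752, 670, 725, 588, 663, 448, 580⟩ = true := by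
  rw [h]
  exact k2SAe

variable {T V : Vt → Vt → E.B2.Rg} {R : ℕ} {a : ℕ → ℕ} {S : ℕ → Bool} {r : ℕ → ℤ}
  {z ql qr : ℕ → ℂ} {zF : Fin (R + 1) → ℂ}

theorem e3l_all (hT : okT T = true)
    (hV : sbR (V vAS (meV true)) 750 893 472 699 = true) (hTV : HV T V) (h322 : H322 T)
    (h : Ctx T R a S r z ql qr zF) (h3 : a 0 = 3) : Z3 R a S z ql qr 0 := by
  have hR : 1 ≤ R := h.adm.hR
  by_cases hs : vL R a S (0 + 1) = spV
  swap
  · exact e3l_one h h3 (cls_of hT (h.ok_l (i := 0) (by omega)) hs)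
  have hT2 : sbR (T (meV true) spV) 591 660 451 577 = true := by
    unfold okT at hT
    rw [Bool.and_eq_true] at hT
    exact hT.2
  have hv : (⟨min (a 1) 8, S 0, if 1 = R then none else some (S 1)⟩ : Vt) = spV := hs
  unfold spV at hv
  rw [Vt.mk.injEq] at hv
  obtain ⟨ha, hS0, ho⟩ := hv
  have hR1 : 1 ≠ R := by
    intro hc
    rw [if_pos hc] at ho
    exact absurd ho (by simp)
  rw [if_neg hR1, Option.some.injEq] at ho
  have ha1 : a 1 = 2 := by omega
  have hme : vR a S 0 = meV true := by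
    unfold E.vR meV
    rw [h3, if_pos rfl, hS0]
    rfl
  have hT3 : sbR (T (meV (S 0)) (vL R a S (0 + 1))) 591 660 451 577 = true := by
    rw [hs, hS0]
    exact hT2
  have had := h.adm_l (i := 0) (by omega)
  rw [hs, hme] at had
  rcases adm_sp had (h.ok_l (i := 1) (by omega)) ho with hK | hK
  · -- the chain `(3, 2, 2)`
    have hk : (⟨min (a 2) 8, S 1, if 2 = R then none else some (S 2)⟩ : Vt) =
      ⟨2, false, none⟩ := hK
    rw [Vt.mk.injEq] at hk
    obtain ⟨hb, -, hc⟩ := hk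
    have h2 : 2 = R := by
      by_contra hne
      rw [if_neg hne] at hc
      exact absurd hc (by simp)
    refine e3l_gen h h3 (c := ⟨718, 752, 670, 725, 588, 663, 448, 580⟩) (ck322 hs) ?_ ?_
      (h322 R a S r z ql qr zF h h2.symm h3 ha1 (by omega) hS0 ho)
    · rfl
    · unfold sbR at hT3 ⊢
      simp only [Bool.and_eq_true, Nat.ble_eq] at hT3 ⊢
      omega
  · -- the other neighbour is `2AS`
    have hva : vR a S 1 = vAS := by
      unfold E.vR vAS
      rw [ha1, ho, if_neg (by omega)]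
      simp [hS0]
    have r1 := (hTV R a S z ql qr zF h.toPre).chainR (i := 1) (by omega) (by omega) hva
    have e : z 1 = zF ⟨1, by omega⟩ := h.sol.ez ⟨1, by omega⟩
    rw [← e] at r1
    have e2 : vL R a S (1 + 1) = vAS := hK
    have e3 : vR a S (1 - 1) = meV true := hme
    rw [e2, e3] at r1
    exact e3l_gen h h3 (c := ⟨750, 893, 472, 699, 591, 660, 451, 577⟩) (ckV hs) hV hT3 r1

theorem e3r_all (hT : okT T = true)
    (hV : sbR (V vAS (meV true)) 750 893 472 699 = true) (hTV : HV T V)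
    (h : Ctx T R a S r z ql qr zF) {i : ℕ} (hi : i + 1 = R) (h3 : a (i + 1) = 3) :
    Z3 R a S z ql qr (i + 1) := by
  by_cases hs : vR a S i = spV
  swap
  · exact e3r_one h hi h3 (cls_of hT (h.ok_r (i := i) (by omega)) hs)
  have hT2 : sbR (T (meV true) spV) 591 660 451 577 = true := by
    unfold okT at hT
    rw [Bool.and_eq_true] at hT
    exact hT.2
  have hv : (⟨min (a i) 8, S i, if i = 0 then none else some (S (i - 1))⟩ : Vt) = spV := hs
  unfold spV at hv
  rw [Vt.mk.injEq] at hv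
  obtain ⟨ha, hS0, ho⟩ := hv
  have hi0 : i ≠ 0 := by
    intro hc
    rw [if_pos hc] at ho
    exact absurd ho (by simp)
  rw [if_neg hi0, Option.some.injEq] at ho
  have ha1 : a i = 2 := by omega
  have hT3 : sbR (T (meV (S i)) (vR a S i)) 591 660 451 577 = true := by
    rw [hs, hS0]
    exact hT2
  obtain ⟨g1, g2, g3⟩ := h.adm.e3r i hi hS0 (by rw [← hi]; exact h3) ha1
  have hva : vL R a S i = vAS := by
    unfold E.vL vAS
    rw [ha1, if_neg (by omega), hS0, ho]
    simp
  have r1 := (hTV R a S z ql qr zF h.toPre).chainL (i := i) (by omega) (by omega) hva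
  have e : z i = zF ⟨i, by omega⟩ := h.sol.ez ⟨i, by omega⟩
  rw [← e] at r1
  have e2 : vR a S (i - 1) = vAS := by
    unfold E.vR vAS
    rw [g2, ho, if_neg (by omega), show i - 1 - 1 = i - 2 by omega, g3]
    simp
  have e3 : vL R a S (i + 1) = meV true := by
    unfold E.vL meV
    rw [h3, if_pos hi, Nat.add_sub_cancel, hS0]
    rfl
  rw [e2, e3] at r1
  exact e3r_gen h hi h3 (c := ⟨750, 893, 472, 699, 591, 660, 451, 577⟩) (ckV hs) hV hT3 r1

end Pool.Agent.S5.Z3
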