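import Pool.Agent.S5.Z.Cls
import Pool.Agent.S5.Z.Node
import Pool.Agent.S5.I.TdL
import Pool.Agent.S5.I.LowD
import Pool.Agent.S5.I.QuadE

/-!
# Ends with three half twists: the statement of the node
-/

set_option autoImplicit false

namespace Pool.Agent.S5.Z3

open Pool.Agent.H63.VC3 Pool.Agent.S3 Complex Set Pool.Agent.S5.Num

theorem Dd_flat {s w0 w : ℝ} (h0 : 0 < w0) (h1 : w0 < 1 / 2) (d0 : -w0 ≤ w) (d1 : w ≤ 1 - w0) :
    w = w0 ∨ 0 < Dd s w0 w := by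
  rcases lt_trichotomy w w0 with h | h | h
  · exact Or.inr (Dd_pos_left h0 h1 (by linarith) (by linarith) h)
  · exact Or.inl h
  · exact Or.inr (Dd_pos_right h0 h d1)

/-- Both variables on the flats. -/
theorem flt_flt {zs bs z b : ℂ} (hb0 : 0 < bs.re) (hb1 : bs.re < 1 / 2) (h0 : 0 < zs.re + bs.re)
    (h1 : zs.re + bs.re < 1 / 2) (hz : z.im = zs.im) (hb : b.im = bs.im) (c0 : 0 ≤ b.re)
    (c1 : b.re ≤ 1 / 2) (d0 : -(zs.re + bs.re) ≤ z.re + b.re)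
    (d1 : z.re + b.re ≤ 1 - (zs.re + bs.re)) :
    (Ez3 (1 / 2) zs bs (1 / 2) z b < 0 ∧ Td (1 / 2 - bs) (1 / 2 - b) ≤ 0) ∨ (z = zs ∧ b = bs) := by
  have e1 : Td (1 / 2 - bs) (1 / 2 - b) = -Dd (1 / 2 - bs).im (1 / 2 - bs.re) (1 / 2 - b.re) := by
    rw [Td_eq_Dd (by simp [hb])]
    simp
  have e2 : Td (zs + bs) (z + b) = -Dd (zs + bs).im (zs.re + bs.re) (z.re + b.re) := by
    rw [Td_eq_Dd (by simp [hb, hz])]
    simp
  have q1 : ((z - zs) ^ 2).im = 0 := by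
    rw [pow_two, mul_im]
    simp [hz]
  have q2 : ((z - zs) * (b - bs)).im = 0 := by
    rw [mul_im]
    simp [hz, hb]
  rw [Ez3_end, q1, q2, e1, e2]
  rcases Dd_flat (s := (1 / 2 - bs).im) (w0 := 1 / 2 - bs.re) (w := 1 / 2 - b.re) (by linarith)
    (by linarith) (by linarith) (by linarith) with r1 | r1
  · rcases Dd_flat (s := (zs + bs).im) h0 h1 d0 d1 with r2 | r2
    · right
      have : b.re = bs.re := by linarith
      exact ⟨Complex.ext (by linarith) hz, Complex.ext this hb⟩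
    · left
      rw [r1, Dd_self]
      constructor <;> linarith
  · rcases Dd_flat (s := (zs + bs).im) h0 h1 d0 d1 with r2 | r2
    · left
      rw [r2, Dd_self]
      constructor <;> linarith
    · left
      constructor <;> linarith

/-- The flats, with the potential. -/
theorem flat_e {S : Bool} {x : Nt} {zs bs z b : ℂ} {w : ℝ} {lam : ℂ} (hw : w = 0)
    (h : (Ez3 (1 / 2) zs bs (1 / 2) z b < 0 ∧ Td (1 / 2 - bs) (1 / 2 - b) ≤ 0)) :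
    Ez3 (1 / 2) zs bs (1 / 2) z b + slE S ⟨3, true⟩ x .F lam bs b w < 0 := by
  have e1 : b - Pc.eff .F b = 0 := by
    simp [Pc.eff, Pc.box]
  have e2 : hT S ⟨3, true⟩ x .F = 0 := by
    unfold hT
    simp [r0, Pc.mir]
  have e3 : 0 ≤ dT S ⟨3, true⟩ x .F := by
    unfold dT
    simp only [d0, Pc.mir]
    split_ifs <;> simp_all
  unfold slE
  rw [e1, e2, hw, mul_zero, zero_re]
  have := mul_nonpos_of_nonneg_of_nonpos e3 h.2
  linarith [h.1]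

/-- The variable of the node. -/
theorem zp_of {s : ℝ} {z : ℂ} {w : ℝ} (h : LimR (-(2 / 5)) (2 / 5) (3 / 20) s z w) :
    ∃ zp ∈ zls, ZIn s z w zp ∧ zp ≠ .B ∧ (zp = .F → w = 0) := by
  rcases h with ⟨h1, h2, h3, h4⟩ | ⟨h1, h2, h3⟩ | ⟨h1, h2, h3⟩ | ⟨h1, h2, h3, h4⟩
  · exact ⟨.F, by simp [zls], ⟨h1, h2, abs_le.2 ⟨h3, h4⟩⟩, by simp, fun _ => h1⟩
  · rcases h2 with h2 | h2
    · exact ⟨.L, by simp [zls], ⟨h1, h2, h3⟩, by simp, by simp⟩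
    · exact ⟨.R, by simp [zls], ⟨h1, h2, h3⟩, by simp, by simp⟩
  · obtain ⟨k1, k2⟩ := abs_le.1 h3
    rcases le_total 0 z.im with h4 | h4
    · rw [abs_of_nonneg h4] at h1
      rcases h2 with h2 | h2
      · exact ⟨.P, by simp [zls], ⟨h1, h2, h4, k2⟩, by simp, by simp⟩
      · exact ⟨.Q, by simp [zls], ⟨h1, h2, h4, k2⟩, by simp, by simp⟩
    · rw [abs_of_nonpos h4] at h1
      have h1' : w = -(2 * Real.pi * z.im) := by rw [h1]; ring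
      rcases h2 with h2 | h2
      · exact ⟨.p, by simp [zls], ⟨h1', h2, k1, h4⟩, by simp, by simp⟩
      · exact ⟨.q, by simp [zls], ⟨h1', h2, k1, h4⟩, by simp, by simp⟩
  · rcases (abs_eq (by norm_num : (0 : ℝ) ≤ 3 / 20)).1 h2 with h5 | h5
    · exact ⟨.T, by simp [zls], ⟨h1, h5, abs_le.2 ⟨h3, h4⟩⟩, by simp, by simp⟩
    · exact ⟨.t, by simp [zls], ⟨h1, h5, abs_le.2 ⟨h3, h4⟩⟩, by simp, by simp⟩

theorem uic {h y : ℝ} (hy : y ∈ uIcc 0 h) :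
    (0 ≤ y ∧ y ≤ h) ∨ (h ≤ y ∧ y ≤ 0) := mem_uIcc.1 hy

theorem sgn_pos {y h : ℝ} (h0 : 0 < y) (h1 : 0 ≤ y * h) : 0 ≤ h :=
  nonneg_of_mul_nonneg_right h1 h0

theorem sgn_neg {y h : ℝ} (h0 : y < 0) (h1 : 0 ≤ y * h) : h ≤ 0 := by
  by_contra hc
  push Not at hc
  have := mul_neg_of_neg_of_pos h0 hc
  linarith

theorem sgn_pos' {y h : ℝ} (h0 : 0 < y) (h1 : y * h ≤ 0) : h ≤ 0 := by
  by_contra hc
  push Not at hc
  have := mul_pos h0 hc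
  linarith

theorem sgn_neg' {y h : ℝ} (h0 : y < 0) (h1 : y * h ≤ 0) : 0 ≤ h := by
  by_contra hc
  push Not at hc
  have := mul_pos_of_neg_of_neg h0 hc
  linarith

/-- The sides of the rectangle of the edge. -/
theorem side {y h w : ℝ} (hw : w = 2 * Real.pi * |y|) (hd : |y| ≤ 3 / 20) (hs : 0 ≤ y * h) :
    (w = 2 * Real.pi * y ∧ 0 ≤ y ∧ y ≤ 3 / 20 ∧ 0 ≤ h) ∨
      (w = -(2 * Real.pi * y) ∧ -(3 / 20) ≤ y ∧ y ≤ 0 ∧ h ≤ 0) := by
  obtain ⟨k1, k2⟩ := abs_le.1 hd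
  rcases lt_trichotomy y 0 with hy | hy | hy
  · right
    rw [abs_of_neg hy] at hw
    exact ⟨by rw [hw]; ring, k1, hy.le, sgn_neg hy hs⟩
  · rcases le_total 0 h with hh | hh
    · left
      exact ⟨by rw [hw, hy]; simp, hy.ge, k2, hh⟩
    · right
      exact ⟨by rw [hw, hy]; simp, k1, hy.le, hh⟩
  · left
    rw [abs_of_pos hy] at hw
    exact ⟨hw, hy.le, k2, sgn_pos hy hs⟩

theorem side' {y h w : ℝ} (hw : w = 2 * Real.pi * |y|) (hd : |y| ≤ 3 / 20) (hs : y * h ≤ 0) :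
    (w = 2 * Real.pi * y ∧ 0 ≤ y ∧ y ≤ 3 / 20 ∧ h ≤ 0) ∨
      (w = -(2 * Real.pi * y) ∧ -(3 / 20) ≤ y ∧ y ≤ 0 ∧ 0 ≤ h) := by
  obtain ⟨k1, k2⟩ := abs_le.1 hd
  rcases lt_trichotomy y 0 with hy | hy | hy
  · right
    rw [abs_of_neg hy] at hw
    exact ⟨by rw [hw]; ring, k1, hy.le, sgn_neg' hy hs⟩
  · rcases le_total 0 h with hh | hh
    · right
      exact ⟨by rw [hw, hy]; simp, k1, hy.le, hh⟩
    · left
      exact ⟨by rw [hw, hy]; simp, hy.ge, k2, hh⟩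
  · left
    rw [abs_of_pos hy] at hw
    exact ⟨hw, hy.le, k2, sgn_pos' hy hs⟩

/-- Top and bottom of the rectangle of the edge. -/
theorem top {y h : ℝ} (hd : |y| = 3 / 20) (hs : 0 ≤ y * h) :
    (y = 3 / 20 ∧ 0 ≤ h) ∨ (y = -(3 / 20) ∧ h ≤ 0) := by
  rcases (abs_eq (by norm_num : (0 : ℝ) ≤ 3 / 20)).1 hd with h5 | h5
  · exact Or.inl ⟨h5, sgn_pos (by rw [h5]; norm_num) hs⟩
  · exact Or.inr ⟨h5, sgn_neg (by rw [h5]; norm_num) hs⟩

theorem top' {y h : ℝ} (hd : |y| = 3 / 20) (hs : y * h ≤ 0) :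
    (y = 3 / 20 ∧ h ≤ 0) ∨ (y = -(3 / 20) ∧ 0 ≤ h) := by
  rcases (abs_eq (by norm_num : (0 : ℝ) ≤ 3 / 20)).1 hd with h5 | h5
  · exact Or.inl ⟨h5, sgn_pos' (by rw [h5]; norm_num) hs⟩
  · exact Or.inr ⟨h5, sgn_neg' (by rw [h5]; norm_num) hs⟩

theorem mrw {x : Nt} {q : Rw} (h : q ∈ ([⟨.F, true, zls⟩, ⟨.H, true, zls⟩, ⟨.G, true, zls⟩,
    ⟨.L, true, zls⟩, ⟨.L, false, zls⟩,
    ⟨.R, true, zls⟩, ⟨.R, false, zls⟩, ⟨.T, true, zls⟩, ⟨.T, false, zls⟩, ⟨.t, true, zls⟩,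
    ⟨.t, false, zls⟩, ⟨.U, true, zls⟩, ⟨.U, false, zls⟩, ⟨.u, true, zls⟩, ⟨.u, false, zls⟩,
    ⟨.P, true, zls⟩, ⟨.P, false, zls⟩, ⟨.p, true, zls⟩, ⟨.p, false, zls⟩, ⟨.Q, true, zls⟩,
    ⟨.Q, false, zls⟩, ⟨.q, true, zls⟩, ⟨.q, false, zls⟩, ⟨.rz .own, true, [.B]⟩] : List Rw)) :
    q ∈ rws x := by
  unfold rws
  exact List.mem_append_left _ (List.mem_append_left _ h)

/-- The edge variable is on a standard piece. -/
theorem bp_std {x : Nt} {h : ℝ} {b : ℂ} {w : ℝ} {pc : Pc} (hs : pc.std)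
    (hb : pc.In (3 / 20) h b w) : ∃ up, BIn h pc up b w ∧ (⟨pc, up, zls⟩ : Rw) ∈ rws x := by
  cases pc
  case F => exact ⟨true, hb, mrw (by simp)⟩
  case H => exact ⟨true, hb, mrw (by simp)⟩
  case G => exact ⟨true, hb, mrw (by simp)⟩
  case L =>
    obtain ⟨h1, h2, h3⟩ := hb
    rcases uic h3 with h4 | h4
    · exact ⟨true, ⟨h1, h2, h4⟩, mrw (by simp)⟩
    · exact ⟨false, ⟨h1, h2, h4⟩, mrw (by simp)⟩
  case R =>
    obtain ⟨h1, h2, h3⟩ := hb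
    rcases uic h3 with h4 | h4
    · exact ⟨true, ⟨h1, h2, h4⟩, mrw (by simp)⟩
    · exact ⟨false, ⟨h1, h2, h4⟩, mrw (by simp)⟩
  case T =>
    obtain ⟨h1, h2, h3, h4, h5⟩ := hb
    rcases top h2 h3 with h6 | h6
    · exact ⟨true, ⟨h1, h4, h5, h6⟩, mrw (by simp)⟩
    · exact ⟨false, ⟨h1, h4, h5, h6⟩, mrw (by simp)⟩
  case t =>
    obtain ⟨h1, h2, h3, h4, h5⟩ := hb
    rcases top' h2 h3 with h6 | h6
    · exact ⟨true, ⟨h1, h4, h5, h6⟩, mrw (by simp)⟩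
    · exact ⟨false, ⟨h1, h4, h5, h6⟩, mrw (by simp)⟩
  case U =>
    obtain ⟨h1, h2, h3, h4, h5⟩ := hb
    rcases top h2 h3 with h6 | h6
    · exact ⟨true, ⟨h1, h4, h5, h6⟩, mrw (by simp)⟩
    · exact ⟨false, ⟨h1, h4, h5, h6⟩, mrw (by simp)⟩
  case u =>
    obtain ⟨h1, h2, h3, h4, h5⟩ := hb
    rcases top' h2 h3 with h6 | h6
    · exact ⟨true, ⟨h1, h4, h5, h6⟩, mrw (by simp)⟩
    · exact ⟨false, ⟨h1, h4, h5, h6⟩, mrw (by simp)⟩
  case P =>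
    obtain ⟨h1, h2, h3, h4⟩ := hb
    rcases side h1 h3 h4 with h6 | h6
    · exact ⟨true, ⟨h2, h6⟩, mrw (by simp)⟩
    · exact ⟨false, ⟨h2, h6⟩, mrw (by simp)⟩
  case p =>
    obtain ⟨h1, h2, h3, h4⟩ := hb
    rcases side' h1 h3 h4 with h6 | h6
    · exact ⟨true, ⟨h2, h6⟩, mrw (by simp)⟩
    · exact ⟨false, ⟨h2, h6⟩, mrw (by simp)⟩
  case Q =>
    obtain ⟨h1, h2, h3, h4⟩ := hb
    rcases side h1 h3 h4 with h6 | h6
    · exact ⟨true, ⟨h2, h6⟩, mrw (by simp)⟩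
    · exact ⟨false, ⟨h2, h6⟩, mrw (by simp)⟩
  case q =>
    obtain ⟨h1, h2, h3, h4⟩ := hb
    rcases side' h1 h3 h4 with h6 | h6
    · exact ⟨true, ⟨h2, h6⟩, mrw (by simp)⟩
    · exact ⟨false, ⟨h2, h6⟩, mrw (by simp)⟩
  case lo => exact absurd hs (by simp [Pc.std])
  case re f => exact absurd hs (by simp [Pc.std])
  case rz f => exact absurd hs (by simp [Pc.std])

theorem rws_re {x : Nt} (h1 : x.e = false) (h2 : x.a ≤ 4) :
    (⟨.re .far, true, .B :: zls⟩ : Rw) ∈ rws x := by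
  unfold rws
  refine List.mem_append_left _ (List.mem_append_right _ ?_)
  rw [h1, Nat.ble_eq_true_of_le h2]
  simp

theorem rws_rz {x : Nt} (h : x.a = 3 ∨ x = ⟨4, false⟩) :
    (⟨.rz .far, true, zls⟩ : Rw) ∈ rws x ∧ (⟨.rz .both, true, [.B]⟩ : Rw) ∈ rws x := by
  have : (Nat.beq x.a 3 || (!x.e && Nat.beq x.a 4)) = true := by
    rcases h with h | h
    · rw [h]
      rfl
    · rw [h]
      rfl
  unfold rws
  rw [this]
  constructor <;> exact List.mem_append_right _ (by simp)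

/-- The edge is not forced by the node. -/
theorem bp_free {s : Slt} {b : ℂ} {w : ℝ} {pc : Pc} (hx : s.ex = true) (hf : pc.free)
    (hb : s.In pc b w) :
    ∃ up, BIn s.ys.im pc up b w ∧ ∃ q ∈ rws s.x, q.pc = pc ∧ q.up = up ∧ ∀ zp ∈ zls, zp ∈ q.zl := by
  unfold Slt.In at hb
  rw [if_pos hx] at hb
  obtain ⟨hb, h2, h3⟩ := hb
  rcases hf with hf | hf | hf
  · obtain ⟨up, k1, k2⟩ := bp_std (x := s.x) hf hb
    exact ⟨up, k1, _, k2, rfl, rfl, fun zp h => h⟩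
  · obtain ⟨k1, k2⟩ := h3 (Or.inl hf)
    subst hf
    exact ⟨true, hb, _, rws_re k1 k2, rfl, rfl, fun zp h => List.mem_cons_of_mem _ h⟩
  · obtain ⟨k1, k2⟩ := h2 (Or.inl hf)
    subst hf
    exact ⟨true, hb, _, (rws_rz k1).1, rfl, rfl, fun zp h => h⟩

/-- The edge is forced by the variable of the node, or by the other node. -/
theorem bp_frcZ {s : Slt} {b : ℂ} {w : ℝ} {pc : Pc} (hx : s.ex = true) (hf : pc.frcZ)
    (hb : s.In pc b w) :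
    BIn s.ys.im pc true b w ∧ ∃ q ∈ rws s.x, q.pc = pc ∧ q.up = true ∧ .B ∈ q.zl := by
  unfold Slt.In at hb
  rw [if_pos hx] at hb
  obtain ⟨hb, h2, h3⟩ := hb
  rcases hf with hf | hf | hf
  · subst hf
    exact ⟨hb, ⟨.rz .own, true, [.B]⟩, mrw (by simp), rfl, rfl, by simp⟩
  · obtain ⟨k1, k2⟩ := h2 (Or.inr hf)
    subst hf
    exact ⟨hb, _, (rws_rz k1).2, rfl, rfl, by simp⟩
  · obtain ⟨k1, k2⟩ := h3 (Or.inl hf)
    subst hf
    exact ⟨hb, _, rws_re k1 k2, rfl, rfl, by simp⟩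

theorem std_F {pc : Pc} (h : pc = .F) {b : ℂ} {w s : ℝ} {up : Bool} (hb : BIn s pc up b w) :
    w = 0 ∧ b.im = s ∧ 3 / 20 ≤ b.re ∧ b.re ≤ 1 / 2 := by
  subst h
  exact hb

/-- **The statement of the node.** -/
theorem VZ_of {zs : ℂ} {sy sb : Slt} (hy : sy.ex = false) (hy2 : sy.ys = 1 / 2)
    (hx : sb.ex = true) (hl : sb.lam = l3b zs sb.ys) (B : B3 zs sb.ys)
    (C : Cl sb.S sb.x zs sb.ys) : VZ (Ez3 sy.ys zs sb.ys) ⟨3, true⟩ (2 / 5) zs sy sb := by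
  have hpi := Real.pi_pos
  have hlam : sb.lam = Real.pi * I * (4 * zs + 1) := hl.trans B.lam
  have dmy : ∀ {py : Pc} {y : ℂ} {wy : ℝ}, sy.In py y wy → py = .F ∧ y = 1 / 2 ∧
      sy.e ⟨3, true⟩ py y wy = 0 := by
    intro py y wy h
    unfold Slt.In at h
    rw [if_neg (by rw [hy]; simp)] at h
    refine ⟨h.1, h.2.1, ?_⟩
    unfold Slt.e
    rw [if_neg (by rw [hy]; simp)]
  have sle : ∀ (pb : Pc) (b : ℂ) (wb : ℝ), sb.e ⟨3, true⟩ pb b wb =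
      slE sb.S ⟨3, true⟩ sb.x pb (Real.pi * I * (4 * zs + 1)) sb.ys b wb := by
    intro pb b wb
    unfold Slt.e
    rw [if_pos hx, hlam]
  rw [hy2]
  refine ⟨?_, ?_, ?_, VZ_Ty_no hy, ?_, ?_⟩
  · intro y z b wy w wb py pb _ hf h1 h2 h3
    obtain ⟨e1, e2, e3⟩ := dmy h1
    rw [e3, e2, sle, add_zero]
    obtain ⟨up, k1, q, k2, k3, k4, k5⟩ := bp_free hx hf h2
    obtain ⟨zp, m1, m2, m3, m4⟩ := zp_of h3
    have hr := C.rows q k2 zp (k5 zp m1)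
    rw [k3, k4] at hr
    rcases hr z b wb w m2 (fun h => absurd h m3) k1 with hr | ⟨p1, p2, p3, p4, p5⟩
    · exact Or.inl hr
    · have w0 := m4 p2
      subst p2
      obtain ⟨g1, g2, g3⟩ := m2
      obtain ⟨f1, f2, f3, f4⟩ := std_F p1 k1
      rcases flt_flt (z := z) (b := b) B.b0 B.b1 p3 (by linarith [B.b1, C.zn]) g2 f2
        (by linarith) f4 p4 p5 with f5 | f5
      · left
        rw [w0, p1]
        exact flat_e f1 f5
      · right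
        exact ⟨hy2.symm ▸ rfl, f5.1, f5.2, e1, p1, w0⟩
  · intro y z b wy wb py pb _ hf h1 h2 h3 h4 h5 h6
    obtain ⟨e1, e2, e3⟩ := dmy h1
    rw [e3, e2, sle, add_zero]
    obtain ⟨up, k1, q, k2, k3, k4, k5⟩ := bp_free hx hf h2
    have hr := C.rows q k2 .A (k5 .A (by simp [zls]))
    rw [k3, k4] at hr
    rcases hr z b wb 0 ⟨rfl, h3, h4, h5⟩ (fun h => absurd h (by simp)) k1 with hr | ⟨-, p2, -⟩
    · exact hr
    · exact absurd p2 (by simp)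
  · intro y z b wy wb py pb _ hf h1 h2 h3 h4 h5 h6
    obtain ⟨e1, e2, e3⟩ := dmy h1
    rw [e3, e2, sle, add_zero]
    obtain ⟨k1, q, k2, k3, k4, k5⟩ := bp_frcZ hx (hf hx) h2
    have hr := C.rows q k2 .B k5
    rw [k3, k4] at hr
    rcases hr z b wb 0 ⟨rfl, h3, h4, h5⟩ (fun _ => by linarith) k1 with hr | ⟨-, p2, -⟩
    · exact hr
    · exact absurd p2 (by simp)
  · have hs := B.s0
    refine VZ_Tb_end B.hl hl hy C.b0 C.b1 C.bi B.s0 ?_ ?_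
    · rw [add_re]
      linarith [B.b1, C.zn]
    · rw [hlam]
      have e : ((Real.pi : ℂ) * I * (4 * zs + 1)).re = -(Real.pi * (4 * zs.im)) := by
        rw [B3.re_piI]
        simp
      rw [e, abs_neg, abs_mul, abs_of_pos hpi, abs_mul, abs_of_pos (by norm_num : (0 : ℝ) < 4)]
      have h1 := C.zi
      have h2 := Real.pi_lt_d2
      have h3 : Real.pi * (4 * |zs.im|) ≤ 315 / 100 * (4 * (59 / 1000)) := by
        gcongr
        linarith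
      linarith
  · have := quad_z3_end (zs := zs) (sy := sy) (sb := sb) hy hy2 B.z0 B.z1 B.b0 B.b1 B.s0 (by
      rw [add_re]
      linarith [B.b1, C.zn])
    rw [hy2] at this
    rw [hy2]
    exact this

end Pool.Agent.S5.Z3
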