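import Pool.Agent.S5.Z.Zrw

/-!
# Ends with three half twists: all pieces of the node
-/

set_option autoImplicit false

namespace Pool.Agent.S5.Z3

open Pool.Agent.H63.VC3 Pool.Agent.S3 Complex Set Pool.Agent.S5.Num

/-- The strips for the two flats. -/
theorem stp_sound (hE : Tb.TabOK6) {d : Dt} {zs bs : ℂ} (hd : DOK d zs bs) {w kp1 kp3 : ℕ}
    {N0 N1 N2 N4 : ℤ} {a2 b2 : ℕ} (h : stp d w kp3 N0 N1 N2 N4 kp1 a2 b2 = true)
    {u v : ℂ} (g2 : Tb.Ps a2 b2 u.im) (hv : v.im = zs.im) (hv1 : |v.re| ≤ 2 / 5)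
    (hu0 : 3 / 20 ≤ u.re) (hu1 : u.re ≤ 1 / 2) (i2 : |u.im| ≤ 1) :
    FF w kp1 0 kp3 u v + (N1 * (25600 * u.re) + N2 * (25600 * u.im) + N4 * (25600 * v.im) + N0) /
      655360000 < 3 ∨ (0 < zs.re + bs.re ∧ -(zs.re + bs.re) ≤ v.re + u.re ∧
        v.re + u.re ≤ 1 - (zs.re + bs.re)) := by
  have hv1' := abs_le.1 hv1
  have i1 : |u.re| ≤ 1 := by rw [abs_le]; constructor <;> linarith
  have i3 : |v.re| ≤ 1 := by rw [abs_le]; constructor <;> linarith
  have hcz := abs_le.1 hd.cZ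
  have i4 : |v.im| ≤ 1 := by rw [hv, abs_le]; constructor <;> linarith
  have g4 : Tb.Ps d.Z0 d.Z1 v.im := by
    have h0 := hd.Z0
    have h1 := hd.Z1
    rw [hv]
    exact ⟨by linarith, by linarith⟩
  unfold stp at h
  rcases cond_cases h with ⟨c0, h⟩ | ⟨-, h⟩
  swap
  · exact absurd h (by simp)
  have c0 : (d.Y1 : ℝ) + 1024 ≤ d.T0 := by
    have := Nat.le_of_ble_eq_true c0
    exact_mod_cast this
  rcases cond_cases h with ⟨s1, h⟩ | ⟨-, h⟩
  swap
  · exact absurd h (by simp)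
  rcases cond_cases h with ⟨s2, h⟩ | ⟨-, h⟩
  swap
  · exact absurd h (by simp)
  rcases cond_cases h with ⟨s3, h⟩ | ⟨-, h⟩
  swap
  · exact absurd h (by simp)
  rcases cond_cases h with ⟨s4, h⟩ | ⟨-, h⟩
  swap
  · exact absurd h (by simp)
  rcases cond_cases h with ⟨s5, h⟩ | ⟨-, h⟩
  swap
  · exact absurd h (by simp)
  have y0 := hd.Y0
  have y1 := hd.Y1
  have t0 := hd.T0
  have t1 := hd.T1
  have hx : 0 < zs.re + bs.re := by linarith
  rcases lt_or_ge (25600 * (v.re + u.re)) (-1024) with c1 | c1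
  · left
    rcases le_or_gt (25600 * u.re) 5120 with k1 | k1
    · have := eng_sound hE s1 (u := u) (v := v) ⟨by push_cast; linarith, by push_cast; linarith⟩ g2
        ⟨by push_cast; linarith, by push_cast; linarith⟩ g4 (Or.inl rfl) i1 i2 i3 i4
      linarith
    rcases le_or_gt (25600 * u.re) 6400 with k2 | k2
    · have := eng_sound hE s2 (u := u) (v := v) ⟨by push_cast; linarith, by push_cast; linarith⟩ g2
        ⟨by push_cast; linarith, by push_cast; linarith⟩ g4 (Or.inl rfl) i1 i2 i3 i4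
      linarith
    rcases le_or_gt (25600 * u.re) 7680 with k3 | k3
    · have := eng_sound hE s3 (u := u) (v := v) ⟨by push_cast; linarith, by push_cast; linarith⟩ g2
        ⟨by push_cast; linarith, by push_cast; linarith⟩ g4 (Or.inl rfl) i1 i2 i3 i4
      linarith
    rcases le_or_gt (25600 * u.re) 8960 with k4 | k4
    · have := eng_sound hE s4 (u := u) (v := v) ⟨by push_cast; linarith, by push_cast; linarith⟩ g2
        ⟨by push_cast; linarith, by push_cast; linarith⟩ g4 (Or.inl rfl) i1 i2 i3 i4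
      linarith
    · have := eng_sound hE s5 (u := u) (v := v) ⟨by push_cast; linarith, by push_cast; linarith⟩ g2
        ⟨by push_cast; linarith, by push_cast; linarith⟩ g4 (Or.inl rfl) i1 i2 i3 i4
      linarith
  · rcases le_or_gt (v.re + u.re) (1 - (zs.re + bs.re)) with c2 | c2
    · right
      exact ⟨hx, by linarith, c2⟩
    · left
      rcases cond_cases h with ⟨s6, -⟩ | ⟨-, h⟩
      · have s6' : (d.T1 : ℝ) ≤ d.Y0 + 2560 := by
          have := Nat.le_of_ble_eq_true s6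
          exact_mod_cast this
        exfalso
        linarith
      · rw [fN_eq] at h
        have ht : d.Y0 ≤ d.T1 := by
          have : (d.Y0 : ℝ) ≤ d.T1 := by linarith
          exact_mod_cast this
        have e0 : ((Nat.sub d.T1 d.Y0 : ℕ) : ℝ) = (d.T1 : ℝ) - d.Y0 := by
          rw [show Nat.sub d.T1 d.Y0 = d.T1 - d.Y0 from rfl, Nat.cast_sub ht]
        have g1 : Tb.Ps (Nat.sub 117760 (Nat.sub d.T1 d.Y0)) 115200 u.re := by
          refine ⟨?_, by push_cast; linarith⟩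
          rw [subP, e0]
          push_cast
          apply max_le <;> linarith
        have g3 : Tb.Ps (Nat.sub 115200 (Nat.sub d.T1 d.Y0)) 112640 v.re := by
          refine ⟨?_, by push_cast; linarith⟩
          rw [subP, e0]
          push_cast
          apply max_le <;> linarith
        have := eng_sound hE h (u := u) (v := v) g1 g2 g3 g4 (Or.inl rfl) i1 i2 i3 i4
        linarith

/-- The edge is right: `N0, N1, N2` are bounds for its part. -/
structure BOK (d : Dt) (zs bs : ℂ) (m kp3 : ℕ) (f ws wc N0 N1 N2 : ℤ) (b : ℂ) : Prop where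
  bd : BP m f d.y d.u d.h d.ta d.sg (-(25600 * zs.re)) (25600 * bs.re) (25600 * bs.im)
      (25600 * b.re) (25600 * b.im) + ws * (25600 * b.im) + wc ≤
    N1 * (25600 * b.re) + N2 * (25600 * b.im) + N0 +
      3294199 * (kp3 * ((25600 * b.re) * (25600 * b.im)))
  k3 : kp3 ≤ 1

/-- The conclusion for a piece of the node. -/
def Cc (zs bs z b : ℂ) (m : ℕ) (f ws wc r : ℤ) (wz : ℝ) : Prop :=
  (Ez3 (1 / 2) zs bs (1 / 2) z b + m * Td (1 / 2 - bs) (1 / 2 - b) -
      f * (Real.pi * (4 * zs.re + 1) * b.im)) * 1048576 +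
    (ws * (25600 * b.im) + wc - 6871947673600 * r) / 655360000 < 1048576 * wz - 1

/-- One row, the piece of the node is not flat. -/
theorem row_nf {zs bs lam z b : ℂ} (hF : F3 zs bs lam) {d : Dt} (hd : DOK d zs bs)
    {m kp3 : ℕ} (hm : m = 0 ∨ m = 1) {r f ws wc N0 N1 N2 : ℤ} (hf : f = 0 ∨ f = 1)
    (hB : BOK d zs bs m kp3 f ws wc N0 N1 N2 b) (i1 : |b.re| ≤ 1 / 2) (i2 : |b.im| ≤ 3 / 10)
    {zp : Zp} {wz : ℝ} (hz : ZIn zs.im z wz zp)
    (h : ∀ ζ : ℝ, (d.Z0 : ℝ) - 102400 ≤ ζ → ζ ≤ (d.Z1 : ℝ) - 102400 →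
      FF (m + 1) 0 1 kp3 b z + ((N1 + 3294199 * (4 + 2 * m) * ζ) * (25600 * b.re) +
        N2 * (25600 * b.im) + 42165747200 * (25600 * z.im) +
        (N0 + (655360000 * ((m + 1) * d.ra + d.rb) + 25600 * (d.sg * d.v) + 78643200000 -
          6871947673600 * r) - ζ * (3294199 * (4 + 2 * m) * d.u +
            (25600 * d.sg + 3294199 * (12800 - d.y - d.u))))) / 655360000 < 7 / 2 + 1048576 * wz) :
    Cc zs bs z b m f ws wc r wz := by
  have hb := ZIn_bd hd.cZ hz
  have he : (m : ℝ) = 0 ∨ (m : ℝ) = 1 := by rcases hm with rfl | rfl <;> simp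
  have hf' : (f : ℝ) = 0 ∨ (f : ℝ) = 1 := by rcases hf with rfl | rfl <;> simp
  have k1 := cert_int hF hd he hf' (z := z) (b := b) (by linarith [hb.2]) (by linarith) (by linarith)
  have k2 := h (25600 * zs.im) (hd.Z0) (hd.Z1)
  have k3 := hB.bd
  rw [GH_eq, add_comm z b] at k1
  unfold FF at k2
  have hp := abs_le.1 pi20
  have hk3 : (kp3 : ℝ) ≤ 1 := by exact_mod_cast hB.k3
  have hk0 : (0 : ℝ) ≤ kp3 := Nat.cast_nonneg _
  have e1 : |(kp3 : ℝ) * ((Real.pi * 1048576 - 3294199) * (b.re * b.im))| ≤ 1 * (2 / 5 * (1 / 2 * (3 / 10))) := by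
    apply abs_mul_le2
    · rw [abs_of_nonneg hk0]
      exact hk3
    · exact abs_mul_le2 pi20 (abs_mul_le2 i1 i2)
  have e2 := abs_le.1 e1
  unfold Cc
  push_cast at k2
  linarith [e2.1, e2.2]

/-- One row, the piece of the node is flat. -/
theorem row_fl {zs bs lam z b : ℂ} (hF : F3 zs bs lam) {d : Dt} (hd : DOK d zs bs)
    {m kp3 : ℕ} (hm : m = 0 ∨ m = 1) {r f ws wc N0 N1 N2 : ℤ} (hf : f = 0 ∨ f = 1)
    (hB : BOK d zs bs m kp3 f ws wc N0 N1 N2 b)
    (i1 : |b.re| ≤ 1 / 2) (i2 : |b.im| ≤ 3 / 10) (hz : z.im = zs.im)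
    (h : FF (m + 1) (3 + 2 * m) 0 kp3 b z + (N1 * (25600 * b.re) +
        N2 * (25600 * b.im) + (42165747200 - (3294199 * (4 + 2 * m) * d.u +
            (25600 * d.sg + 3294199 * (12800 - d.y - d.u)))) * (25600 * z.im) +
        (N0 + (655360000 * ((m + 1) * d.ra + d.rb) + 25600 * (d.sg * d.v) + 78643200000 -
          6871947673600 * r))) / 655360000 < 3) :
    Cc zs bs z b m f ws wc r 0 := by
  have he : (m : ℝ) = 0 ∨ (m : ℝ) = 1 := by rcases hm with rfl | rfl <;> simp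
  have hf' : (f : ℝ) = 0 ∨ (f : ℝ) = 1 := by rcases hf with rfl | rfl <;> simp
  have hcz := hd.cZ
  have hcz' := abs_le.1 hcz
  have hzi : |z.im| ≤ 1 / 2 := by rw [hz]; linarith
  have k1 := cert_int hF hd he hf' (z := z) (b := b) hzi (by linarith) (by linarith)
  have k3 := hB.bd
  rw [GH_eq, add_comm z b] at k1
  unfold FF at h
  have hk3 : (kp3 : ℝ) ≤ 1 := by exact_mod_cast hB.k3
  have hk0 : (0 : ℝ) ≤ kp3 := Nat.cast_nonneg _
  have e1 : |(kp3 : ℝ) * ((Real.pi * 1048576 - 3294199) * (b.re * b.im))| ≤ 1 * (2 / 5 * (1 / 2 * (3 / 10))) := by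
    apply abs_mul_le2
    · rw [abs_of_nonneg hk0]
      exact hk3
    · exact abs_mul_le2 pi20 (abs_mul_le2 i1 i2)
  have e2 := abs_le.1 e1
  have hz2 : |z.im| ≤ 11 / 100 := by rw [hz]; exact hcz
  have e3 : |(4 + 2 * (m : ℝ)) * ((Real.pi * 1048576 - 3294199) * (b.re * z.im))| ≤
      6 * (2 / 5 * (1 / 2 * (11 / 100))) := by
    apply abs_mul_le2
    · rcases he with h0 | h0 <;> rw [h0] <;> norm_num
    · exact abs_mul_le2 pi20 (abs_mul_le2 i1 hz2)
  have e4 := abs_le.1 e3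
  unfold Cc
  rw [← hz] at k1
  push_cast at h
  linarith [e2.1, e2.2, e4.1, e4.2]

theorem zck_nf {d : Dt} {f : Bool} {w kp1 kp3 : ℕ} {N0 N1 N2 N4 A0 A1 B0 B1 : ℤ} {s0 s1 : Bool}
    {a1 b1 a2 b2 : ℕ} {z : Zp} (hz : z ≠ .F) :
    zck d f w kp1 kp3 N0 N1 N2 N4 A0 A1 B0 B1 s0 s1 a1 b1 a2 b2 z =
      cond s0 (znf d w kp3 A0 A1 N2 a1 b1 a2 b2 z)
      (cond s1 (znf d w kp3 B0 B1 N2 a1 b1 a2 b2 z)
        (cond (znf d w kp3 A0 A1 N2 a1 b1 a2 b2 z) (znf d w kp3 B0 B1 N2 a1 b1 a2 b2 z) false)) := by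
  cases z
  · exact absurd rfl hz
  all_goals rfl

/-- The conditions for the edge. -/
structure BC (F : Bool) (bs : ℂ) (a1 b1 a2 b2 : ℕ) (b : ℂ) : Prop where
  g1 : Tb.Ps a1 b1 b.re
  g2 : Tb.Ps a2 b2 b.im
  i1 : |b.re| ≤ 1 / 2
  i2 : |b.im| ≤ 3 / 10
  hF : F = true → 3 / 20 ≤ b.re ∧ b.im = bs.im

/-- The conclusion for a piece of the node, with the exception. -/
def Cx (zs bs z b : ℂ) (F : Bool) (zp : Zp) (m : ℕ) (f ws wc r : ℤ) (wz : ℝ) : Prop :=
  Cc zs bs z b m f ws wc r wz ∨ (F = true ∧ zp = .F ∧ 0 < zs.re + bs.re ∧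
    -(zs.re + bs.re) ≤ z.re + b.re ∧ z.re + b.re ≤ 1 - (zs.re + bs.re))

/-- All pieces of the node. -/
theorem zlp_sound (hE : Tb.TabOK6) {zs bs lam : ℂ} (hF : F3 zs bs lam) {d : Dt}
    (hd : DOK d zs bs) {m kp3 : ℕ} (hm : m = 0 ∨ m = 1) {r f ws wc N0 N1 N2 : ℤ}
    (hf : f = 0 ∨ f = 1) {F : Bool} {a1 b1 a2 b2 : ℕ} {zl : List Zp} {k : List Zp → Bool}
    (h : zlp d F m (Nat.succ m) (Nat.add 3 (Nat.add m m)) kp3
      (N0 + (655360000 * ((m + 1) * d.ra + d.rb) + 25600 * (d.sg * d.v) + 78643200000 -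
        6871947673600 * r)) N1 N2 a1 b1 a2 b2 zl k = true) :
    ∃ rem, k rem = true ∧ ∀ zp ∈ zl, zp ∈ rem ∨ ∀ (z b : ℂ) (wz : ℝ), ZIn zs.im z wz zp →
      (zp = .B → 0 ≤ b.re + z.re) → BC F bs a1 b1 a2 b2 b →
      BOK d zs bs m kp3 f ws wc N0 N1 N2 b → Cx zs bs z b F zp m f ws wc r wz := by
  unfold zlp at h
  simp only [fI_eq] at h
  obtain ⟨rem, h1, h2⟩ := flt_sound h
  refine ⟨rem, h1, fun zp hzp => (h2 zp hzp).imp id ?_⟩
  intro h z b wz hz hzB hC hB
  have q1 : |b.re| ≤ 1 := by linarith [hC.i1]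
  have q2 : |b.im| ≤ 1 := by linarith [hC.i2]
  have c1 : ((Nat.succ m : ℕ) : ℝ) = (m : ℝ) + 1 := by push_cast; ring
  by_cases hzF : zp = .F
  · subst hzF
    obtain ⟨e0, e1, e2⟩ := hz
    have e2' := abs_le.1 e2
    have hcz := hd.cZ
    have k1 : Nat.add 3 (Nat.add m m) = 3 + 2 * m := by
      show 3 + (m + m) = _
      ring
    rw [k1] at h
    unfold zck at h
    simp only at h
    cases F
    · left
      have h' : eng 0 (Nat.succ m) (3 + 2 * m) 0 kp3 _ _ _ _ a1 b1 a2 b2 92160 112640 d.Z0 d.Z1 =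
        true := h
      have := eng_sound hE h' (u := b) (v := z) hC.g1 hC.g2
        ⟨by push_cast; linarith, by push_cast; linarith⟩
        ⟨by rw [e1]; linarith [hd.Z0], by rw [e1]; linarith [hd.Z1]⟩ (Or.inl rfl) q1 q2
        (by linarith) (by rw [e1]; linarith)
      rw [e0]
      refine row_fl hF hd hm hf hB hC.i1 hC.i2 e1 ?_
      push_cast at this
      linarith
    · obtain ⟨f1, f2⟩ := hC.hF rfl
      have h' : stp d (Nat.succ m) kp3 _ _ _ _ (3 + 2 * m) a2 b2 = true := h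
      rcases stp_sound hE hd h' hC.g2 e1 e2 f1 (abs_le.1 hC.i1).2 q2 with this | this
      · left
        rw [e0]
        refine row_fl hF hd hm hf hB hC.i1 hC.i2 e1 ?_
        push_cast at this
        linarith
      · right
        exact ⟨rfl, rfl, this⟩
  · left
    rw [zck_nf hzF] at h
    refine row_nf hF hd hm hf hB hC.i1 hC.i2 hz ?_
    intro ζ hζ0 hζ1
    have hg1 := hC.g1
    have u1 := hg1.1
    have u2 := hg1.2
    have sa := sg_eq a1
    have sb := sg_eq b1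
    have s0 := sg_eq d.Z0
    have s1 := sg_eq d.Z1
    have hm0 : (0 : ℝ) ≤ m := Nat.cast_nonneg m
    set G : ℝ := 3294199 * (4 + 2 * m) * (25600 * b.re - d.u) -
      (25600 * d.sg + 3294199 * (12800 - d.y - d.u)) with hG
    set R : ℝ := FF (m + 1) 0 1 kp3 b z + (N1 * (25600 * b.re) +
        N2 * (25600 * b.im) + 42165747200 * (25600 * z.im) +
        (N0 + (655360000 * ((m + 1) * d.ra + d.rb) + 25600 * (d.sg * d.v) + 78643200000 -
          6871947673600 * r))) / 655360000 with hR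
    suffices hs : R + ζ * G / 655360000 < 7 / 2 + 1048576 * wz by
      rw [hR, hG] at hs
      linarith
    have hA : znf d (Nat.succ m) kp3
        (N0 + (655360000 * ((m + 1) * d.ra + d.rb) + 25600 * (d.sg * d.v) + 78643200000 -
          6871947673600 * r) - sg d.Z0 * (3294199 * (4 + 2 * m) * d.u +
          (25600 * d.sg + 3294199 * (12800 - d.y - d.u)))) (N1 + 3294199 * (4 + 2 * m) * sg d.Z0) N2
        a1 b1 a2 b2 zp = true → R + (sg d.Z0 : ℝ) * G / 655360000 < 7 / 2 + 1048576 * wz := by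
      intro h
      have := znf_sound hE hd h hz hzB hC.g1 hC.g2 q1 q2
      rw [hR, hG]
      push_cast at this
      have e : (m.succ) = m + 1 := rfl
      rw [e] at this
      linarith
    have hBb : znf d (Nat.succ m) kp3
        (N0 + (655360000 * ((m + 1) * d.ra + d.rb) + 25600 * (d.sg * d.v) + 78643200000 -
          6871947673600 * r) - sg d.Z1 * (3294199 * (4 + 2 * m) * d.u +
          (25600 * d.sg + 3294199 * (12800 - d.y - d.u)))) (N1 + 3294199 * (4 + 2 * m) * sg d.Z1) N2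
        a1 b1 a2 b2 zp = true → R + (sg d.Z1 : ℝ) * G / 655360000 < 7 / 2 + 1048576 * wz := by
      intro h
      have := znf_sound hE hd h hz hzB hC.g1 hC.g2 q1 q2
      rw [hR, hG]
      push_cast at this
      have e : (m.succ) = m + 1 := rfl
      rw [e] at this
      linarith
    rcases cond_cases h with ⟨c0, h⟩ | ⟨-, h⟩
    · have c0 := leI_sound c0
      push_cast at c0
      have g0 : G ≤ 0 := by
        have : (3294199 * (4 + 2 * (m : ℝ))) * (25600 * b.re) ≤
            (3294199 * (4 + 2 * (m : ℝ))) * (sg b1 : ℝ) :=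
          mul_le_mul_of_nonneg_left (by linarith) (by positivity)
        rw [hG]
        linarith
      have k1 := hA h
      have k2 : ζ * G ≤ (sg d.Z0 : ℝ) * G := mul_le_mul_of_nonpos_right (by linarith) g0
      linarith
    · rcases cond_cases h with ⟨c0, h⟩ | ⟨-, h⟩
      · have c0 := leI_sound c0
        push_cast at c0
        have g0 : 0 ≤ G := by
          have : (3294199 * (4 + 2 * (m : ℝ))) * (sg a1 : ℝ) ≤
              (3294199 * (4 + 2 * (m : ℝ))) * (25600 * b.re) :=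
            mul_le_mul_of_nonneg_left (by linarith) (by positivity)
          rw [hG]
          linarith
        have k1 := hBb h
        have k2 : ζ * G ≤ (sg d.Z1 : ℝ) * G := mul_le_mul_of_nonneg_right (by linarith) g0
        linarith
      · rcases cond_cases h with ⟨c0, h⟩ | ⟨-, h⟩
        swap
        · exact absurd h (by simp)
        have k1 := hA c0
        have k2 := hBb h
        rcases le_total 0 G with g0 | g0
        · have k3 : ζ * G ≤ (sg d.Z1 : ℝ) * G := mul_le_mul_of_nonneg_right (by linarith) g0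
          linarith
        · have k3 : ζ * G ≤ (sg d.Z0 : ℝ) * G := mul_le_mul_of_nonpos_right (by linarith) g0
          linarith

end Pool.Agent.S5.Z3
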