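import Pool.Agent.S5.Z.Elm

/-!
# Ends with three half twists: the pieces of the node
-/

set_option autoImplicit false

namespace Pool.Agent.S5.Z3

open Pool.Agent.H63.VC3 Pool.Agent.S3 Complex Set Pool.Agent.S5.Num

/-- The variable of the node is on the piece; `s` is the height of the flat, `w` the weight. -/
def ZIn (s : ℝ) (v : ℂ) (w : ℝ) : Zp → Prop
  | .F => w = 0 ∧ v.im = s ∧ |v.re| ≤ 2 / 5
  | .L => w = 0 ∧ v.re = -(2 / 5) ∧ v.im ∈ uIcc 0 s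
  | .R => w = 0 ∧ v.re = 2 / 5 ∧ v.im ∈ uIcc 0 s
  | .T => w = 2 * Real.pi * (3 / 20) ∧ v.im = 3 / 20 ∧ |v.re| ≤ 2 / 5
  | .t => w = 2 * Real.pi * (3 / 20) ∧ v.im = -(3 / 20) ∧ |v.re| ≤ 2 / 5
  | .P => w = 2 * Real.pi * v.im ∧ v.re = -(2 / 5) ∧ 0 ≤ v.im ∧ v.im ≤ 3 / 20
  | .p => w = -(2 * Real.pi * v.im) ∧ v.re = -(2 / 5) ∧ -(3 / 20) ≤ v.im ∧ v.im ≤ 0
  | .Q => w = 2 * Real.pi * v.im ∧ v.re = 2 / 5 ∧ 0 ≤ v.im ∧ v.im ≤ 3 / 20
  | .q => w = -(2 * Real.pi * v.im) ∧ v.re = 2 / 5 ∧ -(3 / 20) ≤ v.im ∧ v.im ≤ 0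
  | .A => w = 0 ∧ v.im = 0 ∧ 2 / 5 ≤ v.re ∧ v.re ≤ 1 / 2
  | .B => w = 0 ∧ v.im = 0 ∧ -(1 / 2) ≤ v.re ∧ v.re ≤ -(2 / 5)

theorem ps_eq {a : ℕ} {x : ℝ} (h : x * 25600 + 102400 = a) : Tb.Ps a a x := ⟨h.ge, h.le⟩

theorem ZIn_bd {s : ℝ} (hs : |s| ≤ 11 / 100) {v : ℂ} {w : ℝ} {z : Zp} (h : ZIn s v w z) :
    |v.re| ≤ 1 / 2 ∧ |v.im| ≤ 3 / 20 := by
  have h0 := abs_le.1 hs
  have huc : v.im ∈ uIcc 0 s → |v.im| ≤ 3 / 20 := by
    intro h
    rw [mem_uIcc] at h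
    rw [abs_le]
    rcases h with h | h <;> constructor <;> linarith [h.1, h.2]
  cases z <;> simp only [ZIn] at h
  · obtain ⟨-, h1, h2⟩ := h
    rw [h1]
    exact ⟨by linarith, by linarith⟩
  · obtain ⟨-, h1, h2⟩ := h
    rw [h1]
    exact ⟨by norm_num [abs_le], huc h2⟩
  · obtain ⟨-, h1, h2⟩ := h
    rw [h1]
    exact ⟨by norm_num [abs_le], huc h2⟩
  · obtain ⟨-, h1, h2⟩ := h
    rw [h1]
    exact ⟨by linarith, by norm_num [abs_le]⟩
  · obtain ⟨-, h1, h2⟩ := h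
    rw [h1]
    exact ⟨by linarith, by norm_num [abs_le]⟩
  · obtain ⟨-, h1, h2, h3⟩ := h
    rw [h1]
    exact ⟨by norm_num [abs_le], by rw [abs_le]; constructor <;> linarith⟩
  · obtain ⟨-, h1, h2, h3⟩ := h
    rw [h1]
    exact ⟨by norm_num [abs_le], by rw [abs_le]; constructor <;> linarith⟩
  · obtain ⟨-, h1, h2, h3⟩ := h
    rw [h1]
    exact ⟨by norm_num [abs_le], by rw [abs_le]; constructor <;> linarith⟩
  · obtain ⟨-, h1, h2, h3⟩ := h
    rw [h1]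
    exact ⟨by norm_num [abs_le], by rw [abs_le]; constructor <;> linarith⟩
  · obtain ⟨-, h1, h2, h3⟩ := h
    rw [h1]
    exact ⟨by rw [abs_le]; constructor <;> linarith, by norm_num⟩
  · obtain ⟨-, h1, h2, h3⟩ := h
    rw [h1]
    exact ⟨by rw [abs_le]; constructor <;> linarith, by norm_num⟩

/-- The interval of the legs. -/
theorem ps_leg {d : Dt} {zs bs : ℂ} (hd : DOK d zs bs) {x : ℝ} (h : x ∈ uIcc 0 zs.im) :
    Tb.Ps (mn d.Z0 102400) (mx d.Z1 102400) x := by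
  obtain ⟨m1, m2⟩ := mx_ge d.Z1 102400
  obtain ⟨n1, n2⟩ := mn_le d.Z0 102400
  have m1' : (d.Z1 : ℝ) ≤ (mx d.Z1 102400 : ℕ) := by exact_mod_cast m1
  have m2' : (102400 : ℝ) ≤ (mx d.Z1 102400 : ℕ) := by exact_mod_cast m2
  have n1' : ((mn d.Z0 102400 : ℕ) : ℝ) ≤ d.Z0 := by exact_mod_cast n1
  have n2' : ((mn d.Z0 102400 : ℕ) : ℝ) ≤ 102400 := by exact_mod_cast n2
  have h0 := hd.Z0
  have h1 := hd.Z1
  rw [mem_uIcc] at h
  unfold Tb.Ps
  rcases h with h | h <;> constructor <;> linarith [h.1, h.2]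

/-- Calls at a corner. -/
theorem znf_sound (hE : Tb.TabOK6) {d : Dt} {zs bs : ℂ} (hd : DOK d zs bs) {w kp3 : ℕ}
    {M0 M1 N2 : ℤ} {a1 b1 a2 b2 : ℕ} {z : Zp} (h : znf d w kp3 M0 M1 N2 a1 b1 a2 b2 z = true)
    {u v : ℂ} {wz : ℝ} (hz : ZIn zs.im v wz z) (hB : z = .B → 0 ≤ u.re + v.re)
    (g1 : Tb.Ps a1 b1 u.re) (g2 : Tb.Ps a2 b2 u.im) (i1 : |u.re| ≤ 1) (i2 : |u.im| ≤ 1) :
    FF w 0 1 kp3 u v + (M1 * (25600 * u.re) + N2 * (25600 * u.im) +
      42165747200 * (25600 * v.im) + M0) / 655360000 < 7 / 2 + 1048576 * wz := by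
  have hb := ZIn_bd hd.cZ hz
  have i3 : |v.re| ≤ 1 := by linarith [hb.1]
  have i4 : |v.im| ≤ 1 := by linarith [hb.2]
  have hp := abs_le.1 pi20
  cases z <;> simp only [ZIn] at hz
  · exact absurd h (by simp [znf])
  · obtain ⟨e0, e1, e2⟩ := hz
    have := eng_sound hE h (v := v) g1 g2 (ps_eq (by rw [e1]; norm_num)) (ps_leg hd e2) (Or.inl rfl)
      i1 i2 i3 i4
    rw [e0]
    push_cast at this
    linarith
  · obtain ⟨e0, e1, e2⟩ := hz
    have := eng_sound hE h (v := v) g1 g2 (ps_eq (by rw [e1]; norm_num)) (ps_leg hd e2) (Or.inl rfl)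
      i1 i2 i3 i4
    rw [e0]
    push_cast at this
    linarith
  · obtain ⟨e0, e1, e2⟩ := hz
    have e2' := abs_le.1 e2
    have := eng_sound hE h (v := v) g1 g2 ⟨by push_cast; linarith, by push_cast; linarith⟩
      (ps_eq (by rw [e1]; norm_num)) (Or.inl rfl) i1 i2 i3 i4
    rw [e0]
    push_cast at this
    linarith
  · obtain ⟨e0, e1, e2⟩ := hz
    have e2' := abs_le.1 e2
    have := eng_sound hE h (v := v) g1 g2 ⟨by push_cast; linarith, by push_cast; linarith⟩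
      (ps_eq (by rw [e1]; norm_num)) (Or.inl rfl) i1 i2 i3 i4
    rw [e0]
    push_cast at this
    linarith
  · obtain ⟨e0, e1, e2, e3⟩ := hz
    have := eng_sound hE h (v := v) g1 g2 (ps_eq (by rw [e1]; norm_num))
      ⟨by push_cast; linarith, by push_cast; linarith⟩ (Or.inl rfl) i1 i2 i3 i4
    have e4 : (3294199 - Real.pi * 1048576) * v.im ≤ 2 / 5 * (3 / 20) :=
      mul_le_mul (by linarith) e3 e2 (by norm_num)
    rw [e0]
    push_cast at this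
    linarith
  · obtain ⟨e0, e1, e2, e3⟩ := hz
    have := eng_sound hE h (v := v) g1 g2 (ps_eq (by rw [e1]; norm_num))
      ⟨by push_cast; linarith, by push_cast; linarith⟩ (Or.inl rfl) i1 i2 i3 i4
    have e4 : (3294199 - Real.pi * 1048576) * (-v.im) ≤ 2 / 5 * (3 / 20) :=
      mul_le_mul (by linarith) (by linarith) (by linarith) (by norm_num)
    rw [e0]
    push_cast at this
    linarith
  · obtain ⟨e0, e1, e2, e3⟩ := hz
    have := eng_sound hE h (v := v) g1 g2 (ps_eq (by rw [e1]; norm_num))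
      ⟨by push_cast; linarith, by push_cast; linarith⟩ (Or.inl rfl) i1 i2 i3 i4
    have e4 : (3294199 - Real.pi * 1048576) * v.im ≤ 2 / 5 * (3 / 20) :=
      mul_le_mul (by linarith) e3 e2 (by norm_num)
    rw [e0]
    push_cast at this
    linarith
  · obtain ⟨e0, e1, e2, e3⟩ := hz
    have := eng_sound hE h (v := v) g1 g2 (ps_eq (by rw [e1]; norm_num))
      ⟨by push_cast; linarith, by push_cast; linarith⟩ (Or.inl rfl) i1 i2 i3 i4
    have e4 : (3294199 - Real.pi * 1048576) * (-v.im) ≤ 2 / 5 * (3 / 20) :=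
      mul_le_mul (by linarith) (by linarith) (by linarith) (by norm_num)
    rw [e0]
    push_cast at this
    linarith
  · obtain ⟨e0, e1, e2, e3⟩ := hz
    have := eng_sound hE h (v := v) g1 g2 ⟨by push_cast; linarith, by push_cast; linarith⟩
      (ps_eq (by rw [e1]; norm_num)) (Or.inl rfl) i1 i2 i3 i4
    rw [e0]
    push_cast at this
    linarith
  · obtain ⟨e0, e1, e2, e3⟩ := hz
    have := eng_sound hE h (v := v) g1 g2 ⟨by push_cast; linarith, by push_cast; linarith⟩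
      (ps_eq (by rw [e1]; norm_num)) (Or.inr (hB rfl)) i1 i2 i3 i4
    rw [e0]
    push_cast at this
    linarith

end Pool.Agent.S5.Z3
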